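import Pool.Agent.MUL.Defs

/-!
# BR (difficulty 2): border complexity in the nonscalar model

* `reach_map`: induction on `Reach` (`V'` = the space for the images; `affine` goes to `affine`:
  span induction with `hX`, `hC`; note `χ (c • v) = χ (C c) * χ v = C c' * χ v = c' • χ v`).
* `br_of_border`: `reach_of_slp` with `χ = RingHom.id` (see `border_subst` in `H10/PerSL/Subst.lean`,
  the `Avail` cases are treated there in the same way).
* `br_of_reach`: `F = map (algebraMap k (RatFunc k)) P`, `reach_map` with `χ = map _`;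
  `SpecializesTo (algebraMap k _ a) a`: take `P = C a`, `Q = 1`.
* `border_subst'`: the proof of `border_subst` word by word, with `reach_map` instead of
  `reach_of_slp` (and `F ∈ V` instead of the `Avail` cases).
* `deg_affine`: write `p` as the sum of its monomials.
-/

set_option autoImplicit false

namespace Pool.Agent.MUL

open MvPolynomial Finset
open Pool.Agent.H53.AC Pool.Agent.H10.PerSL

universe u v w w'

theorem reach_map {L₀ : Type u} [Field L₀] {L : Type w} [Field L] {σ : Type w'} {τ : Type v}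
    (χ : MvPolynomial σ L₀ →+* MvPolynomial τ L) (hX : ∀ i, χ (X i) ∈ affine L τ)
    (hC : ∀ c : L₀, ∃ c' : L, χ (C c) = C c') {r : ℕ} {V : Submodule L₀ (MvPolynomial σ L₀)}
    (hV : Reach r V) :
    ∃ V' : Submodule L (MvPolynomial τ L), Reach r V' ∧ ∀ x ∈ V, χ x ∈ V' := by
  have hsmul : ∀ (c : L₀) (x : MvPolynomial σ L₀), ∃ c' : L, χ (c • x) = c' • χ x := by
    intro c x
    obtain ⟨c', hc'⟩ := hC c
    exact ⟨c', by rw [MvPolynomial.smul_eq_C_mul, map_mul, hc', MvPolynomial.smul_eq_C_mul]⟩
  induction hV with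
  | zero =>
    refine ⟨_, Reach.zero, ?_⟩
    intro x hx
    unfold affine at hx
    induction hx using Submodule.span_induction with
    | mem x hx =>
      rcases hx with rfl | ⟨i, rfl⟩
      · rw [map_one]
        exact Submodule.subset_span (Set.mem_insert _ _)
      · exact hX i
    | zero => rw [map_zero]; exact Submodule.zero_mem _
    | add x y _ _ hx hy => rw [map_add]; exact Submodule.add_mem _ hx hy
    | smul c x _ hx =>
      obtain ⟨c', hc'⟩ := hsmul c x
      rw [hc']
      exact Submodule.smul_mem _ _ hx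
  | @step r V a b hV ha hb ih =>
    obtain ⟨V', hV', hm⟩ := ih
    refine ⟨_, Reach.step hV' (hm a ha) (hm b hb), ?_⟩
    intro x hx
    obtain ⟨y, hy, z, hz, rfl⟩ := Submodule.mem_sup.1 hx
    obtain ⟨c, rfl⟩ := Submodule.mem_span_singleton.1 hz
    obtain ⟨c', hc'⟩ := hsmul c (a * b)
    rw [map_add, hc', map_mul]
    exact Submodule.add_mem _ (Submodule.mem_sup_left (hm y hy))
      (Submodule.mem_sup_right (Submodule.smul_mem _ _ (Submodule.mem_span_singleton_self _)))

private theorem X_mem_affine {F : Type u} [Field F] {τ : Type v} (i : τ) :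
    (X i : MvPolynomial τ F) ∈ affine F τ :=
  Submodule.subset_span (Set.mem_insert_of_mem _ ⟨i, rfl⟩)

private theorem one_mem_affine {F : Type u} [Field F] {τ : Type v} :
    (1 : MvPolynomial τ F) ∈ affine F τ :=
  Submodule.subset_span (Set.mem_insert _ _)

theorem br_of_border {k : Type u} [Field k] {σ : Type v} {P : MvPolynomial σ k} {r : ℕ}
    (h : BorderComplexityLE P r) : BorderReach P r := by
  obtain ⟨F, hF, l, hl, hlr, hav⟩ := h
  refine ⟨F, hF, ?_⟩
  obtain ⟨r', V, hr', hV, hmem⟩ := reach_of_slp (RingHom.id (MvPolynomial σ (RatFunc k)))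
    (fun i => X_mem_affine i) (fun c => ⟨c, rfl⟩) hl
  refine ⟨r', hr'.trans hlr, V, hV, ?_⟩
  rcases hav with ⟨i, hi⟩ | ⟨c, hc⟩ | h
  · rw [← hi]; exact hV.affine_le (X_mem_affine i)
  · rw [hc, MvPolynomial.algebraMap_eq]
    exact hV.C_mem c
  · exact hmem F h

theorem br_of_reach {k : Type u} [Field k] {σ : Type v} {P : MvPolynomial σ k} {r : ℕ}
    (h : ReachLE P r) : BorderReach P r := by
  obtain ⟨r', hr', V, hV, hP⟩ := h
  obtain ⟨V', hV', hm⟩ := reach_map (map (algebraMap k (RatFunc k)) :
    MvPolynomial σ k →+* MvPolynomial σ (RatFunc k))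
    (fun i => by rw [map_X]; exact X_mem_affine i) (fun c => ⟨_, map_C _ _⟩) hV
  refine ⟨map (algebraMap k (RatFunc k)) P, ?_, r', hr', V', hV', hm P hP⟩
  intro m
  rw [coeff_map]
  refine ⟨Polynomial.C (coeff m P), 1, by simp, ?_, by simp⟩
  rw [map_one, div_one, IsScalarTower.algebraMap_apply k (Polynomial k) (RatFunc k)]
  rfl

theorem border_subst' {k : Type u} [Field k] {K : Type u} [Field K] [Algebra k K]
    {L : Type u} [Field L] [Algebra (PowerSeries K) L]
    (hinj : Function.Injective (algebraMap (PowerSeries K) L))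
    {σ : Type w} {τ : Type v} {f : MvPolynomial σ k} {r : ℕ} (hf : BorderReach f r)
    {e : ℕ} (he : 0 < e) (E : σ → MvPolynomial τ (PowerSeries K))
    (hE : ∀ i, map (algebraMap (PowerSeries K) L) (E i) ∈ affine L τ) :
    ∃ (r' : ℕ) (V : Submodule L (MvPolynomial τ L)) (G : MvPolynomial τ (PowerSeries K)),
      r' ≤ r ∧ Reach r' V ∧
      map (algebraMap (PowerSeries K) L)
        (eval₂ ((C : PowerSeries K →+* _).comp
          ((PowerSeries.C (R := K)).comp (algebraMap k K))) E f +
          C (PowerSeries.X ^ e) * G) ∈ V := by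
  classical
  obtain ⟨F, hF, r', hr', V₀, hV₀, hFV₀⟩ := hf
  obtain ⟨ψ, hψ⟩ := exists_psi (k := k) hinj he
  choose b hb using fun m => hψ _ _ (hF m)
  let ι := algebraMap (PowerSeries K) L
  let χ : MvPolynomial σ (RatFunc k) →+* MvPolynomial τ L :=
    eval₂Hom ((C : L →+* MvPolynomial τ L).comp ψ) (fun i => map ι (E i))
  have hX : ∀ i, χ (X i) ∈ affine L τ := fun i => by simpa [χ] using hE i
  have hC : ∀ c : RatFunc k, ∃ c' : L, χ (C c) = C c' := fun c => ⟨ψ c, by simp [χ]⟩
  obtain ⟨V, hV, hmem⟩ := reach_map χ hX hC hV₀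
  have hFV : χ F ∈ V := hmem F hFV₀
  let s := F.support ∪ f.support
  let mon : (σ →₀ ℕ) → MvPolynomial τ (PowerSeries K) := fun m => ∏ i ∈ m.support, E i ^ m i
  refine ⟨r', V, ∑ m ∈ s, C (b m) * mon m, hr', hV, ?_⟩
  have h1 : χ F = ∑ m ∈ s, C (ψ (coeff m F)) * map ι (mon m) := by
    simp only [χ, coe_eval₂Hom]
    rw [eval₂_eq]
    refine (Finset.sum_subset (s₂ := s) (Finset.subset_union_left) ?_).trans ?_
    · intro m _ hm
      rw [MvPolynomial.notMem_support_iff.1 hm]
      simp
    · refine Finset.sum_congr rfl fun m _ => ?_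
      simp only [mon, map_prod, map_pow, RingHom.comp_apply]
  have h2 : eval₂ ((C : PowerSeries K →+* _).comp
          ((PowerSeries.C (R := K)).comp (algebraMap k K))) E f =
      ∑ m ∈ s, C (PowerSeries.C (algebraMap k K (coeff m f))) * mon m := by
    rw [eval₂_eq]
    refine (Finset.sum_subset (s₂ := s) (Finset.subset_union_right) ?_).trans ?_
    · intro m _ hm
      rw [MvPolynomial.notMem_support_iff.1 hm]
      simp
    · refine Finset.sum_congr rfl fun m _ => ?_
      simp only [mon, RingHom.comp_apply]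
  rw [h2]
  convert hFV using 1
  rw [h1, map_add, map_mul, map_sum, map_sum, Finset.mul_sum, ← Finset.sum_add_distrib]
  refine Finset.sum_congr rfl fun m _ => ?_
  rw [hb m]
  simp only [map_mul, map_C, map_add, ι]
  ring

theorem deg_affine {F : Type u} [Field F] {τ : Type v} (p : MvPolynomial τ F)
    (h : p.totalDegree ≤ 1) : p ∈ affine F τ := by
  classical
  rw [p.as_sum]
  refine Submodule.sum_mem _ (fun m hm => ?_)
  have h1 : (m.sum fun _ e => e) ≤ 1 := (le_totalDegree hm).trans h
  have h2 : monomial m (coeff m p) = coeff m p • monomial m (1 : F) := by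
    rw [smul_monomial, smul_eq_mul, mul_one]
  rw [h2]
  refine Submodule.smul_mem _ _ ?_
  by_cases hm0 : m = 0
  · subst hm0
    exact one_mem_affine
  · obtain ⟨i, hi⟩ := Finsupp.ne_iff.1 hm0
    have hi0 : m i ≠ 0 := by simpa using hi
    have h3 : m = Finsupp.single i 1 := by
      have h4 : m.sum (fun _ e => e) = m i + ∑ j ∈ m.support.erase i, m j := by
        rw [Finsupp.sum, Finset.add_sum_erase _ _ (Finsupp.mem_support_iff.2 hi0)]
      ext j
      by_cases hj : j = i
      · subst hj
        simp only [Finsupp.single_eq_same]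
        omega
      · rw [Finsupp.single_apply, if_neg (fun h => hj h.symm)]
        by_contra hj0
        have h5 : m j ≤ ∑ j ∈ m.support.erase i, m j :=
          Finset.single_le_sum (f := fun j => m j) (fun _ _ => Nat.zero_le _)
            (Finset.mem_erase.2 ⟨hj, Finsupp.mem_support_iff.2 hj0⟩)
        omega
    rw [h3]
    exact X_mem_affine i

end Pool.Agent.MUL
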