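import Pool.Agent.MUL.Defs

/-!
# CA (difficulty 4): the system for the level set, Hensel

`s = C X`, `PS = F₂[[X]]`, variables `some i` (points) and `none`. `su` substitutes `Φ(x) + s v` for `y`, where `v` is
the variable `none`: `su (gr Φ) = s * X none`.
For `𝒫 = gr Φ ^ a * Q + s ^ (a+1) * Z` and `b`: with `e₀`, `e₁ i` below
`su 𝒫 = s ^ a * (e₀ + 1)` and `su (∂_i 𝒫 + b_i ∂_y 𝒫) = s ^ (a-1) * e₁ i`
(`∂_i (gr Φ) = - rename some (∂_i Φ)`, `∂_y (gr Φ) = 1`; write `a = a' + 1`).
`sys_hensel`: reduction mod `X`: `e₀ ↦ v ^ a * Q(x, Φ(x)) - 1`, `e₁ i ↦ v ^ (a-1) * a * Q(x, Φ(x)) * (b_i - ∂_i Φ(x))`.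
At `x = p`, `v = v₀` with `v₀ ^ a = 1 / Q(p, Φ(p))` (`IsAlgClosed.exists_pow_nat_eq`) they vanish. A kernel vector `(ξ, ν)` of
the Jacobian: rows `e₁ i`: `-v₀^(a-1) a H ∑ j ξ_j ∂_j ∂_i Φ(p) = 0` (the derivative in `v` vanishes as `b_i = ∂_i Φ(p)`), so `ξ = 0`
(the matrix in `Good`); row `e₀`: `a v₀^(a-1) H ν = 0` so `ν = 0` (`CharZero`). Then `hensel`.
Useful: evaluation of `map cc (su R)` at `pt p v` is `R (p, Φ(p))` (`cc` = constant coefficient).
-/

set_option autoImplicit false

namespace Pool.Agent.MUL

open MvPolynomial Finset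
open Pool.Agent.H53.AC Pool.Agent.H10.PerSL

universe u v w

variable {F : Type u} [Field F] {τ : Type v}

/-- constants -/
noncomputable abbrev mc (τ' : Type v) (F : Type u) [Field F] :
    MvPolynomial τ' F →+* MvPolynomial τ' (PowerSeries F) :=
  MvPolynomial.map (PowerSeries.C (R := F))

/-- substitute `Φ(x) + s v` for `y` -/
noncomputable def su (Φ : MvPolynomial τ F) :
    MvPolynomial (Option τ) (PowerSeries F) →ₐ[PowerSeries F]
      MvPolynomial (Option τ) (PowerSeries F) :=
  aeval (pt (fun i => X (some i)) (rename some (mc τ F Φ) + C PowerSeries.X * X none))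

/-- the polynomial `𝒫` -/
noncomputable def pp (Φ : MvPolynomial τ F) (Q : MvPolynomial (Option τ) F) (a : ℕ)
    (Z : MvPolynomial (Option τ) (PowerSeries F)) : MvPolynomial (Option τ) (PowerSeries F) :=
  mc (Option τ) F (gr Φ ^ a * Q) + C (PowerSeries.X ^ (a + 1)) * Z

/-- the system whose solutions are counted: `𝒫 = s ^ a`, `∂_i 𝒫 + b_i ∂_y 𝒫 = 0` -/
noncomputable def sysP (P : MvPolynomial (Option τ) (PowerSeries F)) (a : ℕ) (b : τ → F) :
    Option τ → MvPolynomial (Option τ) (PowerSeries F) :=
  pt (fun i => pderiv (some i) P + C (PowerSeries.C (b i)) * pderiv none P)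
    (P - C (PowerSeries.X ^ a))

/-- the scaled system, in the unknowns `x` and `v` -/
noncomputable def sysE (Φ : MvPolynomial τ F) (Q : MvPolynomial (Option τ) F) (a : ℕ)
    (Z : MvPolynomial (Option τ) (PowerSeries F)) (b : τ → F) :
    Option τ → MvPolynomial (Option τ) (PowerSeries F) :=
  pt (fun i => X none ^ (a - 1) * ((a : MvPolynomial (Option τ) (PowerSeries F)) *
        su Φ (mc (Option τ) F Q) * (C (PowerSeries.C (b i)) - rename some (mc τ F (pderiv i Φ))) +
        C PowerSeries.X * X none * su Φ (mc (Option τ) F (pderiv (some i) Q + C (b i) * pderiv none Q))) +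
        C (PowerSeries.X ^ 2) * su Φ (pderiv (some i) Z + C (PowerSeries.C (b i)) * pderiv none Z))
    (X none ^ a * su Φ (mc (Option τ) F Q) + C PowerSeries.X * su Φ Z - 1)

private theorem CA_su_rename (Φ : MvPolynomial τ F) (p : MvPolynomial τ (PowerSeries F)) :
    su Φ (rename some p) = rename some p := by
  rw [su, aeval_rename]
  have h : (pt (fun i => (X (some i) : MvPolynomial (Option τ) (PowerSeries F)))
      (rename some (mc τ F Φ) + C PowerSeries.X * X none)) ∘ some = X ∘ some := rfl
  rw [h, ← aeval_rename, aeval_X_left_apply]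

private theorem CA_mc_gr (Φ : MvPolynomial τ F) :
    mc (Option τ) F (gr Φ) = X none - rename some (mc τ F Φ) := by
  simp only [gr, map_sub, map_X, map_rename]

private theorem CA_su_gr (Φ : MvPolynomial τ F) :
    su Φ (mc (Option τ) F (gr Φ)) = C PowerSeries.X * X none := by
  rw [CA_mc_gr, map_sub, CA_su_rename]
  have h : su Φ (X none) = rename some (mc τ F Φ) + C PowerSeries.X * X none := by
    rw [su, aeval_X]
    rfl
  rw [h]
  ring

private theorem CA_su_C (Φ : MvPolynomial τ F) (c : PowerSeries F) : su Φ (C c) = C c := by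
  rw [su]
  exact algHom_C _ c

theorem su_sysP_none (Φ : MvPolynomial τ F) (Q : MvPolynomial (Option τ) F) (a : ℕ)
    (Z : MvPolynomial (Option τ) (PowerSeries F)) (b : τ → F) :
    su Φ (sysP (pp Φ Q a Z) a b none) = C (PowerSeries.X ^ a) * sysE Φ Q a Z b none := by
  have h1 : sysP (pp Φ Q a Z) a b none = pp Φ Q a Z - C (PowerSeries.X ^ a) := rfl
  have h2 : sysE Φ Q a Z b none =
      X none ^ a * su Φ (mc (Option τ) F Q) + C PowerSeries.X * su Φ Z - 1 := rfl
  rw [h1, h2, pp, map_sub, map_add, map_mul (mc (Option τ) F), map_mul (su Φ), map_mul (su Φ),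
    map_pow (mc (Option τ) F), map_pow (su Φ), CA_su_gr, CA_su_C, CA_su_C]
  simp only [C_pow]
  ring

theorem su_sysP_some (Φ : MvPolynomial τ F) (Q : MvPolynomial (Option τ) F) (a : ℕ) (ha : 0 < a)
    (Z : MvPolynomial (Option τ) (PowerSeries F)) (b : τ → F) (i : τ) :
    su Φ (sysP (pp Φ Q a Z) a b (some i)) = C (PowerSeries.X ^ (a - 1)) * sysE Φ Q a Z b (some i) := by
  classical
  obtain ⟨a', rfl⟩ : ∃ a', a = a' + 1 := ⟨a - 1, by omega⟩
  have h1 : sysP (pp Φ Q (a' + 1) Z) (a' + 1) b (some i) = pderiv (some i) (pp Φ Q (a' + 1) Z) +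
      C (PowerSeries.C (b i)) * pderiv none (pp Φ Q (a' + 1) Z) := rfl
  have h2 : sysE Φ Q (a' + 1) Z b (some i) = X none ^ (a' + 1 - 1) *
      (((a' + 1 : ℕ) : MvPolynomial (Option τ) (PowerSeries F)) *
        su Φ (mc (Option τ) F Q) * (C (PowerSeries.C (b i)) - rename some (mc τ F (pderiv i Φ))) +
        C PowerSeries.X * X none * su Φ (mc (Option τ) F (pderiv (some i) Q + C (b i) * pderiv none Q))) +
        C (PowerSeries.X ^ 2) * su Φ (pderiv (some i) Z + C (PowerSeries.C (b i)) * pderiv none Z) := rfl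
  have hg1 : pderiv (some i) (mc (Option τ) F (gr Φ)) = - rename some (mc τ F (pderiv i Φ)) := by
    rw [CA_mc_gr, map_sub, pderiv_X_of_ne (by simp), pderiv_rename (Option.some_injective τ),
      pderiv_map, zero_sub]
  have hg2 : pderiv none (mc (Option τ) F (gr Φ)) = 1 := by
    rw [CA_mc_gr, map_sub, pderiv_X_self]
    have : pderiv none (rename some (mc τ F Φ)) = 0 := by
      apply pderiv_eq_zero_of_notMem_vars
      intro h
      have := vars_rename some (mc τ F Φ) h
      simp at this
    rw [this, sub_zero]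
  have hp : ∀ o : Option τ, pderiv o (pp Φ Q (a' + 1) Z) =
      ((a' + 1 : ℕ) : MvPolynomial (Option τ) (PowerSeries F)) *
        mc (Option τ) F (gr Φ) ^ a' * pderiv o (mc (Option τ) F (gr Φ)) * mc (Option τ) F Q +
      mc (Option τ) F (gr Φ) ^ (a' + 1) * mc (Option τ) F (pderiv o Q) +
      C (PowerSeries.X ^ (a' + 1 + 1)) * pderiv o Z := by
    intro o
    rw [pp, map_add, map_mul (mc (Option τ) F), map_pow (mc (Option τ) F), Derivation.leibniz,
      Derivation.leibniz, Derivation.leibniz_pow, pderiv_map, pderiv_C]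
    simp only [smul_eq_mul, nsmul_eq_mul, Nat.add_sub_cancel]
    ring
  rw [h1, h2, hp, hp, hg1, hg2]
  have hn : su Φ ((a' + 1 : ℕ) : MvPolynomial (Option τ) (PowerSeries F)) =
      ((a' + 1 : ℕ) : MvPolynomial (Option τ) (PowerSeries F)) := map_natCast _ _
  simp only [map_add (su Φ), map_mul (su Φ), map_pow (su Φ), map_neg (su Φ), map_one (su Φ), CA_su_gr, CA_su_C,
    CA_su_rename, hn, map_add (mc (Option τ) F), map_mul (mc (Option τ) F), map_C, C_pow,
    Nat.add_sub_cancel]
  ring

private theorem CA_red_mc (τ' : Type v) (p : MvPolynomial τ' F) :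
    map (PowerSeries.constantCoeff (R := F)) (mc τ' F p) = p := by
  rw [mc, MvPolynomial.map_map]
  have h : (PowerSeries.constantCoeff (R := F)).comp (PowerSeries.C (R := F)) = RingHom.id F := by
    ext x
    simp
  rw [h, map_id]

private theorem CA_red_su (Φ : MvPolynomial τ F) (R : MvPolynomial (Option τ) F) :
    map (PowerSeries.constantCoeff (R := F)) (su Φ (mc (Option τ) F R)) = rename some (sb Φ R) := by
  induction R using MvPolynomial.induction_on with
  | C c =>
    rw [mc, map_C, CA_su_C, map_C, sb, algHom_C, algebraMap_eq, rename_C]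
    simp
  | add P Q hP hQ => simp only [map_add, hP, hQ]
  | mul_X P i hP =>
    simp only [map_mul, hP]
    congr 1
    cases i with
    | none =>
      simp only [map_X, su, aeval_X, sb, pt, Option.elim, map_add, map_mul, map_C, map_rename,
        PowerSeries.constantCoeff_X, C_0, zero_mul, add_zero]
      rw [CA_red_mc]
    | some i =>
      simp only [map_X, su, aeval_X, sb, pt, Option.elim, rename_X]

theorem sys_hensel [Fintype τ] [DecidableEq τ] [IsAlgClosed F] [CharZero F]
    (Φ : MvPolynomial τ F) (Q : MvPolynomial (Option τ) F) (a : ℕ) (ha : 0 < a)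
    (Z : MvPolynomial (Option τ) (PowerSeries F)) (b : τ → F) (p : τ → F)
    (hp : Good Φ b {p}) (hQ : eval p (sb Φ Q) ≠ 0) :
    ∃ q : Option τ → PowerSeries F, (∀ i, eval q (sysE Φ Q a Z b i) = 0) ∧
      (∀ i, PowerSeries.constantCoeff (q (some i)) = p i) ∧
      PowerSeries.constantCoeff (Matrix.of fun i j =>
        eval q (pderiv j (sysE Φ Q a Z b i))).det ≠ 0 := by
  classical
  set cc := PowerSeries.constantCoeff (R := F) with hcc
  set H : MvPolynomial τ F := sb Φ Q with hH
  have hHp : eval p H ≠ 0 := hQ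
  obtain ⟨v₀, hv₀⟩ := IsAlgClosed.exists_pow_nat_eq ((eval p H)⁻¹) ha
  have hv0 : v₀ ≠ 0 := by
    rintro rfl
    rw [zero_pow ha.ne'] at hv₀
    exact inv_ne_zero hHp hv₀.symm
  have haF : (a : F) ≠ 0 := Nat.cast_ne_zero.2 ha.ne'
  obtain ⟨hp1, hp2⟩ := hp p (Finset.mem_singleton_self p)
  -- reductions
  have hrn : map cc (sysE Φ Q a Z b none) = X none ^ a * rename some H - 1 := by
    have h2 : sysE Φ Q a Z b none =
      X none ^ a * su Φ (mc (Option τ) F Q) + C PowerSeries.X * su Φ Z - 1 := rfl
    rw [h2]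
    simp only [map_sub, map_add, map_mul, map_pow, map_one, map_X, map_C, hcc,
      PowerSeries.constantCoeff_X, C_0, zero_mul, add_zero]
    rw [CA_red_su]
  have hrs : ∀ i, map cc (sysE Φ Q a Z b (some i)) = X none ^ (a - 1) *
      ((a : MvPolynomial (Option τ) F) * rename some H * (C (b i) - rename some (pderiv i Φ))) := by
    intro i
    have h2 : sysE Φ Q a Z b (some i) = X none ^ (a - 1) *
      ((a : MvPolynomial (Option τ) (PowerSeries F)) *
        su Φ (mc (Option τ) F Q) * (C (PowerSeries.C (b i)) - rename some (mc τ F (pderiv i Φ))) +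
        C PowerSeries.X * X none * su Φ (mc (Option τ) F (pderiv (some i) Q + C (b i) * pderiv none Q))) +
        C (PowerSeries.X ^ 2) * su Φ (pderiv (some i) Z + C (PowerSeries.C (b i)) * pderiv none Z) := rfl
    rw [h2]
    have h3 : map cc (rename some (mc τ F (pderiv i Φ))) = rename some (pderiv i Φ) := by
      rw [map_rename, hcc, CA_red_mc]
    have h4 : map cc (C (PowerSeries.C (b i)) : MvPolynomial (Option τ) (PowerSeries F)) = C (b i) := by
      rw [map_C, hcc]
      simp
    have h5 : map cc (C PowerSeries.X : MvPolynomial (Option τ) (PowerSeries F)) = 0 := by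
      rw [map_C, hcc]
      simp
    rw [map_add, map_mul, map_mul, C_pow, map_pow, map_pow, h5, map_add, map_mul, map_mul,
      map_sub, h3, h4, map_mul (map cc) (C PowerSeries.X * X none), map_mul (map cc) (C PowerSeries.X), h5, map_X,
      CA_red_su, map_natCast]
    ring
  set q₀ : Option τ → F := pt p v₀ with hq₀
  have hren : ∀ R : MvPolynomial τ F, eval q₀ (rename some R) = eval p R := by
    intro R
    rw [eval_rename]
    rfl
  have hX : eval q₀ (X none : MvPolynomial (Option τ) F) = v₀ := eval_X _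
  have h0 : ∀ i, eval q₀ (map cc (sysE Φ Q a Z b i)) = 0 := by
    intro i
    cases i with
    | none =>
      rw [hrn, map_sub, map_mul, map_pow, hX, hren, map_one, hv₀, inv_mul_cancel₀ hHp, sub_self]
    | some i =>
      rw [hrs, map_mul, map_mul, map_sub, eval_C, hren, hp1 i, sub_self, mul_zero, mul_zero]
  have hdet : (Matrix.of fun i j =>
      eval q₀ (pderiv j (map cc (sysE Φ Q a Z b i)))).det ≠ 0 := by
    intro hd
    obtain ⟨U, hU0, hU⟩ := Matrix.exists_mulVec_eq_zero_iff.2 hd
    have hU' : ∀ i, ∑ j, eval q₀ (pderiv j (map cc (sysE Φ Q a Z b i))) * U j = 0 := by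
      intro i
      have := congrFun hU i
      simpa [Matrix.mulVec, dotProduct] using this
    -- derivatives
    have dns : ∀ (R : MvPolynomial τ F) (j : τ),
        pderiv (some j) (rename some R) = rename some (pderiv j R) := fun R j =>
      pderiv_rename (Option.some_injective τ) j R
    have dnn : ∀ R : MvPolynomial τ F, pderiv none (rename some R) = 0 := by
      intro R
      apply pderiv_eq_zero_of_notMem_vars
      intro h
      have := vars_rename some R h
      simp at this
    -- rows `some i`
    have hrow : ∀ i, ∑ j, eval p (pderiv j (pderiv i Φ)) * U (some j) = 0 := by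
      intro i
      have h := hU' (some i)
      rw [Fintype.sum_option] at h
      have e1 : eval q₀ (pderiv none (map cc (sysE Φ Q a Z b (some i)))) = 0 := by
        rw [hrs, Derivation.leibniz, Derivation.leibniz, map_sub, dnn, pderiv_C]
        simp only [smul_eq_mul, map_add, map_mul, map_sub, hren, eval_C, hp1 i, sub_self, mul_zero,
          zero_mul, add_zero, map_zero]
      have e2 : ∀ j, eval q₀ (pderiv (some j) (map cc (sysE Φ Q a Z b (some i)))) =
          -(v₀ ^ (a - 1) * ((a : F) * eval p H)) * eval p (pderiv j (pderiv i Φ)) := by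
        intro j
        rw [hrs, Derivation.leibniz, Derivation.leibniz, map_sub, dns, pderiv_C]
        have hXj : eval q₀ (pderiv (some j) (X none ^ (a - 1) : MvPolynomial (Option τ) F)) = 0 := by
          rw [Derivation.leibniz_pow, pderiv_X_of_ne (by simp)]
          simp
        simp only [smul_eq_mul, map_add, map_mul, map_sub, hren, eval_C, hp1 i, sub_self, mul_zero,
          zero_mul, add_zero, map_pow, hX, map_natCast, map_neg, zero_sub]
        ring
      rw [e1, zero_mul, zero_add] at h
      simp only [e2, mul_assoc] at h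
      rw [← Finset.mul_sum] at h
      have hc : -(v₀ ^ (a - 1) * ((a : F) * eval p H)) ≠ 0 :=
        neg_ne_zero.2 (mul_ne_zero (pow_ne_zero _ hv0) (mul_ne_zero haF hHp))
      rcases mul_eq_zero.1 (by simpa only [mul_assoc] using h) with h' | h'
      · exact absurd h' (by simpa only [mul_assoc] using hc)
      · exact h'
    have hUs : (fun j => U (some j)) = 0 := by
      by_contra hne
      refine hp2 (Matrix.exists_mulVec_eq_zero_iff.1 ⟨fun j => U (some j), hne, ?_⟩)
      ext i
      simpa [Matrix.mulVec, dotProduct] using hrow i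
    have hUn : U none = 0 := by
      have h := hU' none
      rw [Fintype.sum_option] at h
      have h3 : ∀ j, U (some j) = 0 := fun j => congrFun hUs j
      simp only [h3, mul_zero, Finset.sum_const_zero, add_zero] at h
      have e1 : eval q₀ (pderiv none (map cc (sysE Φ Q a Z b none))) =
          (a : F) * v₀ ^ (a - 1) * eval p H := by
        rw [hrn, map_sub, Derivation.leibniz, dnn, Derivation.leibniz_pow, pderiv_X_self, pderiv_one]
        simp only [smul_eq_mul, nsmul_eq_mul, map_mul, hren, mul_one, mul_zero,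
          zero_add, map_pow, hX, map_natCast, sub_zero]
        ring
      rw [e1] at h
      rcases mul_eq_zero.1 h with h' | h'
      · exact absurd h' (mul_ne_zero (mul_ne_zero haF (pow_ne_zero _ hv0)) hHp)
      · exact h'
    apply hU0
    ext o
    cases o with
    | none => exact hUn
    | some j => exact congrFun hUs j
  obtain ⟨q, hq1, hq2⟩ := hensel (sysE Φ Q a Z b) q₀ h0 hdet
  refine ⟨q, hq1, fun i => hq2 (some i), ?_⟩
  rw [RingHom.map_det]
  have : (PowerSeries.constantCoeff (R := F)).mapMatrix (Matrix.of fun i j =>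
      eval q (pderiv j (sysE Φ Q a Z b i))) = Matrix.of fun i j =>
      eval q₀ (pderiv j (map cc (sysE Φ Q a Z b i))) := by
    ext i j
    simp only [RingHom.mapMatrix_apply, Matrix.map_apply, Matrix.of_apply]
    rw [constantCoeff_eval, pderiv_map]
    congr 2
    ext i
    exact hq2 i
  rw [this]
  exact hdet

end Pool.Agent.MUL
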