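import Pool.Agent.MUL.CA

/-!
# CB (difficulty 4): nondegenerate solutions of the original system over `F₃`

Let `q` be as in `sys_hensel`, `ι : F₂[[X]] → F₃` injective. The point is `P = pt (ι ∘ q ∘ some) (ι y)`, where
`y = eval (q ∘ some) (mc Φ) + X * q none` (so `eval q (su Φ R) = eval (pt (q ∘ some) y) R` for all `R`).
* `sysP = 0` at `P`: `su_sysP_none`, `su_sysP_some`.
* Jacobian: let `U : Option τ → F₃` be a kernel vector of the Jacobian of `map ι ∘ sysP` at `P`. Put
  `ν = (U none - ∑ j, U (some j) * (∂_j Φ)(q)) / ι X`, `V = pt (U ∘ some) ν`. Evaluate over the dual numbers of `F₃`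
  (`aeval_dual`): the point `q + ε V` is mapped by the substitution `su` to `P + ε U` (again `aeval_dual`, for `Φ`), hence
  `0 = sysP(P + ε U) = (ι X)^* sysE(q + ε V)`, so `sysE (q + ε V) = 0`, i.e. `V` is in the kernel of the Jacobian of `sysE` at `q`, whose
  determinant is not `0` in `F₃`. So `V = 0`, `U = 0`.
-/

set_option autoImplicit false

namespace Pool.Agent.MUL

open MvPolynomial Finset
open Pool.Agent.H53.AC Pool.Agent.H10.PerSL

universe u v w

/-- the point of the original system that belongs to a point of the scaled system -/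
private noncomputable def CB_g {F₂ : Type u} [Field F₂] {τ : Type v} (Φ : MvPolynomial τ F₂)
    {R : Type w} [CommRing R] [Algebra (PowerSeries F₂) R] (x : Option τ → R) : Option τ → R :=
  pt (fun i => x (some i)) (aeval (fun i => x (some i)) (mc τ F₂ Φ) +
    algebraMap (PowerSeries F₂) R PowerSeries.X * x none)

private theorem CB_su {F₂ : Type u} [Field F₂] {τ : Type v} (Φ : MvPolynomial τ F₂)
    {R : Type w} [CommRing R] [Algebra (PowerSeries F₂) R] (x : Option τ → R)
    (p : MvPolynomial (Option τ) (PowerSeries F₂)) :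
    aeval x (su Φ p) = aeval (CB_g Φ x) p := by
  unfold su
  change ((aeval x).comp (aeval _)) p = _
  rw [comp_aeval]
  congr 2
  funext o
  rcases o with _ | i
  · simp only [pt, CB_g, Option.elim_none, map_add, map_mul, aeval_X, algHom_C, aeval_rename]
    rfl
  · simp [pt, CB_g]

private theorem CB_aeval {R : Type u} {S : Type w} [CommRing R] [CommRing S] [Algebra R S]
    {σ : Type v} (x : σ → S) (p : MvPolynomial σ R) :
    aeval x p = eval x (map (algebraMap R S) p) := by
  rw [eval_map, aeval_def]

private theorem CB_aeval_alg {R : Type u} {S : Type w} [CommRing R] [CommRing S] [Algebra R S]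
    {σ : Type v} (x : σ → R) (p : MvPolynomial σ R) :
    aeval (fun i => algebraMap R S (x i)) p = algebraMap R S (eval x p) := by
  rw [← aeval_eq_eval' x p]
  exact aeval_algebraMap_apply S x p

private theorem CB_su_sysP {F₂ : Type u} [Field F₂] {τ : Type v}
    (Φ : MvPolynomial τ F₂) (Q : MvPolynomial (Option τ) F₂) (a : ℕ) (ha : 0 < a)
    (Z : MvPolynomial (Option τ) (PowerSeries F₂)) (b : τ → F₂) (i : Option τ) :
    ∃ k : ℕ, su Φ (sysP (pp Φ Q a Z) a b i) = C (PowerSeries.X ^ k) * sysE Φ Q a Z b i := by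
  rcases i with _ | i
  · exact ⟨a, su_sysP_none Φ Q a Z b⟩
  · exact ⟨a - 1, su_sysP_some Φ Q a ha Z b i⟩

theorem sys_point {F₂ : Type u} [Field F₂] {F₃ : Type u} [Field F₃]
    [Algebra (PowerSeries F₂) F₃] (hinj : Function.Injective (algebraMap (PowerSeries F₂) F₃))
    {τ : Type v} [Fintype τ] [DecidableEq τ]
    (Φ : MvPolynomial τ F₂) (Q : MvPolynomial (Option τ) F₂) (a : ℕ) (ha : 0 < a)
    (Z : MvPolynomial (Option τ) (PowerSeries F₂)) (b : τ → F₂)
    (q : Option τ → PowerSeries F₂) (hq : ∀ i, eval q (sysE Φ Q a Z b i) = 0)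
    (hdet : PowerSeries.constantCoeff (Matrix.of fun i j =>
        eval q (pderiv j (sysE Φ Q a Z b i))).det ≠ 0) :
    ∃ P : Option τ → F₃, (∀ i, P (some i) = algebraMap (PowerSeries F₂) F₃ (q (some i))) ∧
      (∀ i, eval P (map (algebraMap (PowerSeries F₂) F₃) (sysP (pp Φ Q a Z) a b i)) = 0) ∧
      (Matrix.of fun i j => eval P (pderiv j
        (map (algebraMap (PowerSeries F₂) F₃) (sysP (pp Φ Q a Z) a b i)))).det ≠ 0 := by
  classical
  have hX : algebraMap (PowerSeries F₂) F₃ PowerSeries.X ≠ 0 := by
    rw [Ne, map_eq_zero_iff _ hinj]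
    exact PowerSeries.X_ne_zero
  let q' : Option τ → F₃ := fun o => algebraMap (PowerSeries F₂) F₃ (q o)
  let P : Option τ → F₃ := CB_g Φ q'
  have hPzero : ∀ i, aeval P (sysP (pp Φ Q a Z) a b i) = 0 := by
    intro i
    obtain ⟨k, hk⟩ := CB_su_sysP Φ Q a ha Z b i
    rw [← CB_su, hk, CB_aeval_alg, map_mul, hq, mul_zero, map_zero]
  refine ⟨P, fun i => rfl, fun i => ?_, ?_⟩
  · rw [← CB_aeval]
    exact hPzero i
  · intro hdet0
    obtain ⟨U, hU0, hU⟩ := Matrix.exists_mulVec_eq_zero_iff.2 hdet0
    apply hU0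
    have hJ : ∀ i, ∑ j, U j * aeval P (pderiv j (sysP (pp Φ Q a Z) a b i)) = 0 := by
      intro i
      have := congrFun hU i
      simp only [Matrix.mulVec, dotProduct, Matrix.of_apply, Pi.zero_apply] at this
      rw [← this]
      refine Finset.sum_congr rfl fun j _ => ?_
      rw [mul_comm, CB_aeval, pderiv_map]
    let sm : F₃ := ∑ j, U (some j) * aeval (fun i => q' (some i)) (pderiv j (mc τ F₂ Φ))
    let ν : F₃ := (U none - sm) / algebraMap (PowerSeries F₂) F₃ PowerSeries.X
    have hν : algebraMap (PowerSeries F₂) F₃ PowerSeries.X * ν = U none - sm :=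
      mul_div_cancel₀ _ hX
    let V : Option τ → F₃ := pt (fun i => U (some i)) ν
    let x : Option τ → DualNumber F₃ := fun o =>
      TrivSqZeroExt.inl (q' o) + TrivSqZeroExt.inr (V o)
    have hgx : CB_g Φ x = fun o => TrivSqZeroExt.inl (P o) + TrivSqZeroExt.inr (U o) := by
      funext o
      rcases o with _ | i
      · have h1 : aeval (fun i => x (some i)) (mc τ F₂ Φ) =
            TrivSqZeroExt.inl (aeval (fun i => q' (some i)) (mc τ F₂ Φ)) +
            TrivSqZeroExt.inr sm := aeval_dual (fun i => q' (some i)) (fun i => U (some i)) _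
        have h2 : algebraMap (PowerSeries F₂) (DualNumber F₃) PowerSeries.X =
            TrivSqZeroExt.inl (algebraMap (PowerSeries F₂) F₃ PowerSeries.X) := rfl
        have h3 : CB_g Φ x none = aeval (fun i => x (some i)) (mc τ F₂ Φ) +
          algebraMap (PowerSeries F₂) (DualNumber F₃) PowerSeries.X * x none := rfl
        have h4 : P none = aeval (fun i => q' (some i)) (mc τ F₂ Φ) +
          algebraMap (PowerSeries F₂) F₃ PowerSeries.X * q' none := rfl
        have h5 : V none = ν := rfl
        rw [h3, h1, h2, h4]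
        simp only [x, h5]
        ext
        · simp
        · simp only [TrivSqZeroExt.snd_add, TrivSqZeroExt.snd_mul, TrivSqZeroExt.fst_inl,
            TrivSqZeroExt.snd_inl, TrivSqZeroExt.fst_add, TrivSqZeroExt.snd_inr,
            TrivSqZeroExt.fst_inr, smul_eq_mul, MulOpposite.smul_eq_mul_unop,
            MulOpposite.unop_op, zero_mul, add_zero, zero_add, hν]
          ring
      · rfl
    have hV : ∀ i, ∑ j, V j * aeval q' (pderiv j (sysE Φ Q a Z b i)) = 0 := by
      intro i
      obtain ⟨k, hk⟩ := CB_su_sysP Φ Q a ha Z b i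
      have h1 : aeval (CB_g Φ x) (sysP (pp Φ Q a Z) a b i) = 0 := by
        rw [hgx, aeval_dual, hJ i, hPzero i]
        simp
      rw [← CB_su, hk, map_mul, algHom_C, aeval_dual] at h1
      have h2 : algebraMap (PowerSeries F₂) (DualNumber F₃) (PowerSeries.X ^ k) =
          TrivSqZeroExt.inl (algebraMap (PowerSeries F₂) F₃ (PowerSeries.X ^ k)) := rfl
      rw [h2] at h1
      have h3 := congrArg TrivSqZeroExt.snd h1
      simp only [TrivSqZeroExt.snd_mul, TrivSqZeroExt.fst_inl, TrivSqZeroExt.snd_inl,
        TrivSqZeroExt.snd_add, TrivSqZeroExt.snd_inr, TrivSqZeroExt.fst_add,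
        TrivSqZeroExt.fst_inr, smul_eq_mul, MulOpposite.smul_eq_mul_unop,
        MulOpposite.unop_op, zero_mul, zero_add, add_zero, TrivSqZeroExt.snd_zero,
        map_pow] at h3
      rcases mul_eq_zero.1 h3 with h4 | h4
      · exact absurd h4 (pow_ne_zero _ hX)
      · exact h4
    have hVz : V = 0 := by
      by_contra hne
      have h1 : (Matrix.of fun i j => aeval q' (pderiv j (sysE Φ Q a Z b i))).det = 0 := by
        refine Matrix.exists_mulVec_eq_zero_iff.1 ⟨V, hne, ?_⟩
        funext i
        simp only [Matrix.mulVec, dotProduct, Matrix.of_apply, Pi.zero_apply]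
        rw [← hV i]
        exact Finset.sum_congr rfl fun j _ => mul_comm _ _
      have h2 : (Matrix.of fun i j => aeval q' (pderiv j (sysE Φ Q a Z b i))) =
          (algebraMap (PowerSeries F₂) F₃).mapMatrix
            (Matrix.of fun i j => eval q (pderiv j (sysE Φ Q a Z b i))) := by
        ext i j
        simp only [Matrix.of_apply, RingHom.mapMatrix_apply, Matrix.map_apply]
        exact CB_aeval_alg q _
      rw [h2, ← RingHom.map_det, map_eq_zero_iff _ hinj] at h1
      apply hdet
      rw [h1, map_zero]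
    have hUs : ∀ j, U (some j) = 0 := fun j => congrFun hVz (some j)
    have hνz : ν = 0 := congrFun hVz none
    funext o
    rcases o with _ | j
    · rw [hνz, mul_zero] at hν
      have hsm : sm = 0 := Finset.sum_eq_zero fun j _ => by rw [hUs j, zero_mul]
      rw [hsm, sub_zero] at hν
      exact hν.symm
    · exact hUs j

end Pool.Agent.MUL
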