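import Pool.Agent.MUL.CB

/-!
# CC (difficulty 2): the count

`sys_hensel` and `sys_point` for every `p ∈ T`; the points are different (constant coefficients of `q (some i)` are `p i`,
`hinj`). `baur_strassen hV hmem` gives `V'`, `Reach (3 * r) V'`, and `map ι (sysP ... i) ∈ V'` for all `i` (the constant
`C _ ∈ V'` by `Reach.C_mem`; `C c * f = c • f`; `map ι (pderiv i f) = pderiv i (map ι f)`: `pderiv_map`). `reach_bezout`
with `τ := Option τ`.
-/

set_option autoImplicit false

namespace Pool.Agent.MUL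

open MvPolynomial Finset
open Pool.Agent.H53.AC Pool.Agent.H10.PerSL

universe u v w

theorem core_bound {F₂ : Type u} [Field F₂] [IsAlgClosed F₂] [CharZero F₂] {F₃ : Type u}
    [Field F₃] [Algebra (PowerSeries F₂) F₃]
    (hinj : Function.Injective (algebraMap (PowerSeries F₂) F₃))
    {τ : Type v} [Fintype τ] [DecidableEq τ] {r : ℕ}
    {V : Submodule F₃ (MvPolynomial (Option τ) F₃)} (hV : Reach r V)
    (Φ : MvPolynomial τ F₂) (Q : MvPolynomial (Option τ) F₂) (a : ℕ) (ha : 0 < a)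
    (Z : MvPolynomial (Option τ) (PowerSeries F₂))
    (hmem : map (algebraMap (PowerSeries F₂) F₃) (pp Φ Q a Z) ∈ V)
    (b : τ → F₂) (T : Finset (τ → F₂)) (hT : Good Φ b T)
    (hQ : ∀ p ∈ T, eval p (sb Φ Q) ≠ 0) : T.card ≤ 2 ^ (3 * r) := by
  classical
  have key : ∀ p : τ → F₂, p ∈ T → ∃ P : Option τ → F₃,
      (∃ q : τ → PowerSeries F₂, (∀ i, P (some i) = algebraMap (PowerSeries F₂) F₃ (q i)) ∧
        ∀ i, PowerSeries.constantCoeff (q i) = p i) ∧
      (∀ i, eval P (map (algebraMap (PowerSeries F₂) F₃) (sysP (pp Φ Q a Z) a b i)) = 0) ∧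
      (Matrix.of fun i j => eval P (pderiv j
        (map (algebraMap (PowerSeries F₂) F₃) (sysP (pp Φ Q a Z) a b i)))).det ≠ 0 := by
    intro p hp
    obtain ⟨q, hq1, hq2, hq3⟩ := sys_hensel Φ Q a ha Z b p
      (fun p' hp' => by
        have : p' = p := by simpa using hp'
        subst this
        exact hT p' hp) (hQ p hp)
    obtain ⟨P, hP1, hP2, hP3⟩ := sys_point hinj Φ Q a ha Z b q hq1 hq3
    exact ⟨P, ⟨fun i => q (some i), hP1, hq2⟩, hP2, hP3⟩
  choose! P hPq hP0 hPd using key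
  obtain ⟨V', hV', hle, hder⟩ := baur_strassen hV hmem
  have hmem' := hle hmem
  have hsys : ∀ i, map (algebraMap (PowerSeries F₂) F₃) (sysP (pp Φ Q a Z) a b i) ∈ V' := by
    rintro (_ | i)
    · change map (algebraMap (PowerSeries F₂) F₃) (pp Φ Q a Z - C (PowerSeries.X ^ a)) ∈ V'
      rw [map_sub, map_C]
      exact V'.sub_mem hmem' (hV'.C_mem _)
    · change map (algebraMap (PowerSeries F₂) F₃) (pderiv (some i) (pp Φ Q a Z) +
        C (PowerSeries.C (b i)) * pderiv none (pp Φ Q a Z)) ∈ V'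
      rw [map_add, map_mul, map_C, ← pderiv_map, ← pderiv_map, C_mul']
      exact V'.add_mem (hder _) (V'.smul_mem _ (hder _))
  have hinjP : Set.InjOn P T := by
    intro p hp p' hp' h
    obtain ⟨q, hq1, hq2⟩ := hPq p hp
    obtain ⟨q', hq1', hq2'⟩ := hPq p' hp'
    funext i
    rw [← hq2, ← hq2']
    congr 1
    apply hinj
    rw [← hq1, ← hq1', h]
  have := reach_bezout hV' (fun i => map (algebraMap (PowerSeries F₂) F₃)
    (sysP (pp Φ Q a Z) a b i)) hsys (T.image P) (by
      intro x hx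
      obtain ⟨p, hp, rfl⟩ := mem_image.1 hx
      exact ⟨hP0 p hp, hPd p hp⟩)
  rwa [card_image_of_injOn hinjP] at this

end Pool.Agent.MUL
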