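import Pool.Agent.PerSL2.Final

/-!
# MP_9ce8c8_lc: the complexity of the nonzero multiples of the permanent

Definitions.
-/

set_option autoImplicit false

namespace Pool.Agent.MUL

open MvPolynomial Finset
open Pool.Agent.H53.AC Pool.Agent.H10.PerSL

universe u v w

/-! ### nonscalar complexity -/

/-- `P` is computed with at most `r` multiplications (linear combinations are free). -/
def ReachLE {K : Type u} [Field K] {τ : Type v} (P : MvPolynomial τ K) (r : ℕ) : Prop :=
  ∃ r' ≤ r, ∃ V : Submodule K (MvPolynomial τ K), Reach r' V ∧ P ∈ V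

/-- approximative version of `ReachLE` -/
def BorderReach {k : Type u} [Field k] {σ : Type v} (P : MvPolynomial σ k) (r : ℕ) : Prop :=
  ∃ F : MvPolynomial σ (RatFunc k),
    (∀ m, SpecializesTo (coeff m F) (coeff m P)) ∧ ReachLE F r

/-! ### graphs -/

/-- The point with coordinates `p i` and `y` (the coordinate `none`). -/
def pt {R : Type u} {τ : Type v} (p : τ → R) (y : R) : Option τ → R := fun o => o.elim y p

/-- The polynomial `y - Φ(x)`, where `y` is the variable `none`. -/
noncomputable def gr {R : Type u} [CommRing R] {τ : Type v} (Φ : MvPolynomial τ R) :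
    MvPolynomial (Option τ) R := X none - rename some Φ

/-- Substitution of `Φ(x)` for `y`. -/
noncomputable def sb {R : Type u} [CommRing R] {τ : Type v} (Φ : MvPolynomial τ R) :
    MvPolynomial (Option τ) R →ₐ[R] MvPolynomial τ R := aeval (pt X Φ)

/-- All points of `S` are nondegenerate critical points of `Φ - ∑ b i x i`. -/
def Good {F : Type u} [Field F] {τ : Type v} [Fintype τ] [DecidableEq τ] (Φ : MvPolynomial τ F)
    (b : τ → F) (S : Finset (τ → F)) : Prop :=
  ∀ p ∈ S, (∀ i, eval p (pderiv i Φ) = b i) ∧
    (Matrix.of fun i j => eval p (pderiv j (pderiv i Φ))).det ≠ 0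

/-- Constants of `F₁` in a field `F₂` that contains `F₁[[X]]`. -/
noncomputable def cst (F₁ : Type u) (F₂ : Type u) [Field F₁] [Field F₂]
    [Algebra (PowerSeries F₁) F₂] : F₁ →+* F₂ :=
  (algebraMap (PowerSeries F₁) F₂).comp (PowerSeries.C (R := F₁))

end Pool.Agent.MUL
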