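import Pool.Agent.MUL.Defs

/-!
# GY: the gadget with a linear term `y`, for the hypersurface `per_n = 0`
-/

set_option autoImplicit false

namespace Pool.Agent.MUL

open MvPolynomial Finset
open scoped Nat
open Pool.Agent.H53.AC Pool.Agent.H10.PerSL Pool.Agent.PerSL2

universe u v w

section defs

variable {K : Type u} [Field K] {R : Type u} [CommRing R] [Algebra K R] {h τ m k : ℕ}

/-- the transposed matrix with the column sheets, the columns `U'` without constants -/
def gyT (ξ η : K) (θ t : R) (a : Fin τ → Fin m → R) (b : Fin τ → Fin (m + τ) → R)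
    (y : Fin h → Fin m → Fin τ → R) :
    (Fin (m + τ) ⊕ (Fin m ⊕ (Fin τ × Fin k))) ⊕ (Fin h × Fin (m + τ)) →
      (Fin m ⊕ (Fin (m + τ) ⊕ (Fin τ × Fin k))) ⊕ (Fin h × Fin (m + τ)) → R :=
  shM ξ (fN θ t y) (fun _ => 0) (fW η a b)

/-- the rows `U` -/
def gyx (x : Fin m → R) : (Fin (m + τ) ⊕ (Fin m ⊕ (Fin τ × Fin k))) ⊕ (Fin h × Fin (m + τ)) → R
  | Sum.inl (Sum.inl _) => 0
  | Sum.inl (Sum.inr (Sum.inl i)) => x i
  | Sum.inl (Sum.inr (Sum.inr _)) => 0
  | Sum.inr _ => 0

theorem gyT_emb (ξ η : K) (θ t : R) (a : Fin τ → Fin m → R) (b : Fin τ → Fin (m + τ) → R)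
    (y : Fin h → Fin m → Fin τ → R) (c) (r) :
    gyT (k := k) ξ η θ t a b y c (emb r) = gyT (k := k) ξ η θ t a b 0 c (emb r) := by
  rcases c with (c | c | c) | ⟨l, c⟩ <;> rcases r with (r | r) | r <;>
    simp [gyT, shM, glM, emb, fN]

theorem gy_released_row (ξ η : K) (θ t : R) (a : Fin τ → Fin m → R)
    (b : Fin τ → Fin (m + τ) → R) (y : Fin h → Fin m → Fin τ → R) :
    pm (fun (r : Fin m ⊕ ((Fin (m + τ) ⊕ (Fin τ × Fin k)) ⊕ (Fin h × Fin (m + τ)))) c =>
      Sum.elim (fun i => gyT (k := k) ξ η θ t a b y c (Sum.inl (Sum.inl i)))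
        (fun r' => gyT (k := k) ξ η θ t a b 0 c (emb r')) r) =
    pm (gyT (k := k) ξ η θ t a b y) := by
  have h1 : (fun (r : Fin m ⊕ ((Fin (m + τ) ⊕ (Fin τ × Fin k)) ⊕ (Fin h × Fin (m + τ)))) c =>
      Sum.elim (fun i => gyT (k := k) ξ η θ t a b y c (Sum.inl (Sum.inl i)))
        (fun r' => gyT (k := k) ξ η θ t a b 0 c (emb r')) r) =
      fun r c => (fun r' c' => gyT (k := k) ξ η θ t a b y c' r')
        ((Equiv.sumAssoc (Fin m) (Fin (m + τ) ⊕ (Fin τ × Fin k)) (Fin h × Fin (m + τ))).symm r)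
        ((Equiv.refl _) c) := by
    funext r c
    rcases r with i | (r | r)
    · rfl
    · exact (gyT_emb ξ η θ t a b y c (Sum.inl r)).symm
    · exact (gyT_emb ξ η θ t a b y c (Sum.inr r)).symm
  rw [h1]
  exact (pm_reindex ((Equiv.sumAssoc (Fin m) (Fin (m + τ) ⊕ (Fin τ × Fin k))
    (Fin h × Fin (m + τ))).symm) (Equiv.refl _)
    (fun r' c' => gyT (k := k) ξ η θ t a b y c' r')).trans (pm_transpose _)

/-- the column sheets -/
theorem gy_col (hm : 0 < m) {ξ : K} (hξ : IsPrimitiveRoot ξ (m + τ)) (η : K) (θ t : R)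
    (a : Fin τ → Fin m → R)
    (b : Fin τ → Fin (m + τ) → R) (y : Fin h → Fin m → Fin τ → R) :
    pm (gyT (k := k) ξ η θ t a b y) =
      algebraMap K R ((-1) ^ (h - 1) * ((m + τ)! : K) ^ h) *
        ∑ l, pm (glM (Q := Fin τ) (I := Fin k) (k := k) η
          (coreW (fun i c => θ * wy t (y l) i c))
            (fun q => coreB (b q)) (fun q _ => coreA (a q))) := by
  have h1 := sheet (m := m + τ) (S := Fin h) (I := Fin (m + τ)) (by simp) (by omega) hξ
    (fN (k := k) θ t y) (fun _ => (0 : R)) (fW (k := k) η a b)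
  rw [Fintype.card_fin] at h1
  unfold gyT
  rw [h1]
  have h2 : pm (fun (r : Fin (m + τ) ⊕ (Fin m ⊕ (Fin τ × Fin k)))
      (c : Fin m ⊕ (Fin (m + τ) ⊕ (Fin τ × Fin k))) =>
      Sum.elim (fun _ => (0 : R)) (fun r' => fW η a b r' c) r) = 0 := by
    unfold pm
    refine Finset.sum_eq_zero fun σ _ => ?_
    refine Finset.prod_eq_zero (Finset.mem_univ (σ.symm (Sum.inl ⟨0, by omega⟩))) ?_
    simp
  rw [h2, mul_zero, zero_add]
  congr 1
  exact Finset.sum_congr rfl fun l _ => released_col η θ t a b y l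

/-- the core for `y = 0` -/
theorem gy_core_zero (hk : 0 < k) {η : K} (hη : IsPrimitiveRoot η k)
    (a : Fin τ → Fin m → R) (b : Fin τ → Fin (m + τ) → R) :
    pm (glM (Q := Fin τ) (I := Fin k) (k := k) η (coreW (fun (_ : Fin m) (_ : Fin (m + τ)) => (0 : R)))
            (fun q => coreB (b q)) (fun q _ => coreA (a q))) =
      algebraMap K R ((-1) ^ τ * (k ! : K) ^ τ) := by
  rw [gl (Fintype.card_fin k) hk hη, Finset.sum_eq_single (∅ : Finset (Fin τ))]
  · rw [core_empty ∅ rfl, mul_one]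
    simp
  · intro T _ hT
    have hT' : 0 < T.card := Finset.card_pos.2 (Finset.nonempty_iff_ne_empty.2 hT)
    rw [show pm (glQ (I := Fin k) (k := k) T (coreW (fun (_ : Fin m) (_ : Fin (m + τ)) => (0 : R)))
      (fun q => coreB (b q)) (fun q _ => coreA (a q))) = 0 from ?_, mul_zero]
    -- rows `I` and the class rows only meet the columns `κ`
    let eR : (Fin (m + τ) ⊕ (Fin m ⊕ ({q // q ∈ T} × Fin k))) ≃
        (Fin m ⊕ Fin (m + τ)) ⊕ ({q // q ∈ T} × Fin k) :=
      { toFun := Sum.elim (fun j => Sum.inl (Sum.inr j))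
          (Sum.elim (fun i => Sum.inl (Sum.inl i)) (fun x => Sum.inr x))
        invFun := Sum.elim (Sum.elim (fun i => Sum.inr (Sum.inl i)) (fun j => Sum.inl j))
          (fun x => Sum.inr (Sum.inr x))
        left_inv := by rintro (j | i | x) <;> rfl
        right_inv := by rintro ((i | j) | x) <;> rfl }
    let eC : ((Fin (m + τ) ⊕ ({q // q ∈ T} × Fin k)) ⊕ Fin m) ≃
        (Fin (m + τ) ⊕ Fin m) ⊕ ({q // q ∈ T} × Fin k) :=
      { toFun := Sum.elim (Sum.elim (fun j => Sum.inl (Sum.inl j)) (fun x => Sum.inr x))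
          (fun i => Sum.inl (Sum.inr i))
        invFun := Sum.elim (Sum.elim (fun j => Sum.inl (Sum.inl j)) (fun i => Sum.inr i))
          (fun x => Sum.inl (Sum.inr x))
        left_inv := by rintro ((j | x) | i) <;> rfl
        right_inv := by rintro ((j | i) | x) <;> rfl }
    rw [← pm_reindex eR eC]
    apply pm_eq_zero
    · simp only [Fintype.card_sum, Fintype.card_fin, Fintype.card_prod, Fintype.card_coe]
      have : 0 < T.card * k := Nat.mul_pos hT' hk
      omega
    · rintro (i | x) (j | y) <;> rfl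
  · intro hT
    exact absurd (Finset.mem_univ _) hT

/-- moving the `κ` columns to the end -/
def gyE (h τ m k : ℕ) : (((Fin (m + τ) ⊕ (Fin τ × Fin k)) ⊕ (Fin h × Fin (m + τ))) ⊕ Fin m) ≃
    ((Fin (m + τ) ⊕ (Fin m ⊕ (Fin τ × Fin k))) ⊕ (Fin h × Fin (m + τ))) where
  toFun := Sum.elim (Sum.elim (Sum.elim (fun j => Sum.inl (Sum.inl j))
    (fun x => Sum.inl (Sum.inr (Sum.inr x)))) (fun z => Sum.inr z))
    (fun i => Sum.inl (Sum.inr (Sum.inl i)))
  invFun := Sum.elim (Sum.elim (fun j => Sum.inl (Sum.inl (Sum.inl j)))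
    (Sum.elim (fun i => Sum.inr i) (fun x => Sum.inl (Sum.inl (Sum.inr x)))))
    (fun z => Sum.inl (Sum.inr z))
  left_inv := by rintro (((j | x) | z) | i) <;> rfl
  right_inv := by rintro ((j | i | x) | z) <;> rfl

theorem gy_block (x : Fin m → Fin m → R)
    (W : ((Fin (m + τ) ⊕ (Fin τ × Fin k)) ⊕ (Fin h × Fin (m + τ))) →
      ((Fin (m + τ) ⊕ (Fin m ⊕ (Fin τ × Fin k))) ⊕ (Fin h × Fin (m + τ))) → R) :
    pm (fun (r : Fin m ⊕ ((Fin (m + τ) ⊕ (Fin τ × Fin k)) ⊕ (Fin h × Fin (m + τ)))) c =>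
      Sum.elim (fun i => gyx (x i) c) (fun r' => W r' c) r) =
    pm (fun r c => W r (gyE h τ m k (Sum.inl c))) * pm x := by
  rw [← pm_reindex (Equiv.sumComm _ _) (gyE h τ m k)]
  rw [pm_block]
  · congr 1
  · simp
  · rintro i ((c | c) | c) <;> rfl

theorem gy_rows_zero (ξ η : K) (θ t : R) (a : Fin τ → Fin m → R)
    (b : Fin τ → Fin (m + τ) → R) :
    pm (fun (r : (Fin (m + τ) ⊕ (Fin τ × Fin k)) ⊕ (Fin h × Fin (m + τ))) c =>
      gyT (k := k) (h := h) ξ η θ t a b 0 (gyE h τ m k (Sum.inl c)) (emb r)) =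
    pm (gyT (k := k) (h := h) ξ η θ t a b 0) := by
  rw [← gy_released_row ξ η θ t a b 0]
  have h1 := gy_block (h := h) (τ := τ) (m := m) (k := k)
    (fun i j : Fin m => if i = j then (1 : R) else 0)
    (fun r c => gyT (k := k) (h := h) ξ η θ t a b 0 c (emb r))
  rw [pm_delta, mul_one] at h1
  rw [← h1]
  congr 1
  funext r c
  rcases r with i | r
  · rcases c with (c | c | c) | ⟨l, c⟩
    · rfl
    · simp [gyx, gyT, shM, glM, fW, eq_comm]
    · simp [gyx, gyT, shM, glM, fW]
    · simp [gyx, gyT, shM, glM, fN, wy]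
  · rfl

theorem gy_const_cols (x : Fin m → R) :
    pm (fun (_ : Fin m) (i : Fin m) => x i) = (m ! : R) * ∏ i, x i := by
  have h1 := pm_scale (ρ := Fin m) (κ := Fin m) (fun _ _ => (1 : R)) (fun _ => 1) x
  simp only [one_mul] at h1
  rw [h1, pm_ones (Fintype.card_fin m) (Fintype.card_fin m)]
  simp [mul_comm]

end defs

theorem full_gadget_y {K : Type u} [Field K] [CharZero K] {g h τ m k : ℕ} (hm : 0 < m)
    (hτ : 0 < τ) (hk : 0 < k) (hg : 0 < g) (hh : 0 < h) {ζ ξ η : K} (hζ : IsPrimitiveRoot ζ m)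
    (hξ : IsPrimitiveRoot ξ (m + τ)) (hη : IsPrimitiveRoot η k) :
    ∃ (Row Col : Type) (_ : Fintype Row) (_ : DecidableEq Row) (_ : Fintype Col)
      (_ : DecidableEq Col)
      (A : Row → Col → MvPolynomial (Option ((Fin g × Fin h × Fin τ) × Fin m)) (PowerSeries K))
      (c₁ : K) (L : ℕ)
      (Z : MvPolynomial ((Fin g × Fin h × Fin τ) × Fin m) (PowerSeries K)),
      Fintype.card Row = g * m + m + h * (m + τ) + (m + τ) + τ * k ∧
      Fintype.card Col = g * m + m + h * (m + τ) + (m + τ) + τ * k ∧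
      (∀ r c, (A r c).totalDegree ≤ 1) ∧ c₁ ≠ 0 ∧
      pm A = C (PowerSeries.X ^ L) * (C (PowerSeries.C c₁) *
        (X none + rename some (dsum (Fin g × Fin h × Fin τ) (Fin m) (PowerSeries K) k)) +
        C PowerSeries.X * rename some Z) := by
  classical
  set R := MvPolynomial ((Fin g × Fin h × Fin τ) × Fin m) (PowerSeries K) with hR
  set R' := MvPolynomial (Option ((Fin g × Fin h × Fin τ) × Fin m)) (PowerSeries K) with hR'
  let ρ : R →ₐ[PowerSeries K] R' := rename some
  set t : R := C PowerSeries.X with ht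
  have ht0 : t ≠ 0 := by
    rw [ht, Ne, ← C_0, (C_injective _ _).eq_iff]
    exact PowerSeries.X_ne_zero
  set B : ℕ := 2 * τ * (m + τ) with hB
  set N₀ : ℕ := k * B + 1 with hN₀
  set θ : R := t ^ N₀ with hθ
  have hθ0 : θ ≠ 0 := pow_ne_zero _ ht0
  set a : Fin τ → Fin m → R := fun q i => t ^ ((q : ℕ) ^ 2 + 2 * q * i) with ha
  set b : Fin τ → Fin (m + τ) → R := fun q c => t ^ (B - 2 * q * c) with hb
  set y : Fin g → Fin h → Fin m → Fin τ → R := fun s l i q => X ((s, l, q), i) with hy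
  have halg : ∀ x : K, algebraMap K R x = C (PowerSeries.C x) := const_alg
  have halg' : ∀ x : K, algebraMap K R' x = C (PowerSeries.C x) := const_alg
  have htp : ∀ n, t ^ n = C (PowerSeries.X ^ n) := const_X_pow
  have hρC : ∀ s : PowerSeries K, ρ (C s) = C s := fun s => rename_C _ _
  have hρX : ∀ v, ρ (X v) = X (some v) := fun v => rename_X _ _
  -- the released core
  have hcore : ∀ s l, ∃ Z : R, pm (glM (Q := Fin τ) (I := Fin k) (k := k) η
      (coreW (fun i c => θ * wy t (y s l) i c))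
        (fun q => coreB (b q)) (fun q _ => coreA (a q))) =
      algebraMap K R ((-1) ^ τ * (k ! : K) ^ τ) +
      t ^ (N₀ * k + k * B) * (algebraMap K R ((-1) ^ (τ - 1) * (k ! : K) ^ (τ - 1) *
        (k ! : K) ^ 2) * ∑ q, es univ k (fun i => y s l i q)) +
      t ^ (N₀ * k + k * B + 1) * Z := by
    intro s l
    obtain ⟨Z, hZ⟩ := core_exp hk hη θ hθ0 (wy t (y s l)) a b
    have hiso : ∀ q, ∃ Z : R, pm (one k (wy t (y s l)) (a q) (b q)) =
        t ^ (k * B) * ((k ! : R) ^ 2 * es univ k (fun i => y s l i q)) +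
          t ^ (k * B + 1) * Z := fun q => iso k t ht0 B le_rfl (y s l) q
    choose Z' hZ' using hiso
    refine ⟨algebraMap K R ((-1) ^ (τ - 1) * (k ! : K) ^ (τ - 1)) * ∑ q, Z' q + Z, ?_⟩
    rw [hZ, Finset.sum_congr rfl (fun q _ => hZ' q), Finset.sum_add_distrib,
      ← Finset.mul_sum, ← Finset.mul_sum, ← Finset.mul_sum]
    have e1 : θ ^ k = t ^ (N₀ * k) := by rw [hθ, ← pow_mul]
    have e2 : θ ^ (k + 1) = t ^ (N₀ * k + k * B + 1) := by
      have : N₀ * (k + 1) = N₀ * k + k * B + 1 := by rw [hN₀]; ring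
      rw [hθ, ← pow_mul, this]
    have e3 : (k ! : R) = algebraMap K R (k ! : K) := by simp
    rw [e1, e2, e3]
    simp only [map_mul, map_pow, map_neg, map_one]
    ring
  choose Zc hZc using hcore
  have hcol : ∀ s, pm (gyT (k := k) ξ η θ t a b (y s)) = _ :=
    fun s => gy_col hm hξ η θ t a b (y s)
  simp only [hZc] at hcol
  -- the value at `y = 0`
  set α₀ : K := (-1) ^ g * (m ! : K) ^ g with hα₀
  set α₂ : K := (-1) ^ (g - 1) * (m ! : K) ^ g with hα₂
  set α₁ : K := (-1) ^ (h - 1) * ((m + τ)! : K) ^ h with hα₁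
  set β : K := (-1) ^ τ * (k ! : K) ^ τ with hβ
  set γ : K := (-1) ^ (τ - 1) * (k ! : K) ^ (τ - 1) * (k ! : K) ^ 2 with hγ
  have hf : ∀ n : ℕ, ((n ! : ℕ) : K) ≠ 0 := fun n => Nat.cast_ne_zero.2 (Nat.factorial_ne_zero n)
  have hs : ∀ n : ℕ, ((-1 : K)) ^ n ≠ 0 := fun n => pow_ne_zero _ (neg_ne_zero.2 one_ne_zero)
  have hα₀' : α₀ ≠ 0 := mul_ne_zero (hs _) (pow_ne_zero _ (hf _))
  have hα₂' : α₂ ≠ 0 := mul_ne_zero (hs _) (pow_ne_zero _ (hf _))
  have hα₁' : α₁ ≠ 0 := mul_ne_zero (hs _) (pow_ne_zero _ (hf _))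
  have hβ' : β ≠ 0 := mul_ne_zero (hs _) (pow_ne_zero _ (hf _))
  have hγ' : γ ≠ 0 := mul_ne_zero (mul_ne_zero (hs _) (pow_ne_zero _ (hf _))) (pow_ne_zero _ (hf _))
  have hzero : pm (gyT (k := k) (h := h) ξ η θ t a b 0) = algebraMap K R (α₁ * (h * β)) := by
    rw [gy_col hm hξ η θ t a b 0]
    have e1 : ∀ l : Fin h, pm (glM (Q := Fin τ) (I := Fin k) (k := k) η
          (coreW (fun i c => θ * wy t ((0 : Fin h → Fin m → Fin τ → R) l) i c))
            (fun q => coreB (b q)) (fun q _ => coreA (a q))) = algebraMap K R β := by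
      intro l
      rw [← gy_core_zero hk hη a b]
      congr 3
      funext i c
      simp [wy]
    rw [Finset.sum_congr rfl (fun l _ => e1 l), Finset.sum_const, Finset.card_univ,
      Fintype.card_fin, nsmul_eq_mul, ← map_natCast (algebraMap K R), ← map_mul, ← map_mul]
  -- the constants
  set D₀ : K := α₀ * (m ! : K) * (α₁ * (h * β)) with hD₀
  have hh' : (h : K) ≠ 0 := Nat.cast_ne_zero.2 hh.ne'
  have hD₀' : D₀ ≠ 0 := mul_ne_zero (mul_ne_zero hα₀' (hf _))
    (mul_ne_zero hα₁' (mul_ne_zero hh' hβ'))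
  set c₁ : K := α₂ * (α₁ * γ) with hc₁
  have hc₁' : c₁ ≠ 0 := mul_ne_zero hα₂' (mul_ne_zero hα₁' hγ')
  set L : ℕ := N₀ * k + k * B with hL
  let μ : PowerSeries K := PowerSeries.C (-(α₂ * (g * (α₁ * (h * β)))) / D₀)
  let lam : PowerSeries K := PowerSeries.X ^ L * PowerSeries.C (c₁ / D₀)
  let x : Fin m → R' := fun i => if i = ⟨0, hm⟩ then C μ + C lam * X none else 1
  have hx : ∏ i, x i = C μ + C lam * X none := by
    simp only [x]
    rw [Finset.prod_ite_eq' univ (⟨0, hm⟩ : Fin m) (fun _ => C μ + C lam * X none)]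
    simp
  let A := shM (K := K) (R := R') (S := Fin g) (I := Fin m) (m := m) ζ
    (fun s i c => ρ (gyT (k := k) (h := h) ξ η θ t a b (y s) c (Sum.inl (Sum.inl i))))
    (gyx (k := k) (h := h) (τ := τ) x)
    (fun r c => ρ (gyT (k := k) (h := h) ξ η θ t a b 0 c (emb r)))
  have hA : pm A = algebraMap K R' α₀ * ((m ! : R') * (C μ + C lam * X none) *
        algebraMap K R' (α₁ * (h * β))) +
      algebraMap K R' α₂ * ∑ s, ρ (pm (gyT (k := k) ξ η θ t a b (y s))) := by
    have h1 := sheet (K := K) (R := R') (m := m) (S := Fin g) (I := Fin m) (by simp) hm hζ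
      (fun s i c => ρ (gyT (k := k) (h := h) ξ η θ t a b (y s) c (Sum.inl (Sum.inl i))))
      (gyx (k := k) (h := h) (τ := τ) x)
      (fun r c => ρ (gyT (k := k) (h := h) ξ η θ t a b 0 c (emb r)))
    rw [Fintype.card_fin] at h1
    have h2 := gy_block (h := h) (τ := τ) (m := m) (k := k) (fun _ i : Fin m => x i)
      (fun r c => ρ (gyT (k := k) (h := h) ξ η θ t a b 0 c (emb r)))
    have h3 : pm (fun (r : (Fin (m + τ) ⊕ (Fin τ × Fin k)) ⊕ (Fin h × Fin (m + τ))) c =>
        ρ (gyT (k := k) (h := h) ξ η θ t a b 0 (gyE h τ m k (Sum.inl c)) (emb r))) =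
        algebraMap K R' (α₁ * (h * β)) := by
      refine ((pm_map (ρ : R →+* R') (fun (r : (Fin (m + τ) ⊕ (Fin τ × Fin k)) ⊕
        (Fin h × Fin (m + τ))) c =>
        gyT (k := k) (h := h) ξ η θ t a b 0 (gyE h τ m k (Sum.inl c)) (emb r))).symm).trans ?_
      rw [gy_rows_zero, hzero, halg, halg']
      exact rename_C _ _
    have h4 : ∀ s, pm (fun (r : Fin m ⊕ ((Fin (m + τ) ⊕ (Fin τ × Fin k)) ⊕
        (Fin h × Fin (m + τ)))) c => Sum.elim
          (fun i => ρ (gyT (k := k) ξ η θ t a b (y s) c (Sum.inl (Sum.inl i))))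
          (fun r' => ρ (gyT (k := k) ξ η θ t a b 0 c (emb r'))) r) =
        ρ (pm (gyT (k := k) ξ η θ t a b (y s))) := by
      intro s
      rw [← gy_released_row ξ η θ t a b (y s)]
      refine Eq.trans ?_ (pm_map (ρ : R →+* R') _).symm
      congr 1
      funext r c
      rcases r with r | r <;> rfl
    have h5 : pm A = _ := h1
    rw [h5, h2, h3, gy_const_cols, hx, Finset.sum_congr rfl (fun s _ => h4 s)]
    ring
  refine ⟨_, _, inferInstance, inferInstance, inferInstance, inferInstance, A, c₁, L,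
    C (PowerSeries.C α₂) * (C (PowerSeries.C α₁) * ∑ s, ∑ l, Zc s l), ?_, ?_, ?_, hc₁', ?_⟩
  · simp only [Fintype.card_sum, Fintype.card_prod, Fintype.card_fin]
    ring
  · simp only [Fintype.card_sum, Fintype.card_prod, Fintype.card_fin]
    ring
  · -- degrees
    have hC : ∀ s : PowerSeries K, (C s : R').totalDegree ≤ 1 := fun s => by simp
    have h1' : (1 : R').totalDegree ≤ 1 := by simp
    have h0' : (0 : R').totalDegree ≤ 1 := by simp
    have hρ : ∀ p : R, Entry p → (ρ p).totalDegree ≤ 1 := by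
      rintro p (⟨s, rfl⟩ | ⟨s, v, rfl⟩)
      · rw [hρC]; exact hC s
      · rw [map_mul, hρC, hρX]
        exact (totalDegree_mul _ _).trans (by simp)
    have hcW : ∀ r c, Entry (fW (k := k) η a b r c : R) := by
      intro r c
      rcases r with i' | ⟨q, v⟩ <;> rcases c with i | c | ⟨q', v'⟩
      · simp only [fW]
        split_ifs
        · exact Entry_one
        · exact Entry_zero
      · exact Entry_zero
      · exact Or.inl ⟨_, by simp only [fW, ha, ht]; exact (map_pow C _ _).symm⟩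
      · exact Entry_zero
      · exact Or.inl ⟨_, by simp only [fW, hb, ht]; exact (map_pow C _ _).symm⟩
      · simp only [fW]
        split_ifs
        · exact Or.inl ⟨-(PowerSeries.C (η ^ (v : ℕ))), by rw [const_alg, map_neg]⟩
        · exact Entry_zero
    have hcN : ∀ (z : Fin h → Fin m → Fin τ → R), (∀ l i q, z l i q = 0 ∨ ∃ v, z l i q = X v) →
        ∀ l c r, Entry (fN (k := k) θ t z l c r) := by
      intro z hz l c r
      rcases r with i | c' | x
      · simp only [fN, wy]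
        split_ifs with hh
        · rcases hz l i ⟨(c : ℕ) - i, hh.2⟩ with h2 | ⟨v, h2⟩
          · rw [h2, mul_zero, mul_zero]
            exact Entry_zero
          · rw [h2]
            right
            refine ⟨PowerSeries.X ^ N₀ * PowerSeries.X ^ (((c : ℕ) - i) ^ 2), v, ?_⟩
            rw [hθ, ht, map_mul, map_pow, map_pow, mul_assoc]
        · rw [mul_zero]; exact Entry_zero
      · simp only [fN]
        split_ifs
        · exact Entry_one
        · exact Entry_zero
      · exact Entry_zero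
    have hcT : ∀ (z : Fin h → Fin m → Fin τ → R), (∀ l i q, z l i q = 0 ∨ ∃ v, z l i q = X v) →
        ∀ c r, Entry (gyT (k := k) (h := h) ξ η θ t a b z c r : R) := by
      intro z hz c r
      rcases c with (c | c) | ⟨l, c⟩ <;> rcases r with r | ⟨l', v⟩
      · exact Entry_zero
      · exact Entry_one
      · exact hcW _ _
      · exact Entry_zero
      · exact hcN z hz l c r
      · simp only [gyT, shM, glM]
        split_ifs
        · exact Or.inl ⟨-(PowerSeries.C (ξ ^ (v : ℕ))), by rw [const_alg, map_neg]⟩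
        · exact Entry_zero
    have hcx : ∀ c, (gyx (k := k) (m := m) (τ := τ) (h := h) x c : R').totalDegree ≤ 1 := by
      intro c
      rcases c with (c | c | c) | c
      · exact h0'
      · change (x c).totalDegree ≤ 1
        simp only [x]
        split_ifs
        · refine (totalDegree_add _ _).trans (max_le (hC _) ?_)
          exact (totalDegree_mul _ _).trans (by simp)
        · exact h1'
      · exact h0'
      · exact h0'
    intro r c
    rcases r with (r | r) | ⟨s, i⟩ <;> rcases c with c | ⟨s', v⟩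
    · exact hcx c
    · exact h1'
    · exact hρ _ (hcT 0 (fun _ _ _ => Or.inl rfl) _ _)
    · exact h0'
    · exact hρ _ (hcT (y s) (fun l i q => Or.inr ⟨_, rfl⟩) _ _)
    · change (if s = s' then -(algebraMap K R' (ζ ^ (v : ℕ))) else 0).totalDegree ≤ 1
      split_ifs
      · rw [halg', ← map_neg]
        exact hC _
      · exact h0'
  · rw [hA]
    have hsum : dsum (Fin g × Fin h × Fin τ) (Fin m) (PowerSeries K) k =
        ∑ s, ∑ l, ∑ q, es univ k (fun i => y s l i q) := by
      unfold dsum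
      rw [Fintype.sum_prod_type]
      refine Finset.sum_congr rfl fun s _ => ?_
      rw [Fintype.sum_prod_type]
    rw [hsum]
    have e0 : ∑ s, ρ (pm (gyT (k := k) ξ η θ t a b (y s))) =
        C (PowerSeries.C α₁) * ((g : R') * (h : R') * C (PowerSeries.C β) +
          C (PowerSeries.X ^ L) * (C (PowerSeries.C γ) *
            ρ (∑ s, ∑ l, ∑ q, es univ k (fun i => y s l i q))) +
          C (PowerSeries.X ^ L) * C PowerSeries.X * ρ (∑ s, ∑ l, Zc s l)) := by
      rw [← map_sum]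
      have e : ∑ s, pm (gyT (k := k) ξ η θ t a b (y s)) =
          C (PowerSeries.C α₁) * ((g : R) * (h : R) * C (PowerSeries.C β) +
          C (PowerSeries.X ^ L) * (C (PowerSeries.C γ) *
            (∑ s, ∑ l, ∑ q, es univ k (fun i => y s l i q))) +
          C (PowerSeries.X ^ L) * C PowerSeries.X * (∑ s, ∑ l, Zc s l)) := by
        simp only [hcol, halg, Finset.sum_add_distrib, ← Finset.mul_sum,
          Finset.sum_const, Finset.card_univ, Fintype.card_fin, nsmul_eq_mul]
        rw [← htp, pow_succ, ht]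
        ring
      rw [e]
      simp only [map_add, map_mul, hρC, map_natCast]
    rw [e0, halg', halg', halg']
    have e1 : C (PowerSeries.C α₀) * (m ! : R') * C μ * C (PowerSeries.C (α₁ * (h * β))) =
        -(C (PowerSeries.C α₂) * (C (PowerSeries.C α₁) * ((g : R') * (h : R') *
          C (PowerSeries.C β)))) := by
      have e : α₀ * (m ! : K) * (-(α₂ * (g * (α₁ * (h * β)))) / D₀) * (α₁ * (h * β)) =
          -(α₂ * (α₁ * (g * h * β))) := by
        rw [show α₀ * (m ! : K) * (-(α₂ * (g * (α₁ * (h * β)))) / D₀) * (α₁ * (h * β)) =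
          D₀ * (-(α₂ * (g * (α₁ * (h * β)))) / D₀) by rw [hD₀]; ring, mul_div_cancel₀ _ hD₀']
        ring
      have e' := congrArg (fun z : K => (C (PowerSeries.C z) : R')) e
      simp only [map_mul, map_neg, map_natCast] at e'
      simp only [μ, map_mul, map_natCast]
      exact e'
    have e2 : C (PowerSeries.C α₀) * (m ! : R') * C lam * C (PowerSeries.C (α₁ * (h * β))) =
        C (PowerSeries.X ^ L) * C (PowerSeries.C c₁) := by
      have e : α₀ * (m ! : K) * (c₁ / D₀) * (α₁ * (h * β)) = c₁ := by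
        rw [show α₀ * (m ! : K) * (c₁ / D₀) * (α₁ * (h * β)) =
          D₀ * (c₁ / D₀) by rw [hD₀]; ring, mul_div_cancel₀ _ hD₀']
      have e' := congrArg (fun z : K => (C (PowerSeries.C z) : R')) e
      simp only [map_mul, map_natCast] at e'
      simp only [lam, map_mul, map_natCast]
      rw [← e']
      ring
    have e3 : (C (PowerSeries.C c₁) : R') = C (PowerSeries.C α₂) * (C (PowerSeries.C α₁) *
        C (PowerSeries.C γ)) := by
      rw [hc₁]; simp only [map_mul]
    have e4 : (rename some (∑ s, ∑ l, ∑ q, es univ k (fun i => y s l i q)) : R') =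
      ρ (∑ s, ∑ l, ∑ q, es univ k (fun i => y s l i q)) := rfl
    have e5 : (rename some (C (PowerSeries.C α₂) * (C (PowerSeries.C α₁) *
        ∑ s, ∑ l, Zc s l)) : R') = C (PowerSeries.C α₂) * (C (PowerSeries.C α₁) *
          ρ (∑ s, ∑ l, Zc s l)) := by
      exact (map_mul ρ _ _).trans (congrArg₂ (· * ·) (hρC _)
        ((map_mul ρ _ _).trans (congrArg₂ (· * ·) (hρC _) rfl)))
    rw [e4, e5]
    linear_combination e1 + X none * e2 - C (PowerSeries.X ^ L) *
      ρ (∑ s, ∑ l, ∑ q, es univ k (fun i => y s l i q)) * e3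

end Pool.Agent.MUL
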