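import Pool.Agent.MUL.GN
import Pool.Agent.MUL.GY

/-!
# GP (difficulty 3): the gadget for the hypersurface `per_n(x) = 0`

If `g * h * τ = 0` take `cnt = (2 d)!`. Otherwise as GG, with `full_gadget_y`: `f := perPoly n k`,
`E q := pad e A (eR q.1) (eC q.2)`, `u := X ^ L * C c₁`, `Φ := -(dsum + C (X * C c₁⁻¹) * Z)`; the reduction of `Φ` is `- dsum`:
`Good (-Ψ) (-b) S` follows from `crit2` (the Hessian is `-1` times the old one: `Matrix.det_neg`).
-/

set_option autoImplicit false

namespace Pool.Agent.MUL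

open MvPolynomial Finset
open scoped Nat
open Pool.Agent.H53.AC Pool.Agent.H10.PerSL Pool.Agent.PerSL2

universe u v w

private theorem gp_pad {Row Col V : Type} {R : Type u} [CommRing R] (e : ℕ)
    (A : Row → Col → MvPolynomial V R) (hA : ∀ r c, (A r c).totalDegree ≤ 1) (r : Row ⊕ Fin e)
    (c : Col ⊕ Fin e) : (pad e A r c).totalDegree ≤ 1 := by
  rcases r with r | r <;> rcases c with c | c
  · exact hA r c
  · change (0 : MvPolynomial V R).totalDegree ≤ 1
    rw [totalDegree_zero]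
    exact Nat.zero_le _
  · change (0 : MvPolynomial V R).totalDegree ≤ 1
    rw [totalDegree_zero]
    exact Nat.zero_le _
  · change (if r = c then (1 : MvPolynomial V R) else 0).totalDegree ≤ 1
    split_ifs
    · rw [totalDegree_one]
      exact Nat.zero_le _
    · rw [totalDegree_zero]
      exact Nat.zero_le _

theorem mult_per {n d g h τ : ℕ} (hd : 0 < d) (hτ : 0 < τ)
    (hn : g * (2 * d) + 2 * d + h * (2 * d + τ) + (2 * d + τ) + τ * (d + 1) ≤ n)
    (k : Type u) [Field k] [CharZero k] (P : MvPolynomial (Fin n × Fin n) k)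
    (hP : P ≠ 0) (hdvd : perPoly n k ∣ P) (r : ℕ) (hr : BorderReach P r) :
    ∃ cnt : ℕ, (2 * d)! ≤ cnt * 2 ^ d ∧ cnt ^ (g * h * τ) ≤ 2 ^ (3 * r) := by
  rcases Nat.eq_zero_or_pos (g * h) with hgh | hgh
  · refine ⟨(2 * d)!, Nat.le_mul_of_pos_right _ (pow_pos (by norm_num) _), ?_⟩
    rw [hgh, zero_mul, pow_zero]
    exact Nat.one_le_two_pow
  have hg : 0 < g := Nat.pos_of_mul_pos_right hgh
  have hh : 0 < h := Nat.pos_of_mul_pos_left hgh
  have : CharZero (AlgebraicClosure k) := charZero_of_injective_algebraMap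
    (algebraMap k (AlgebraicClosure k)).injective
  have hprim : ∀ N : ℕ, 0 < N → ∃ ζ : AlgebraicClosure k, IsPrimitiveRoot ζ N := by
    intro N hN
    have : NeZero N := ⟨hN.ne'⟩
    exact HasEnoughRootsOfUnity.exists_primitiveRoot _ _
  obtain ⟨ω, hω⟩ := hprim d hd
  obtain ⟨ζ, hζ⟩ := hprim (2 * d) (by omega)
  obtain ⟨ξ, hξ⟩ := hprim (2 * d + τ) (by omega)
  obtain ⟨η, hη⟩ := hprim (d + 1) (by omega)
  obtain ⟨Row, Col, i1, i2, i3, i4, A, c₁, L, Z, hRow, hCol, hdeg, hc1, hA⟩ :=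
    full_gadget_y (K := AlgebraicClosure k) (g := g) (h := h) (τ := τ) (m := 2 * d) (k := d + 1)
      (by omega) hτ (by omega) hg hh hζ hξ hη
  obtain ⟨b, cnt, S, hcnt, hS, hcrit⟩ := crit2 hd hω (Fin g × Fin h × Fin τ)
  refine ⟨cnt, hcnt, ?_⟩
  have hcardΩ : Fintype.card (Fin g × Fin h × Fin τ) = g * h * τ := by
    simp [mul_assoc]
  rw [hcardΩ] at hS
  rw [← hS]
  obtain ⟨e, he⟩ := Nat.exists_eq_add_of_le hn
  have hcR : Fintype.card (Row ⊕ Fin e) = n := by
    rw [Fintype.card_sum, hRow, Fintype.card_fin, he]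
  have hcC : Fintype.card (Col ⊕ Fin e) = n := by
    rw [Fintype.card_sum, hCol, Fintype.card_fin, he]
  let eR : Fin n ≃ Row ⊕ Fin e := (Fintype.equivFinOfCardEq hcR).symm
  let eC : Fin n ≃ Col ⊕ Fin e := (Fintype.equivFinOfCardEq hcC).symm
  let u : PowerSeries (AlgebraicClosure k) := PowerSeries.X ^ L * PowerSeries.C c₁
  have hu : u ≠ 0 := by
    refine mul_ne_zero (pow_ne_zero _ PowerSeries.X_ne_zero) ?_
    rw [Ne, map_eq_zero_iff _ PowerSeries.C_injective]
    exact hc1
  let Φ : MvPolynomial ((Fin g × Fin h × Fin τ) × Fin (2 * d))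
      (PowerSeries (AlgebraicClosure k)) :=
    -(dsum (Fin g × Fin h × Fin τ) (Fin (2 * d)) (PowerSeries (AlgebraicClosure k)) (d + 1) +
      C (PowerSeries.X * PowerSeries.C c₁⁻¹) * Z)
  let E : (Fin n × Fin n) →
      MvPolynomial (Option ((Fin g × Fin h × Fin τ) × Fin (2 * d)))
        (PowerSeries (AlgebraicClosure k)) := fun q => pad e A (eR q.1) (eC q.2)
  have hE : ∀ i, (E i).totalDegree ≤ 1 := fun q => gp_pad e A hdeg _ _
  have hfE : eval₂ ((C : PowerSeries (AlgebraicClosure k) →+* _).comp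
      ((PowerSeries.C (R := AlgebraicClosure k)).comp (algebraMap k (AlgebraicClosure k)))) E
      (perPoly n k) = C u * gr Φ := by
    refine (perPoly_eval₂ _ eR eC (pad e A)).trans ?_
    have hpm : (∑ σ : (Col ⊕ Fin e) ≃ (Row ⊕ Fin e), ∏ c, pad e A (σ c) c) = pm A :=
      pm_pad e A (hRow.trans hCol.symm)
    rw [hpm, hA]
    unfold gr
    have h4 : (C (PowerSeries.C c₁) * C (PowerSeries.C c₁⁻¹) :
        MvPolynomial (Option ((Fin g × Fin h × Fin τ) × Fin (2 * d)))
        (PowerSeries (AlgebraicClosure k))) = 1 := by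
      rw [← C_mul, ← map_mul, mul_inv_cancel₀ hc1, map_one, C_1]
    simp only [Φ, u, map_neg, map_add, map_mul, rename_C, sub_neg_eq_add]
    linear_combination (- C (PowerSeries.X ^ L) * C PowerSeries.X * rename some Z) * h4
  have hred : map (PowerSeries.constantCoeff (R := AlgebraicClosure k)) Φ =
      - dsum (Fin g × Fin h × Fin τ) (Fin (2 * d)) (AlgebraicClosure k) (d + 1) := by
    simp only [Φ, map_neg, map_add, map_mul, map_C, PowerSeries.constantCoeff_X, C_0, zero_mul,
      add_zero]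
    rw [map_dsum]
  refine general P (perPoly n k) hP hdvd E hE Φ u hu hfE (fun _ => -b) S ?_ r hr
  intro p hp
  obtain ⟨hp1, hp2⟩ := hcrit p hp
  rw [hred]
  constructor
  · intro i
    rw [map_neg, map_neg, hp1 i]
  · have h6 : (Matrix.of fun i j => eval p (pderiv j (pderiv i
        (- dsum (Fin g × Fin h × Fin τ) (Fin (2 * d)) (AlgebraicClosure k) (d + 1))))) =
        - (Matrix.of fun x x' => eval p (pderiv x' (pderiv x
            (dsum (Fin g × Fin h × Fin τ) (Fin (2 * d)) (AlgebraicClosure k) (d + 1))))) := by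
      ext i j
      simp only [Matrix.of_apply, Matrix.neg_apply, map_neg]
    rw [h6, Matrix.det_neg]
    exact mul_ne_zero (pow_ne_zero _ (neg_ne_zero.mpr one_ne_zero)) hp2

end Pool.Agent.MUL
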