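import Pool.Agent.MUL.GG
import Pool.Agent.MUL.GP
import Pool.Agent.PerSL2.Asym

/-!
# FN: the multiples of `per_n` and of `y - per_n(x)`
-/

set_option autoImplicit false

namespace Pool.Agent.MUL

open MvPolynomial Finset
open Pool.Agent.H53.AC Pool.Agent.H10.PerSL Pool.Agent.PerSL2

universe u

/-- The main theorem in the approximative nonscalar model. -/
theorem main (c : ℝ) (hc : c < 1 / 24) :
    ∃ n₀ : ℕ, ∀ n ≥ n₀,
      (∀ (k : Type u) [Field k] [CharZero k] (P : MvPolynomial (Fin n × Fin n) k) (r : ℕ),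
        P ≠ 0 → perPoly n k ∣ P → BorderReach P r → c * (n : ℝ) ^ 2 * Real.logb 2 n ≤ r) ∧
      (∀ (k : Type u) [Field k] [CharZero k] (P : MvPolynomial (Option (Fin n × Fin n)) k)
        (r : ℕ), P ≠ 0 → gr (perPoly n k) ∣ P → BorderReach P r →
        c * (n : ℝ) ^ 2 * Real.logb 2 n ≤ r) := by
  obtain ⟨n₀, hn₀⟩ := asym2 c hc
  refine ⟨n₀, fun n hn => ?_⟩
  obtain ⟨d, g, l, τ, hd, hτ, hle, hfin⟩ := hn₀ n hn
  refine ⟨?_, ?_⟩
  · intro k _ _ P r hP hdvd hr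
    obtain ⟨cnt, h1, h2⟩ := mult_per hd hτ hle k P hP hdvd r hr
    exact hfin r cnt h1 h2
  · intro k _ _ P r hP hdvd hr
    obtain ⟨cnt, h1, h2⟩ := mult_graph hd hτ hle k P hP hdvd r hr
    exact hfin r cnt h1 h2

end Pool.Agent.MUL
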