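import Pool.Agent.MUL.Defs

/-!
# IR (difficulty 3): the permanent is a prime polynomial
-/

set_option autoImplicit false

namespace Pool.Agent.MUL

open MvPolynomial Finset
open Pool.Agent.H10.PerSL

universe u

/-- exponent vector of a permutation -/
private noncomputable def irM {n : ℕ} (σ : Equiv.Perm (Fin n)) : Fin n × Fin n →₀ ℕ :=
  ∑ j, Finsupp.single (σ j, j) 1

private theorem irM_apply {n : ℕ} (σ : Equiv.Perm (Fin n)) (q : Fin n × Fin n) :
    irM σ q = if σ q.2 = q.1 then 1 else 0 := by
  classical
  unfold irM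
  rw [Finsupp.finsetSum_apply, Finset.sum_eq_single q.2]
  · rw [Finsupp.single_apply]
    by_cases h : σ q.2 = q.1
    · rw [if_pos h]
      exact if_pos (Prod.ext h rfl : (σ q.2, q.2) = q)
    · rw [if_neg h]
      exact if_neg (fun h2 : (σ q.2, q.2) = q => h (congrArg Prod.fst h2))
  · intro j _ hj
    rw [Finsupp.single_apply, if_neg]
    intro h
    exact hj (congrArg Prod.snd h)
  · intro h
    exact absurd (Finset.mem_univ _) h

private theorem irM_injective {n : ℕ} : Function.Injective (irM (n := n)) := by
  intro σ τ h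
  ext j
  have h1 := irM_apply σ (σ j, j)
  rw [h, irM_apply] at h1
  simp only [if_true] at h1
  by_contra hne
  rw [if_neg (fun h2 => hne (by rw [h2]))] at h1
  exact absurd h1 (by norm_num)

private theorem ir_per {n : ℕ} (k : Type u) [Field k] :
    perPoly n k = ∑ σ : Equiv.Perm (Fin n), monomial (irM σ) (1 : k) := by
  unfold perPoly Matrix.permanent
  refine Finset.sum_congr rfl fun σ _ => ?_
  unfold irM
  rw [monomial_sum_one]
  refine Finset.prod_congr rfl fun j _ => ?_
  rfl

private theorem ir_coeff {n : ℕ} (k : Type u) [Field k] (σ : Equiv.Perm (Fin n)) :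
    coeff (irM σ) (perPoly n k) = 1 := by
  classical
  rw [ir_per, coeff_sum, Finset.sum_eq_single σ]
  · rw [coeff_monomial, if_pos rfl]
  · intro τ _ hτ
    rw [coeff_monomial, if_neg (fun h => hτ (irM_injective h))]
  · intro h
    exact absurd (Finset.mem_univ _) h

theorem per_degreeOf {n : ℕ} (k : Type u) [Field k] (q : Fin n × Fin n) :
    degreeOf q (perPoly n k) = 1 := by
  classical
  apply le_antisymm
  · rw [ir_per]
    refine (degreeOf_sum_le q _ _).trans ?_
    apply Finset.sup_le
    intro σ _
    rw [degreeOf_monomial_eq _ _ one_ne_zero, irM_apply]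
    split_ifs <;> simp
  · have h1 : irM (Equiv.swap q.1 q.2) ∈ (perPoly n k).support := by
      rw [mem_support_iff, ir_coeff]
      exact one_ne_zero
    have h2 := monomial_le_degreeOf q h1
    rw [irM_apply, if_pos (Equiv.swap_apply_right _ _)] at h2
    exact h2

private theorem ir_mul_eq {σ : Type} (k : Type u) [Field k] (q : σ) {f g : MvPolynomial σ k}
    (hf : f ≠ 0) (hg : g ≠ 0) : degreeOf q (f * g) = degreeOf q f + degreeOf q g := by
  classical
  exact degreeOf_mul_eq hf hg

private theorem ir_pp {n : ℕ} (k : Type u) [Field k] {q q' : Fin n × Fin n} (hne : q ≠ q')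
    (h : q.1 = q'.1 ∨ q.2 = q'.2) : pderiv q (pderiv q' (perPoly n k)) = 0 := by
  classical
  rw [ir_per, map_sum, map_sum]
  apply Finset.sum_eq_zero
  intro σ _
  rw [pderiv_monomial, pderiv_monomial]
  have h1 : (irM σ - Finsupp.single q' 1 : Fin n × Fin n →₀ ℕ) q = irM σ q := by
    rw [Finsupp.tsub_apply, Finsupp.single_apply, if_neg (Ne.symm hne), Nat.sub_zero]
  rw [h1, irM_apply, irM_apply]
  by_cases h2 : σ q'.2 = q'.1
  · by_cases h3 : σ q.2 = q.1
    · exfalso
      apply hne
      rcases h with h | h
      · have h4 : q.2 = q'.2 := σ.injective (by rw [h3, h2, h])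
        exact Prod.ext h h4
      · have h4 : q.1 = q'.1 := by rw [← h3, ← h2, h]
        exact Prod.ext h4 h
    · rw [if_neg h3]
      simp
  · rw [if_neg h2]
    simp

private theorem ir_vars {σ : Type} {k : Type u} [Field k] {q : σ} {f : MvPolynomial σ k}
    (h : degreeOf q f = 0) : pderiv q f = 0 := by
  classical
  apply pderiv_eq_zero_of_notMem_vars
  intro hq
  rw [mem_vars] at hq
  obtain ⟨m, hm, hq⟩ := hq
  have h1 := monomial_le_degreeOf q hm
  rw [h] at h1
  exact (Finsupp.mem_support_iff.mp hq) (Nat.le_zero.mp h1)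

private theorem ir_pd_ne {σ : Type} {k : Type u} [Field k] {q : σ} {f : MvPolynomial σ k}
    (h : degreeOf q f = 1) : pderiv q f ≠ 0 := by
  classical
  intro h0
  have h1 : ¬ degreeOf q f < 1 := by rw [h]; exact lt_irrefl _
  rw [degreeOf_lt_iff (by norm_num)] at h1
  push Not at h1
  obtain ⟨m, hm, hmq⟩ := h1
  have h2 := monomial_le_degreeOf q hm
  rw [h] at h2
  have h3 : m q = 1 := le_antisymm h2 hmq
  have h4 : m = (m - Finsupp.single q 1) + Finsupp.single q 1 := by
    rw [tsub_add_cancel_of_le]
    rw [Finsupp.single_le_iff]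
    omega
  have h5 := coeff_pderiv (i := q) f (m - Finsupp.single q 1)
  rw [← h4, h0, coeff_zero] at h5
  have h6 : (m - Finsupp.single q 1 : σ →₀ ℕ) q = 0 := by
    rw [Finsupp.tsub_apply, Finsupp.single_eq_same, h3]
  rw [h6, Nat.cast_zero, zero_add, mul_one] at h5
  exact (mem_support_iff.mp hm) h5.symm

private theorem ir_comm {σ : Type} {k : Type u} [Field k] (q q' : σ) (f : MvPolynomial σ k) :
    pderiv q (pderiv q' f) = pderiv q' (pderiv q f) := by
  classical
  have h1 : ⁅(pderiv q : Derivation k (MvPolynomial σ k) (MvPolynomial σ k)),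
      (pderiv q' : Derivation k (MvPolynomial σ k) (MvPolynomial σ k))⁆ = 0 := by
    apply MvPolynomial.derivation_ext
    intro i
    rw [Derivation.commutator_apply]
    by_cases h1 : i = q' <;> by_cases h2 : i = q
    · subst h1; subst h2; simp
    · subst h1; simp [pderiv_X_of_ne h2]
    · subst h2; simp [pderiv_X_of_ne h1]
    · simp [pderiv_X_of_ne h2, pderiv_X_of_ne h1]
  have h2 := congrArg (fun D : Derivation k (MvPolynomial σ k) (MvPolynomial σ k) => D f) h1
  simp only [Derivation.commutator_apply, Derivation.coe_zero, Pi.zero_apply] at h2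
  exact sub_eq_zero.mp h2

/-- the two factors cannot separate two variables in the same row or column -/
private theorem ir_sep {n : ℕ} (k : Type u) [Field k] {g h : MvPolynomial (Fin n × Fin n) k}
    (hgh : perPoly n k = g * h) {q q' : Fin n × Fin n} (hne : q ≠ q')
    (hrc : q.1 = q'.1 ∨ q.2 = q'.2) (h1 : degreeOf q g = 1) (h2 : degreeOf q' g = 0)
    (h3 : degreeOf q h = 0) (h4 : degreeOf q' h = 1) : False := by
  have h5 := ir_pp k hne hrc
  rw [hgh, pderiv_mul, ir_vars h2, zero_mul, zero_add, pderiv_mul, ir_comm q q' h, ir_vars h3,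
    map_zero, mul_zero, add_zero] at h5
  rcases mul_eq_zero.mp h5 with h6 | h6
  · exact ir_pd_ne h1 h6
  · exact ir_pd_ne h4 h6

private theorem ir_const {n : ℕ} (k : Type u) [Field k] {f : MvPolynomial (Fin n × Fin n) k}
    (hf : f ≠ 0) (h : ∀ q, degreeOf q f = 0) : IsUnit f := by
  classical
  have h1 : f.vars = ∅ := by
    rw [Finset.eq_empty_iff_forall_notMem]
    intro q hq
    rw [mem_vars] at hq
    obtain ⟨m, hm, hq⟩ := hq
    have h1 := monomial_le_degreeOf q hm
    rw [h] at h1
    exact (Finsupp.mem_support_iff.mp hq) (Nat.le_zero.mp h1)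
  rw [vars_eq_empty_iff_eq_C] at h1
  rw [h1]
  have h2 : coeff 0 f ≠ 0 := by
    intro h3
    rw [h3, C_0] at h1
    exact hf h1
  exact (IsUnit.mk0 _ h2).map C

theorem per_prime {n : ℕ} (hn : 0 < n) (k : Type u) [Field k] : Prime (perPoly n k) := by
  classical
  let q0 : Fin n × Fin n := (⟨0, hn⟩, ⟨0, hn⟩)
  have hne0 : perPoly n k ≠ 0 := by
    intro h
    have := per_degreeOf k q0
    rw [h, degreeOf_zero] at this
    omega
  rw [← UniqueFactorizationMonoid.irreducible_iff_prime]
  refine ⟨?_, ?_⟩
  · intro hu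
    obtain ⟨v, hv⟩ := hu.exists_right_inv
    have hv0 : v ≠ 0 := by
      rintro rfl
      rw [mul_zero] at hv
      exact zero_ne_one hv
    have h1 := ir_mul_eq k q0 hne0 hv0
    rw [hv, degreeOf_one, per_degreeOf] at h1
    omega
  · intro g h hgh
    have hg : g ≠ 0 := by
      rintro rfl
      rw [zero_mul] at hgh
      exact hne0 hgh
    have hh : h ≠ 0 := by
      rintro rfl
      rw [mul_zero] at hgh
      exact hne0 hgh
    have hsum : ∀ q, degreeOf q g + degreeOf q h = 1 := by
      intro q
      rw [← ir_mul_eq k q hg hh, ← hgh, per_degreeOf]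
    have hcl : ∀ q q' : Fin n × Fin n, (q.1 = q'.1 ∨ q.2 = q'.2) →
        degreeOf q g = degreeOf q' g := by
      intro q q' hrc
      by_contra hne
      have hqq : q ≠ q' := by
        rintro rfl
        exact hne rfl
      have e1 := hsum q
      have e2 := hsum q'
      by_cases h1 : degreeOf q g = 1
      · exact ir_sep k hgh hqq hrc h1 (by omega) (by omega) (by omega)
      · exact ir_sep k hgh hqq.symm (by
          rcases hrc with h | h
          · exact Or.inl h.symm
          · exact Or.inr h.symm) (by omega) (by omega) (by omega) (by omega)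
    have hall : ∀ q, degreeOf q g = degreeOf q0 g := by
      intro q
      rw [hcl q (q.1, q0.2) (Or.inl rfl), hcl (q.1, q0.2) q0 (Or.inr rfl)]
    by_cases h1 : degreeOf q0 g = 0
    · left
      exact ir_const k hg (fun q => by rw [hall q, h1])
    · right
      apply ir_const k hh
      intro q
      have e1 := hsum q
      have e2 := hsum q0
      have e3 := hall q
      omega

end Pool.Agent.MUL
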