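import Pool.Agent.MUL.LD

/-!
# RZ (difficulty 3): real zeros of a polynomial of degree one in a variable

* `split_var`: `f = X i * D + E` with `D = pderiv i f` and `E = f - X i * D`: compare coefficients (`coeff_pderiv`,
  `coeff_X_mul'`), or sum over the monomials of `f` (`m i = 0` or `m i = 1`; `X_mul_pderiv_monomial`).
* `real_zeros`: `f = X i * D + E`, `D ≠ 0`. For every `u` there are `N` and `R` with `degreeOf i R = 0` and `f ∣ D ^ N * u - R`
  (induction on `u`: constants, sums: `D ^ (N + N')`, product with `X j`, `j ≠ i`: the same `N`, `R X j`; product with `X i`: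
  `D ^ (N+1) * (u * X i) ≡ R * D * X i ≡ - R * E`). If `D(z) ≠ 0`, let `z' = Function.update z i (- E(z) / D(z))`; `D(z') = D(z)`,
  `E(z') = E(z)`, `R(z') = R(z)` (a polynomial with `degreeOf i = 0` does not depend on `z i`: `eval_eq'`, all exponents at `i` are `0`),
  so `f(z') = 0`, `u(z') = 0`, `R(z) = 0`. Hence `D * R = 0` (`MvPolynomial.funext`), `R = 0`, `f ∣ D ^ N * u`;
  `f ∤ D` by the degree in `X i` (`degreeOf_mul_eq`).
* `gr_real`: `gr_dvd` (module LD), `MvPolynomial.funext`, `eval (pt x (eval x Φ)) u = eval x (sb Φ u)`.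
* `zero_frontier`: the zero set is closed; if `z` were in its interior, `f` would vanish on an open box:
  use `MvPolynomial.funext_set` or restrict to the lines through `z` (`f ≠ 0` at some point `y`; the polynomial `f (z + s (y - z))` in `s` is
  not `0`, so it has finitely many zeros).
-/

set_option autoImplicit false

namespace Pool.Agent.MUL

open MvPolynomial Finset

private theorem RZ_deg_mon {k : Type*} [Field k] {σ : Type*} (i : σ) (s : Finset (σ →₀ ℕ))
    (g : (σ →₀ ℕ) → (σ →₀ ℕ)) (c : (σ →₀ ℕ) → k) (hg : ∀ m ∈ s, (g m) i = 0) :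
    degreeOf i (∑ m ∈ s, monomial (g m) (c m)) = 0 := by
  classical
  apply Nat.eq_zero_of_le_zero
  refine (degreeOf_sum_le i s _).trans ?_
  apply Finset.sup_le
  intro m hm
  by_cases hc : c m = 0
  · rw [hc]; simp
  · have h1 : (g m) i = 0 := hg m hm
    rw [degreeOf_eq_sup]
    apply Finset.sup_le
    intro d hd
    rw [support_monomial, if_neg hc, Finset.mem_singleton] at hd
    rw [hd, h1]

theorem split_var {k : Type*} [Field k] {σ : Type*} (f : MvPolynomial σ k) (i : σ)
    (h : degreeOf i f = 1) :
    ∃ D E : MvPolynomial σ k, f = X i * D + E ∧ D ≠ 0 ∧ degreeOf i D = 0 ∧ degreeOf i E = 0 := by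
  classical
  have hle : ∀ m ∈ f.support, m i ≤ 1 := fun m hm => by
    have := monomial_le_degreeOf i hm
    omega
  have hE : degreeOf i (∑ m ∈ f.support.filter (fun m => m i = 0), monomial m (coeff m f)) = 0 :=
    RZ_deg_mon i _ (fun m => m) _ (fun m hm => (Finset.mem_filter.1 hm).2)
  have hD : degreeOf i (∑ m ∈ f.support.filter (fun m => ¬ m i = 0),
      monomial (m - Finsupp.single i 1) (coeff m f)) = 0 := by
    refine RZ_deg_mon i _ (fun m => m - Finsupp.single i 1) _ (fun m hm => ?_)
    have h1 := hle m (Finset.mem_filter.1 hm).1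
    simp only [Finsupp.coe_tsub, Pi.sub_apply, Finsupp.single_eq_same]
    omega
  have hf : f = X i * (∑ m ∈ f.support.filter (fun m => ¬ m i = 0),
      monomial (m - Finsupp.single i 1) (coeff m f)) +
      ∑ m ∈ f.support.filter (fun m => m i = 0), monomial m (coeff m f) := by
    conv_lhs => rw [f.as_sum, ← Finset.sum_filter_add_sum_filter_not f.support (fun m => m i = 0)]
    rw [add_comm, Finset.mul_sum]
    congr 1
    refine Finset.sum_congr rfl fun m hm => ?_
    have h0 := (Finset.mem_filter.1 hm).2
    have h1 : Finsupp.single i 1 + (m - Finsupp.single i 1) = m := by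
      apply add_tsub_cancel_of_le
      rw [Finsupp.single_le_iff]
      omega
    rw [X, monomial_mul, one_mul, h1]
  refine ⟨_, _, hf, ?_, hD, hE⟩
  intro h0
  rw [h0, mul_zero, zero_add] at hf
  rw [hf, hE] at h
  exact zero_ne_one h

private theorem RZ_eval {σ : Type*} [DecidableEq σ] (R : MvPolynomial σ ℝ) (i : σ)
    (h : degreeOf i R = 0) (z : σ → ℝ) (t : ℝ) : eval (Function.update z i t) R = eval z R := by
  unfold eval
  simp only [coe_eval₂Hom]
  apply eval₂_congr
  intro j c hj hc
  rw [Function.update_of_ne]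
  rintro rfl
  have h1 := monomial_le_degreeOf j (mem_support_iff.2 hc)
  rw [h] at h1
  exact (Finsupp.mem_support_iff.1 hj) (Nat.eq_zero_of_le_zero h1)

private theorem RZ_red {σ : Type*} (D E f : MvPolynomial σ ℝ) (i : σ) (hf : f = X i * D + E)
    (hD : degreeOf i D = 0) (hE : degreeOf i E = 0) (u : MvPolynomial σ ℝ) :
    ∃ (N : ℕ) (R : MvPolynomial σ ℝ), degreeOf i R = 0 ∧ f ∣ D ^ N * u - R := by
  classical
  have hpow : ∀ N : ℕ, degreeOf i (D ^ N) = 0 := fun N => by
    have := degreeOf_pow_le i D N
    rw [hD, mul_zero] at this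
    omega
  have hmul : ∀ P Q : MvPolynomial σ ℝ, degreeOf i P = 0 → degreeOf i Q = 0 →
      degreeOf i (P * Q) = 0 := fun P Q hP hQ => by
    have := degreeOf_mul_le i P Q
    omega
  induction u using MvPolynomial.induction_on with
  | C a => exact ⟨0, C a, degreeOf_C a i, by simp⟩
  | add p q hp hq =>
    obtain ⟨N1, R1, h1, g1, hg1⟩ := hp
    obtain ⟨N2, R2, h2, g2, hg2⟩ := hq
    refine ⟨N1 + N2, D ^ N2 * R1 + D ^ N1 * R2, ?_, D ^ N2 * g1 + D ^ N1 * g2, ?_⟩
    · have := degreeOf_add_le i (D ^ N2 * R1) (D ^ N1 * R2)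
      rw [hmul _ _ (hpow N2) h1, hmul _ _ (hpow N1) h2] at this
      simpa using this
    · have e : D ^ (N1 + N2) * (p + q) - (D ^ N2 * R1 + D ^ N1 * R2) =
          D ^ N2 * (D ^ N1 * p - R1) + D ^ N1 * (D ^ N2 * q - R2) := by ring
      rw [e, hg1, hg2]
      ring
  | mul_X p j hp =>
    obtain ⟨N, R, h1, g, hg⟩ := hp
    by_cases hij : j = i
    · subst hij
      refine ⟨N + 1, -(R * E), ?_, D ^ N * p - E * g, ?_⟩
      · rw [degreeOf_neg]
        exact hmul _ _ h1 hE
      · have e1 : X j * D = f - E := by rw [hf]; ring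
        have e : D ^ (N + 1) * (p * X j) - -(R * E) = D ^ N * p * (X j * D) + R * E := by ring
        have e2 : D ^ N * p = f * g + R := by rw [← hg]; ring
        rw [e, e1]
        have e3 : D ^ N * p * (f - E) + R * E = f * (D ^ N * p) - E * (D ^ N * p - R) := by ring
        rw [e3, hg]
        ring
    · refine ⟨N, R * X j, hmul _ _ h1 (degreeOf_X_of_ne (Ne.symm hij)), g * X j, ?_⟩
      have e : D ^ N * (p * X j) - R * X j = (D ^ N * p - R) * X j := by ring
      rw [e, hg]
      ring

theorem real_zeros {σ : Type*} (f : MvPolynomial σ ℝ) (i : σ) (h : degreeOf i f = 1)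
    (hf : Prime f) (u : MvPolynomial σ ℝ) (hu : ∀ z, eval z f = 0 → eval z u = 0) : f ∣ u := by
  classical
  obtain ⟨D, E, hfe, hD0, hD, hE⟩ := split_var f i h
  obtain ⟨N, R, hR, g, hg⟩ := RZ_red D E f i hfe hD hE u
  have hDR : D * R = 0 := by
    apply MvPolynomial.funext
    intro z
    rw [map_mul, map_zero]
    by_cases hz : eval z D = 0
    · rw [hz, zero_mul]
    · have hf0 : eval (Function.update z i (-(eval z E) / eval z D)) f = 0 := by
        rw [hfe, map_add, map_mul, eval_X, RZ_eval D i hD, RZ_eval E i hE, Function.update_self]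
        field_simp
        ring
      have h1 := congrArg (eval (Function.update z i (-(eval z E) / eval z D))) hg
      rw [map_sub, map_mul, map_mul, hu _ hf0, hf0, mul_zero, zero_mul, zero_sub, neg_eq_zero,
        RZ_eval R i hR] at h1
      rw [h1, mul_zero]
  have hR0 : R = 0 := (mul_eq_zero.1 hDR).resolve_left hD0
  rw [hR0, sub_zero] at hg
  have hdvd : f ∣ D ^ N * u := ⟨g, hg⟩
  rcases hf.dvd_or_dvd hdvd with h1 | h1
  · exfalso
    obtain ⟨q, hq⟩ := hf.dvd_of_dvd_pow h1
    have hq0 : q ≠ 0 := by
      rintro rfl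
      exact hD0 (by rw [hq, mul_zero])
    have h2 := degreeOf_mul_eq (n := i) hf.ne_zero hq0
    rw [← hq, hD, h] at h2
    omega
  · exact h1

theorem gr_real {σ : Type*} (Φ : MvPolynomial σ ℝ) (u : MvPolynomial (Option σ) ℝ)
    (hu : ∀ z, eval z (gr Φ) = 0 → eval z u = 0) : gr Φ ∣ u := by
  rw [gr_dvd]
  apply MvPolynomial.funext
  intro x
  rw [map_zero]
  have h1 : eval (pt x (eval x Φ)) (gr Φ) = 0 := by
    unfold gr
    rw [map_sub, eval_X, eval_rename]
    have : (pt x (eval x Φ)) ∘ some = x := by
      funext i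
      rfl
    rw [this]
    show eval x Φ - eval x Φ = 0
    ring
  have h2 : eval x (sb Φ u) = eval (pt x (eval x Φ)) u := by
    unfold sb
    induction u using MvPolynomial.induction_on with
    | C a => simp
    | add p q hp hq => 
      rw [map_add, map_add, map_add]
      rw [MvPolynomial.induction_on p (motive := fun p => eval x (aeval (pt X Φ) p) =
        eval (pt x (eval x Φ)) p) (fun a => by simp) (fun p q hp hq => by
          rw [map_add, map_add, map_add, hp, hq]) (fun p o hp => by
          rw [map_mul, map_mul, map_mul, hp, aeval_X, eval_X]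
          congr 1
          cases o <;> simp [pt])]
      rw [MvPolynomial.induction_on q (motive := fun p => eval x (aeval (pt X Φ) p) =
        eval (pt x (eval x Φ)) p) (fun a => by simp) (fun p q hp hq => by
          rw [map_add, map_add, map_add, hp, hq]) (fun p o hp => by
          rw [map_mul, map_mul, map_mul, hp, aeval_X, eval_X]
          congr 1
          cases o <;> simp [pt])]
    | mul_X p o hp =>
      rw [map_mul, map_mul, map_mul, aeval_X, eval_X]
      rw [MvPolynomial.induction_on p (motive := fun p => eval x (aeval (pt X Φ) p) =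
        eval (pt x (eval x Φ)) p) (fun a => by simp) (fun p q hp hq => by
          rw [map_add, map_add, map_add, hp, hq]) (fun p o hp => by
          rw [map_mul, map_mul, map_mul, hp, aeval_X, eval_X]
          congr 1
          cases o <;> simp [pt])]
      congr 1
      cases o <;> simp [pt]
  rw [h2]
  exact hu _ h1

theorem zero_frontier {σ : Type*} [Fintype σ] (f : MvPolynomial σ ℝ) (hf : f ≠ 0) (z : σ → ℝ)
    (hz : eval z f = 0) : z ∈ frontier {x : σ → ℝ | eval x f = 0} := by
  rw [frontier_eq_closure_inter_closure]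
  refine ⟨subset_closure hz, ?_⟩
  rw [mem_closure_iff_nhds]
  by_contra hcon
  push Not at hcon
  obtain ⟨t, ht, hte⟩ := hcon
  have hy : ∃ y, eval y f ≠ 0 := by
    by_contra h1
    push Not at h1
    exact hf (MvPolynomial.funext fun x => by rw [h1 x, map_zero])
  obtain ⟨y, hy⟩ := hy
  set g : Polynomial ℝ := aeval (fun i => Polynomial.C (z i) + Polynomial.X *
    Polynomial.C (y i - z i)) f with hg
  have hev : ∀ s : ℝ, Polynomial.eval s g = eval (fun i => z i + s * (y i - z i)) f := by
    intro s
    rw [hg]
    induction f using MvPolynomial.induction_on with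
    | C a => simp
    | add p q _ _ =>
      have key : ∀ p : MvPolynomial σ ℝ, Polynomial.eval s (aeval (fun i => Polynomial.C (z i) +
          Polynomial.X * Polynomial.C (y i - z i)) p) = eval (fun i => z i + s * (y i - z i)) p := by
        intro p
        induction p using MvPolynomial.induction_on with
        | C a => simp
        | add p q hp hq => rw [map_add, Polynomial.eval_add, hp, hq, map_add]
        | mul_X p j hp => rw [map_mul, Polynomial.eval_mul, hp, map_mul]; simp
      exact key _
    | mul_X p j _ =>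
      have key : ∀ p : MvPolynomial σ ℝ, Polynomial.eval s (aeval (fun i => Polynomial.C (z i) +
          Polynomial.X * Polynomial.C (y i - z i)) p) = eval (fun i => z i + s * (y i - z i)) p := by
        intro p
        induction p using MvPolynomial.induction_on with
        | C a => simp
        | add p q hp hq => rw [map_add, Polynomial.eval_add, hp, hq, map_add]
        | mul_X p j hp => rw [map_mul, Polynomial.eval_mul, hp, map_mul]; simp
      exact key _
  have hcont : Continuous fun s : ℝ => (fun i => z i + s * (y i - z i) : σ → ℝ) := by fun_prop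
  have hpre : (fun s : ℝ => (fun i => z i + s * (y i - z i) : σ → ℝ)) ⁻¹' t ∈ nhds (0 : ℝ) := by
    apply hcont.continuousAt.preimage_mem_nhds
    simpa using ht
  have hinf : Set.Infinite {s : ℝ | Polynomial.IsRoot g s} := by
    refine (infinite_of_mem_nhds (0 : ℝ) hpre).mono ?_
    intro s hs
    have h1 : (fun i => z i + s * (y i - z i)) ∉ {x : σ → ℝ | eval x f = 0}ᶜ := by
      intro h2
      have : (fun i => z i + s * (y i - z i)) ∈ t ∩ {x : σ → ℝ | eval x f = 0}ᶜ := ⟨hs, h2⟩
      rw [hte] at this
      exact this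
    show Polynomial.eval s g = 0
    rw [hev]
    by_contra h2
    exact h1 h2
  have hg0 := Polynomial.eq_zero_of_infinite_isRoot g hinf
  have h1 := hev 1
  rw [hg0, Polynomial.eval_zero] at h1
  apply hy
  have h2 : (fun i => z i + 1 * (y i - z i)) = y := by
    funext i
    ring
  rw [h2] at h1
  exact h1.symm

end Pool.Agent.MUL
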