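import Pool.Agent.MUL.TA
import Pool.Agent.MUL.RZ

/-!
# TL: the local versions (trees that are right on an open set only)
-/

set_option autoImplicit false

namespace Pool.Agent.MUL

open MvPolynomial Finset
open Pool.Agent.H53.AC Pool.Agent.H10.PerSL

theorem tree_extract_on {σ : Type} [Fintype σ] (f : MvPolynomial σ ℝ) (hf : Prime f)
    (U : Set (σ → ℝ)) (hU : IsOpen U)
    (hreal : ∀ u : MvPolynomial σ ℝ, (∀ z ∈ U, eval z f = 0 → eval z u = 0) → f ∣ u)
    {Ω : Type} [Fintype Ω] (w : Ω → ℝ) (T : Ω → CTree σ) (A : Set (σ → ℝ))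
    (hT : DecidesOn w T A U)
    (hA : ∀ z ∈ U, eval z f = 0 → z ∈ frontier A) (D : ℕ) (hD : ∀ ω, (T ω).depth ≤ D) :
    ∃ u : MvPolynomial σ ℝ, u ≠ 0 ∧ f ∣ u ∧ ReachLE u (3 * D) := by
  classical
  by_contra hno
  push Not at hno
  obtain ⟨hw0, hw1, hdec⟩ := hT
  have hrc : ∀ ω, ∃ h : MvPolynomial σ ℝ, ¬ f ∣ h ∧ ∀ z, eval z h ≠ 0 →
      ∀ᶠ q in nhds z, CTree.run q [] (T ω) = CTree.run z [] (T ω) := by
    intro ω
    obtain ⟨h, h1, h2⟩ := run_const f hf (T ω) 0 _ [] Reach.zero (by simp) (by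
      intro u hu hfu hR
      obtain ⟨r', hr', V, hV, huV⟩ := hR
      refine hno u hu hfu ⟨r', ?_, V, hV, huV⟩
      have := hD ω
      omega)
    refine ⟨h, h1, fun z hz => ?_⟩
    have h3 := h2 z hz (by simp)
    simpa [vals] using h3
  choose h hh1 hh2 using hrc
  have hprod : ¬ f ∣ ∏ ω, h ω := by
    rw [Prime.dvd_finsetProd_iff hf]
    rintro ⟨ω, -, hω⟩
    exact hh1 ω hω
  have hz : ∃ z ∈ U, eval z f = 0 ∧ eval z (∏ ω, h ω) ≠ 0 := by
    by_contra hcon
    push Not at hcon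
    exact hprod (hreal _ hcon)
  obtain ⟨z, hzU, hzf, hzh⟩ := hz
  rw [map_prod] at hzh
  have hzω : ∀ ω, eval z (h ω) ≠ 0 := fun ω h0 =>
    hzh (Finset.prod_eq_zero (Finset.mem_univ ω) h0)
  have hev : ∀ᶠ q in nhds z, q ∈ U ∧ ∀ ω, CTree.run q [] (T ω) = CTree.run z [] (T ω) :=
    Filter.Eventually.and (hU.mem_nhds hzU) (Filter.eventually_all.2 fun ω => hh2 ω z (hzω ω))
  have hfr := hA z hzU hzf
  rw [frontier_eq_closure_inter_closure] at hfr
  have hq : ∃ q ∈ U, (∀ ω, CTree.run q [] (T ω) = CTree.run z [] (T ω)) ∧ (q ∈ A ↔ z ∉ A) := by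
    by_cases hzA : z ∈ A
    · obtain ⟨q, hq1, hq2⟩ := mem_closure_iff_nhds.1 hfr.2 _ hev
      exact ⟨q, hq1.1, hq1.2, by simp only [hzA, not_true_eq_false, iff_false]; exact hq2⟩
    · obtain ⟨q, hq1, hq2⟩ := mem_closure_iff_nhds.1 hfr.1 _ hev
      exact ⟨q, hq1.1, hq1.2, by simp only [hzA, not_false_eq_true, iff_true]; exact hq2⟩
  obtain ⟨q, hqU, hq1, hq2⟩ := hq
  have e1 := hdec z hzU
  have e2 := hdec q hqU
  have e3 : (univ.filter (fun ω => ((T ω).run q [] = true ↔ q ∈ A))) =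
      univ.filter (fun ω => ¬ ((T ω).run z [] = true ↔ z ∈ A)) := by
    apply Finset.filter_congr
    intro ω _
    rw [hq1 ω, hq2]
    tauto
  rw [e3] at e2
  have e4 := Finset.sum_filter_add_sum_filter_not univ
    (fun ω => ((T ω).run z [] = true ↔ z ∈ A)) w
  rw [hw1] at e4
  linarith

/-- A polynomial that vanishes near a point is zero. -/
theorem zero_of_nhds {σ : Type*} [Fintype σ] (f : MvPolynomial σ ℝ) (z : σ → ℝ)
    (h : ∀ᶠ q in nhds z, eval q f = 0) : f = 0 := by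
  by_contra hf
  have h1 := zero_frontier f hf z h.self_of_nhds
  rw [frontier, Set.mem_sdiff] at h1
  exact h1.2 (mem_interior_iff_mem_nhds.2 h)

theorem tl_eval {σ : Type*} [DecidableEq σ] (R : MvPolynomial σ ℝ) (i : σ)
    (h : degreeOf i R = 0) (z : σ → ℝ) (t : ℝ) : eval (Function.update z i t) R = eval z R := by
  unfold eval
  simp only [coe_eval₂Hom]
  apply eval₂_congr
  intro j c hj hc
  rw [Function.update_of_ne]
  rintro rfl
  have h1 := monomial_le_degreeOf j (mem_support_iff.2 hc)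
  rw [h] at h1
  exact (Finsupp.mem_support_iff.1 hj) (Nat.eq_zero_of_le_zero h1)

theorem tl_red {σ : Type*} (D E f : MvPolynomial σ ℝ) (i : σ) (hf : f = X i * D + E)
    (hD : degreeOf i D = 0) (hE : degreeOf i E = 0) (u : MvPolynomial σ ℝ) :
    ∃ (N : ℕ) (R : MvPolynomial σ ℝ), degreeOf i R = 0 ∧ f ∣ D ^ N * u - R := by
  classical
  have hpow : ∀ N : ℕ, degreeOf i (D ^ N) = 0 := fun N => by
    have := degreeOf_pow_le i D N
    rw [hD, mul_zero] at this
    omega
  have hmul : ∀ P Q : MvPolynomial σ ℝ, degreeOf i P = 0 → degreeOf i Q = 0 →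
      degreeOf i (P * Q) = 0 := fun P Q hP hQ => by
    have := degreeOf_mul_le i P Q
    omega
  induction u using MvPolynomial.induction_on with
  | C a => exact ⟨0, C a, degreeOf_C a i, by simp⟩
  | add p q hp hq =>
    obtain ⟨N1, R1, h1, g1, hg1⟩ := hp
    obtain ⟨N2, R2, h2, g2, hg2⟩ := hq
    refine ⟨N1 + N2, D ^ N2 * R1 + D ^ N1 * R2, ?_, D ^ N2 * g1 + D ^ N1 * g2, ?_⟩
    · have := degreeOf_add_le i (D ^ N2 * R1) (D ^ N1 * R2)
      rw [hmul _ _ (hpow N2) h1, hmul _ _ (hpow N1) h2] at this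
      simpa using this
    · have e : D ^ (N1 + N2) * (p + q) - (D ^ N2 * R1 + D ^ N1 * R2) =
          D ^ N2 * (D ^ N1 * p - R1) + D ^ N1 * (D ^ N2 * q - R2) := by ring
      rw [e, hg1, hg2]
      ring
  | mul_X p j hp =>
    obtain ⟨N, R, h1, g, hg⟩ := hp
    by_cases hij : j = i
    · subst hij
      refine ⟨N + 1, -(R * E), ?_, D ^ N * p - E * g, ?_⟩
      · rw [degreeOf_neg]
        exact hmul _ _ h1 hE
      · have e1 : X j * D = f - E := by rw [hf]; ring
        have e : D ^ (N + 1) * (p * X j) - -(R * E) = D ^ N * p * (X j * D) + R * E := by ring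
        have e2 : D ^ N * p = f * g + R := by rw [← hg]; ring
        rw [e, e1]
        have e3 : D ^ N * p * (f - E) + R * E = f * (D ^ N * p) - E * (D ^ N * p - R) := by ring
        rw [e3, hg]
        ring
    · refine ⟨N, R * X j, hmul _ _ h1 (degreeOf_X_of_ne (Ne.symm hij)), g * X j, ?_⟩
      have e : D ^ N * (p * X j) - R * X j = (D ^ N * p - R) * X j := by ring
      rw [e, hg]
      ring

theorem tl_cont {σ : Type*} [Fintype σ] (f : MvPolynomial σ ℝ) :
    Continuous fun z : σ → ℝ => eval z f := MvPolynomial.continuous_eval f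

theorem real_zeros_local {σ : Type*} [Fintype σ] (f : MvPolynomial σ ℝ) (i : σ)
    (h : degreeOf i f = 1)
    (hf : Prime f) (U : Set (σ → ℝ)) (hU : IsOpen U) (z₀ : σ → ℝ) (hz₀ : z₀ ∈ U)
    (hfz : eval z₀ f = 0) (hd : eval z₀ (pderiv i f) ≠ 0)
    (u : MvPolynomial σ ℝ) (hu : ∀ z ∈ U, eval z f = 0 → eval z u = 0) : f ∣ u := by
  classical
  obtain ⟨D, E, hfe, hD0, hD, hE⟩ := split_var f i h
  have hpd : ∀ P : MvPolynomial σ ℝ, degreeOf i P = 0 → pderiv i P = 0 := fun P hP =>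
    pderiv_eq_zero_of_notMem_vars (by
      intro hmem
      rw [mem_vars_iff_mem_support] at hmem
      obtain ⟨m, hm, hmi⟩ := hmem
      have := monomial_le_degreeOf i hm
      rw [hP] at this
      exact (Finsupp.mem_support_iff.1 hmi) (Nat.eq_zero_of_le_zero this))
  have hDz : eval z₀ D ≠ 0 := by
    rw [hfe, map_add, pderiv_mul, pderiv_X_self, hpd D hD, hpd E hE] at hd
    simpa using hd
  obtain ⟨N, R, hR, g, hg⟩ := tl_red D E f i hfe hD hE u
  let ψ : (σ → ℝ) → (σ → ℝ) := fun z => Function.update z i (-(eval z E) / eval z D)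
  have hψ0 : ψ z₀ = z₀ := by
    have : -(eval z₀ E) / eval z₀ D = z₀ i := by
      rw [hfe, map_add, map_mul, eval_X] at hfz
      rw [div_eq_iff hDz]
      linarith
    simp only [ψ, this, Function.update_eq_self]
  have hψc : ContinuousAt ψ z₀ := by
    apply ContinuousAt.update continuousAt_id
    exact ((tl_cont E).neg.continuousAt).div (tl_cont D).continuousAt hDz
  have hU' : ∀ᶠ z in nhds z₀, ψ z ∈ U := by
    apply hψc.eventually
    rw [hψ0]
    exact hU.mem_nhds hz₀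
  have hD' : ∀ᶠ z in nhds z₀, eval z D ≠ 0 := (tl_cont D).continuousAt.eventually_ne hDz
  have hR0 : R = 0 := by
    apply zero_of_nhds R z₀
    filter_upwards [hU', hD'] with z hz1 hz2
    have hf0 : eval (ψ z) f = 0 := by
      simp only [ψ]
      rw [hfe, map_add, map_mul, eval_X, tl_eval D i hD, tl_eval E i hE, Function.update_self]
      field_simp
      ring
    have h1 := congrArg (eval (ψ z)) hg
    rw [map_sub, map_mul, map_mul, hu _ hz1 hf0, hf0, mul_zero, zero_mul, zero_sub,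
      neg_eq_zero] at h1
    simp only [ψ] at h1
    rwa [tl_eval R i hR] at h1
  rw [hR0, sub_zero] at hg
  have hdvd : f ∣ D ^ N * u := ⟨g, hg⟩
  rcases hf.dvd_or_dvd hdvd with h1 | h1
  · exfalso
    obtain ⟨q, hq⟩ := hf.dvd_of_dvd_pow h1
    have hq0 : q ≠ 0 := by
      rintro rfl
      exact hD0 (by rw [hq, mul_zero])
    have h2 := degreeOf_mul_eq (n := i) hf.ne_zero hq0
    rw [← hq, hD, h] at h2
    omega
  · exact h1

theorem eval_sb {σ : Type*} (Φ : MvPolynomial σ ℝ) (x : σ → ℝ)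
    (u : MvPolynomial (Option σ) ℝ) : eval x (sb Φ u) = eval (pt x (eval x Φ)) u := by
  unfold sb
  induction u using MvPolynomial.induction_on with
  | C a => simp
  | add p q hp hq => rw [map_add, map_add, map_add, hp, hq]
  | mul_X p o hp =>
    rw [map_mul, map_mul, map_mul, hp, aeval_X, eval_X]
    cases o <;> simp [pt]

theorem gr_real_local {σ : Type*} [Fintype σ] (Φ : MvPolynomial σ ℝ) (U : Set (Option σ → ℝ))
    (hU : IsOpen U) (z₀ : Option σ → ℝ) (hz₀ : z₀ ∈ U) (hf : eval z₀ (gr Φ) = 0)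
    (u : MvPolynomial (Option σ) ℝ)
    (hu : ∀ z ∈ U, eval z (gr Φ) = 0 → eval z u = 0) : gr Φ ∣ u := by
  rw [gr_dvd]
  have hgr : ∀ x : σ → ℝ, eval (pt x (eval x Φ)) (gr Φ) = 0 := by
    intro x
    rw [← eval_sb, sb_gr, map_zero]
  let ψ : (σ → ℝ) → (Option σ → ℝ) := fun x => pt x (eval x Φ)
  have hψ : Continuous ψ := by
    apply continuous_pi
    intro o
    cases o with
    | none => exact tl_cont Φ
    | some i => exact continuous_apply i
  set x₀ : σ → ℝ := fun i => z₀ (some i) with hx₀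
  have h0 : ψ x₀ = z₀ := by
    funext o
    cases o with
    | none =>
      unfold gr at hf
      rw [map_sub, eval_X, eval_rename] at hf
      have : z₀ ∘ some = x₀ := rfl
      rw [this] at hf
      show eval x₀ Φ = z₀ none
      linarith
    | some i => rfl
  apply zero_of_nhds _ x₀
  have h1 : ∀ᶠ x in nhds x₀, ψ x ∈ U := by
    apply hψ.continuousAt.eventually
    rw [h0]
    exact hU.mem_nhds hz₀
  filter_upwards [h1] with x hx
  rw [eval_sb]
  exact hu _ hx (hgr x)

end Pool.Agent.MUL
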