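import Pool.Agent.MUL.FN
import Pool.Agent.MUL.TL
import Pool.Agent.MUL.IR

/-!
# FT: computation trees
-/

set_option autoImplicit false

namespace Pool.Agent.MUL

open MvPolynomial Finset
open Pool.Agent.H53.AC Pool.Agent.H10.PerSL

theorem tree_per {n : ℕ} (hn : 0 < n) {B : ℝ}
    (key : ∀ (P : MvPolynomial (Fin n × Fin n) ℝ) (r : ℕ),
        P ≠ 0 → perPoly n ℝ ∣ P → BorderReach P r → B ≤ r)
    (U A : Set (Fin n × Fin n → ℝ))
    (hU : U = Set.univ ∨ IsOpen U ∧ ∃ z ∈ U, eval z (perPoly n ℝ) = 0 ∧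
      ∃ q, eval z (pderiv q (perPoly n ℝ)) ≠ 0)
    (hA : A = {z | eval z (perPoly n ℝ) = 0} ∨
      ∀ z ∈ U, eval z (perPoly n ℝ) = 0 → z ∈ frontier A)
    {Ω : Type} [Fintype Ω] (w : Ω → ℝ) (T : Ω → CTree (Fin n × Fin n)) (D : ℕ)
    (hT : DecidesOn w T A U) (hD : ∀ ω, (T ω).depth ≤ D) : B ≤ 3 * D := by
  have hA' : ∀ z ∈ U, eval z (perPoly n ℝ) = 0 → z ∈ frontier A := by
    rcases hA with rfl | hA
    · exact fun z _ hz => zero_frontier _ (per_prime hn ℝ).ne_zero z hz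
    · exact hA
  have hUo : IsOpen U := by
    rcases hU with rfl | hU
    · exact isOpen_univ
    · exact hU.1
  obtain ⟨u, hu, hdvd, hr⟩ := tree_extract_on (perPoly n ℝ) (per_prime hn ℝ) U hUo (by
    rcases hU with rfl | ⟨_, z, hz, hz0, q, hq⟩
    · exact fun u hu => real_zeros (perPoly n ℝ) (⟨0, hn⟩, ⟨0, hn⟩) (per_degreeOf ℝ _)
        (per_prime hn ℝ) u (fun z hz => hu z (Set.mem_univ z) hz)
    · exact fun u hu => real_zeros_local (perPoly n ℝ) q (per_degreeOf ℝ _)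
        (per_prime hn ℝ) U hUo z hz hz0 hq u hu) w T A hT hA' D hD
  have := key u (3 * D) hu hdvd (br_of_reach hr)
  push_cast at this
  exact this

theorem tree_graph {n : ℕ} {B : ℝ}
    (key : ∀ (P : MvPolynomial (Option (Fin n × Fin n)) ℝ) (r : ℕ),
        P ≠ 0 → gr (perPoly n ℝ) ∣ P → BorderReach P r → B ≤ r)
    (U A : Set (Option (Fin n × Fin n) → ℝ))
    (hU : IsOpen U ∧ ∃ z ∈ U, eval z (gr (perPoly n ℝ)) = 0)
    (hA : A = {z | eval z (gr (perPoly n ℝ)) = 0} ∨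
      ∀ z ∈ U, eval z (gr (perPoly n ℝ)) = 0 → z ∈ frontier A)
    {Ω : Type} [Fintype Ω] (w : Ω → ℝ) (T : Ω → CTree (Option (Fin n × Fin n))) (D : ℕ)
    (hT : DecidesOn w T A U) (hD : ∀ ω, (T ω).depth ≤ D) : B ≤ 3 * D := by
  have hA' : ∀ z ∈ U, eval z (gr (perPoly n ℝ)) = 0 → z ∈ frontier A := by
    rcases hA with rfl | hA
    · exact fun z _ hz => zero_frontier _ (gr_prime _).ne_zero z hz
    · exact hA
  obtain ⟨hUo, z, hz, hz0⟩ := hU
  obtain ⟨u, hu, hdvd, hr⟩ := tree_extract_on (gr (perPoly n ℝ)) (gr_prime _) U hUo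
    (gr_real_local _ U hUo z hz hz0) w T A hT hA' D hD
  have := key u (3 * D) hu hdvd (br_of_reach hr)
  push_cast at this
  exact this

end Pool.Agent.MUL
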