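import Pool.Agent.MUL.GN

/-!
# GG (difficulty 3): the gadget for the graph `y = per_n(x)`

As `core2` in Pool/Agent/PerSL2/Final.lean: `full_gadget` with `m = 2 * d`, `k = d + 1` gives
`pm A = C s₀ + C (X ^ L) * (C (C c₁) * dsum) + C (X ^ (L + 1)) * Z`, `crit2` gives `b`, `cnt`, `S`.
Apply `general` with `K := AlgebraicClosure k`, `f := gr (perPoly n k)`,
`E := pt (fun q => rename some (pad e A (eR q.1) (eC q.2))) (C s₀ + C (X ^ L * C c₁) * X none)`,
`Φ := dsum + C (X * C c₁⁻¹) * Z`, `u := X ^ L * C c₁`. (`Entry` polynomials have total degree `≤ 1`.)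
-/

set_option autoImplicit false

namespace Pool.Agent.MUL

open MvPolynomial Finset
open scoped Nat
open Pool.Agent.H53.AC Pool.Agent.H10.PerSL Pool.Agent.PerSL2

universe u v w

private theorem gg_entry {V : Type} {K : Type u} [Field K] {p : MvPolynomial V (PowerSeries K)}
    (hp : Entry p) : p.totalDegree ≤ 1 := by
  rcases hp with ⟨s, rfl⟩ | ⟨s, v, rfl⟩
  · rw [totalDegree_C]
    exact Nat.zero_le _
  · refine (totalDegree_mul _ _).trans ?_
    rw [totalDegree_C, totalDegree_X, zero_add]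

private theorem gg_pad {Row Col V : Type} {K : Type u} [Field K] (e : ℕ)
    (A : Row → Col → MvPolynomial V (PowerSeries K)) (hA : ∀ r c, Entry (A r c)) (r : Row ⊕ Fin e)
    (c : Col ⊕ Fin e) : Entry (pad e A r c) := by
  rcases r with r | r <;> rcases c with c | c
  · exact hA r c
  · exact Entry_zero
  · exact Entry_zero
  · change Entry (if r = c then 1 else 0)
    split_ifs
    · exact Entry_one
    · exact Entry_zero

theorem mult_graph {n d g h τ : ℕ} (hd : 0 < d) (hτ : 0 < τ)
    (hn : g * (2 * d) + 2 * d + h * (2 * d + τ) + (2 * d + τ) + τ * (d + 1) ≤ n)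
    (k : Type u) [Field k] [CharZero k] (P : MvPolynomial (Option (Fin n × Fin n)) k)
    (hP : P ≠ 0) (hdvd : gr (perPoly n k) ∣ P) (r : ℕ) (hr : BorderReach P r) :
    ∃ cnt : ℕ, (2 * d)! ≤ cnt * 2 ^ d ∧ cnt ^ (g * h * τ) ≤ 2 ^ (3 * r) := by
  have : CharZero (AlgebraicClosure k) := charZero_of_injective_algebraMap
    (algebraMap k (AlgebraicClosure k)).injective
  have hprim : ∀ N : ℕ, 0 < N → ∃ ζ : AlgebraicClosure k, IsPrimitiveRoot ζ N := by
    intro N hN
    have : NeZero N := ⟨hN.ne'⟩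
    exact HasEnoughRootsOfUnity.exists_primitiveRoot _ _
  obtain ⟨ω, hω⟩ := hprim d hd
  obtain ⟨ζ, hζ⟩ := hprim (2 * d) (by omega)
  obtain ⟨ξ, hξ⟩ := hprim (2 * d + τ) (by omega)
  obtain ⟨η, hη⟩ := hprim (d + 1) (by omega)
  obtain ⟨Row, Col, i1, i2, i3, i4, A, s₀, c₁, L, Z, hRow, hCol, hEntry, hc1, hA⟩ :=
    full_gadget (K := AlgebraicClosure k) (g := g) (h := h) (τ := τ) (m := 2 * d) (k := d + 1)
      (by omega) hτ (by omega) hζ hξ hη
  obtain ⟨b, cnt, S, hcnt, hS, hcrit⟩ := crit2 hd hω (Fin g × Fin h × Fin τ)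
  refine ⟨cnt, hcnt, ?_⟩
  have hcardΩ : Fintype.card (Fin g × Fin h × Fin τ) = g * h * τ := by
    simp [mul_assoc]
  rw [hcardΩ] at hS
  rw [← hS]
  obtain ⟨e, he⟩ := Nat.exists_eq_add_of_le hn
  have hcR : Fintype.card (Row ⊕ Fin e) = n := by
    rw [Fintype.card_sum, hRow, Fintype.card_fin, he]
  have hcC : Fintype.card (Col ⊕ Fin e) = n := by
    rw [Fintype.card_sum, hCol, Fintype.card_fin, he]
  let eR : Fin n ≃ Row ⊕ Fin e := (Fintype.equivFinOfCardEq hcR).symm
  let eC : Fin n ≃ Col ⊕ Fin e := (Fintype.equivFinOfCardEq hcC).symm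
  let u : PowerSeries (AlgebraicClosure k) := PowerSeries.X ^ L * PowerSeries.C c₁
  have hu : u ≠ 0 := by
    refine mul_ne_zero (pow_ne_zero _ PowerSeries.X_ne_zero) ?_
    rw [Ne, map_eq_zero_iff _ PowerSeries.C_injective]
    exact hc1
  let Φ : MvPolynomial ((Fin g × Fin h × Fin τ) × Fin (2 * d))
      (PowerSeries (AlgebraicClosure k)) :=
    dsum (Fin g × Fin h × Fin τ) (Fin (2 * d)) (PowerSeries (AlgebraicClosure k)) (d + 1) +
      C (PowerSeries.X * PowerSeries.C c₁⁻¹) * Z
  let E : Option (Fin n × Fin n) →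
      MvPolynomial (Option ((Fin g × Fin h × Fin τ) × Fin (2 * d)))
        (PowerSeries (AlgebraicClosure k)) :=
    pt (fun q => rename some (pad e A (eR q.1) (eC q.2))) (C s₀ + C u * X none)
  have hE : ∀ i, (E i).totalDegree ≤ 1 := by
    rintro (_ | q)
    · change (C s₀ + C u * X none).totalDegree ≤ 1
      refine (totalDegree_add _ _).trans (max_le ?_ ?_)
      · rw [totalDegree_C]
        exact Nat.zero_le _
      · refine (totalDegree_mul _ _).trans ?_
        rw [totalDegree_C, totalDegree_X, zero_add]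
    · exact (totalDegree_rename_le _ _).trans (gg_entry (gg_pad e A hEntry _ _))
  have hfE : eval₂ ((C : PowerSeries (AlgebraicClosure k) →+* _).comp
      ((PowerSeries.C (R := AlgebraicClosure k)).comp (algebraMap k (AlgebraicClosure k)))) E
      (gr (perPoly n k)) = C u * gr Φ := by
    unfold gr
    rw [eval₂_sub, eval₂_X, eval₂_rename]
    have h1 : E ∘ some = fun q : Fin n × Fin n => rename some (pad e A (eR q.1) (eC q.2)) := rfl
    rw [h1]
    refine (congrArg (fun x => E none - x) (perPoly_eval₂ _ eR eC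
      (fun (a : Row ⊕ Fin e) (b : Col ⊕ Fin e) => (rename some (pad e A a b) :
        MvPolynomial (Option ((Fin g × Fin h × Fin τ) × Fin (2 * d)))
        (PowerSeries (AlgebraicClosure k)))))).trans ?_
    have h2 : (∑ σ : (Col ⊕ Fin e) ≃ (Row ⊕ Fin e), ∏ c, rename some (pad e A (σ c) c)) =
        (rename some (pm (pad e A)) : MvPolynomial (Option ((Fin g × Fin h × Fin τ) × Fin (2 * d)))
        (PowerSeries (AlgebraicClosure k))) := by
      unfold pm
      rw [map_sum]
      exact Finset.sum_congr rfl fun σ _ => (map_prod _ _ _).symm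
    rw [h2, pm_pad e A (hRow.trans hCol.symm), hA]
    change (C s₀ + C u * X none) - _ = _
    have h3 : u * (PowerSeries.X * PowerSeries.C c₁⁻¹) = PowerSeries.X ^ (L + 1) := by
      have h4 : PowerSeries.C c₁ * PowerSeries.C c₁⁻¹ = (1 : PowerSeries (AlgebraicClosure k)) := by
        rw [← map_mul, mul_inv_cancel₀ hc1, map_one]
      calc u * (PowerSeries.X * PowerSeries.C c₁⁻¹)
          = PowerSeries.X ^ L * PowerSeries.X * (PowerSeries.C c₁ * PowerSeries.C c₁⁻¹) := by
            simp only [u]; ring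
        _ = PowerSeries.X ^ (L + 1) := by rw [h4, mul_one, pow_succ]
    have h5 : C u * rename some Φ = rename some (C (PowerSeries.X ^ L) *
        (C (PowerSeries.C c₁) * dsum (Fin g × Fin h × Fin τ) (Fin (2 * d))
          (PowerSeries (AlgebraicClosure k)) (d + 1)) +
        C (PowerSeries.X ^ (L + 1)) * Z) := by
      rw [← h3]
      simp only [Φ, u, map_add, map_mul, rename_C]
      ring
    rw [mul_sub, h5]
    simp only [map_add, map_mul, rename_C]
    ring
  have hred : map (PowerSeries.constantCoeff (R := AlgebraicClosure k)) Φ =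
      dsum (Fin g × Fin h × Fin τ) (Fin (2 * d)) (AlgebraicClosure k) (d + 1) := by
    simp only [Φ, map_add, map_mul, map_C, PowerSeries.constantCoeff_X, C_0, zero_mul, add_zero]
    rw [map_dsum]
  refine general P (gr (perPoly n k)) hP hdvd E hE Φ u hu hfE (fun _ => b) S ?_ r hr
  intro p hp
  obtain ⟨hp1, hp2⟩ := hcrit p hp
  rw [hred]
  exact ⟨hp1, hp2⟩

end Pool.Agent.MUL
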