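import Pool.Agent.MUL.Defs

/-!
# LD (difficulty 3): leading forms and factorisation

* `sb_gr`: `sb Φ (gr Φ) = 0`.
* `gr_dvd`: `gr Φ ∣ p ↔ sb Φ p = 0`. (`→` clear. `←`: for every `p`, `gr Φ ∣ p - rename some (sb Φ p)`:
  induction on `p`; for `X none` it is `gr Φ` itself, for `X (some i)` it is `0`, products:
  `pq - p'q' = p (q - q') + (p - p') q'`.)
* `gr_prime`: `gr Φ ≠ 0` (e.g. `sb (Φ + 1) (gr Φ) = 1`), not a unit (`sb Φ` would map a unit to `0`), and
  `gr_dvd` with `MvPolynomial τ F` a domain.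
* `factor`: the multiplicity of the prime `gr Φ` in `p ≠ 0` is finite (the ring is a UFD; or:
  `FiniteMultiplicity.of_prime_left`/`of_not_isUnit`, `FiniteMultiplicity.exists_eq_pow_mul_and_not_dvd`).
* `lead`: choose `z₀ : σ → F` with `eval z₀ P ≠ 0` (`MvPolynomial.funext`, `F` infinite) and
  `W i = z₀ i - eval 0 (E i)`. Let `s = Polynomial.X`, `A = MvPolynomial (Option τ) F`,
  `ev i = C (E i) + s * C (C (W i)) : Polynomial A`. `aeval ev P ≠ 0`: evaluate at `s = 1` and then at the point `0`: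
  this gives `eval z₀ P`. Write `P = f * g`; `aeval ev f = C (C κ * gr Φ) + s * R₁` (evaluate at `s = 0`).
  `aeval ev g = s ^ m * G'` with `G'` not divisible by `s`, i.e. `G'.coeff 0 ≠ 0`
  (`Polynomial.exists_eq_pow_rootMultiplicity_mul_and_not_dvd` at `0`, or `Polynomial.natTrailingDegree`).
  Then `aeval ev P = s ^ m * (C (C κ * gr Φ) + s R₁) * G' = s ^ m * (C p₀ + s * R)` with
  `p₀ = C κ * gr Φ * G'.coeff 0 ≠ 0`; apply `factor` to `p₀`.
-/

set_option autoImplicit false

namespace Pool.Agent.MUL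

open MvPolynomial Finset
open Pool.Agent.H53.AC Pool.Agent.H10.PerSL

universe u v w

variable {F : Type u} [Field F] {τ : Type v}

private theorem LD_sb_none (Φ : MvPolynomial τ F) : sb Φ (X none) = Φ := by
  simp [sb, pt]

private theorem LD_sb_some (Φ : MvPolynomial τ F) (i : τ) : sb Φ (X (some i)) = X i := by
  simp [sb, pt]

private theorem LD_sb_rename (Φ p : MvPolynomial τ F) : sb Φ (rename some p) = p := by
  rw [sb, aeval_rename]
  have h : (pt X Φ ∘ some : τ → MvPolynomial τ F) = X := by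
    funext i
    simp [pt]
  rw [h]
  exact aeval_X_left_apply p

theorem sb_gr (Φ : MvPolynomial τ F) : sb Φ (gr Φ) = 0 := by
  rw [gr, map_sub, LD_sb_none, LD_sb_rename, sub_self]

theorem gr_dvd (Φ : MvPolynomial τ F) (p : MvPolynomial (Option τ) F) :
    gr Φ ∣ p ↔ sb Φ p = 0 := by
  have key : ∀ p : MvPolynomial (Option τ) F, gr Φ ∣ p - rename some (sb Φ p) := by
    intro p
    induction p using MvPolynomial.induction_on with
    | C a => simp [sb]
    | add p q hp hq =>
      have h : p + q - rename some (sb Φ (p + q)) =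
          (p - rename some (sb Φ p)) + (q - rename some (sb Φ q)) := by
        rw [map_add, map_add]
        ring
      rw [h]
      exact dvd_add hp hq
    | mul_X p i hp =>
      have h : p * X i - rename some (sb Φ (p * X i)) =
          (p - rename some (sb Φ p)) * X i +
            rename some (sb Φ p) * (X i - rename some (sb Φ (X i))) := by
        rw [map_mul, map_mul]
        ring
      rw [h]
      refine dvd_add (Dvd.dvd.mul_right hp _) (Dvd.dvd.mul_left ?_ _)
      cases i with
      | none => rw [LD_sb_none]; exact dvd_of_eq rfl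
      | some i => rw [LD_sb_some, rename_X, sub_self]; exact dvd_zero _
  constructor
  · rintro ⟨q, rfl⟩
    rw [map_mul, sb_gr, zero_mul]
  · intro h
    have := key p
    rwa [h, map_zero, sub_zero] at this

theorem gr_prime (Φ : MvPolynomial τ F) : Prime (gr Φ) := by
  refine ⟨?_, ?_, ?_⟩
  · intro h
    have h1 : sb (Φ + 1) (gr Φ) = 1 := by
      rw [gr, map_sub, LD_sb_none, LD_sb_rename]
      ring
    rw [h, map_zero] at h1
    exact zero_ne_one h1
  · intro h
    have h1 := h.map (sb Φ)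
    rw [sb_gr] at h1
    exact not_isUnit_zero h1
  · intro a b h
    rw [gr_dvd, map_mul, mul_eq_zero] at h
    rwa [gr_dvd, gr_dvd]

theorem factor (Φ : MvPolynomial τ F) (p : MvPolynomial (Option τ) F) (hp : p ≠ 0)
    (h : gr Φ ∣ p) : ∃ (a : ℕ) (Q : MvPolynomial (Option τ) F), 0 < a ∧ p = gr Φ ^ a * Q ∧
      sb Φ Q ≠ 0 := by
  have hf : FiniteMultiplicity (gr Φ) p :=
    FiniteMultiplicity.of_not_isUnit (gr_prime Φ).not_isUnit hp
  obtain ⟨c, hc, hc2⟩ := hf.exists_eq_pow_mul_and_not_dvd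
  refine ⟨multiplicity (gr Φ) p, c, ?_, hc, fun h0 => hc2 ((gr_dvd Φ c).2 h0)⟩
  rcases Nat.eq_zero_or_pos (multiplicity (gr Φ) p) with h0 | h0
  · rw [h0, pow_zero, one_mul] at hc
    rw [hc] at h
    exact absurd h hc2
  · exact h0

theorem lead [Infinite F] {σ : Type w} (P f : MvPolynomial σ F) (hP : P ≠ 0) (hf : f ∣ P)
    (E : σ → MvPolynomial (Option τ) F) (Φ : MvPolynomial τ F) {κ : F} (hκ : κ ≠ 0)
    (hfE : aeval E f = C κ * gr Φ) :
    ∃ (W : σ → F) (m a : ℕ) (Q : MvPolynomial (Option τ) F)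
      (R : Polynomial (MvPolynomial (Option τ) F)), 0 < a ∧ sb Φ Q ≠ 0 ∧
      aeval (fun i => Polynomial.C (E i) + Polynomial.X * Polynomial.C (C (W i))) P =
        Polynomial.X ^ m * (Polynomial.C (gr Φ ^ a * Q) + Polynomial.X * R) := by
  obtain ⟨z0, hz0⟩ : ∃ z0 : σ → F, eval z0 P ≠ 0 := by
    by_contra hn
    push Not at hn
    exact hP (MvPolynomial.funext fun x => by rw [hn x, map_zero])
  set W : σ → F := fun i => z0 i - eval (0 : Option τ → F) (E i) with hW
  set ev : σ → Polynomial (MvPolynomial (Option τ) F) :=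
    fun i => Polynomial.C (E i) + Polynomial.X * Polynomial.C (C (W i)) with hev
  -- evaluation at `s = 1` and then at the point `0`
  let φ : Polynomial (MvPolynomial (Option τ) F) →ₐ[F] F :=
    (MvPolynomial.aeval (0 : Option τ → F)).comp
      ((Polynomial.aeval (1 : MvPolynomial (Option τ) F)).restrictScalars F)
  have hφ : φ.comp (aeval ev) = aeval z0 := by
    apply MvPolynomial.algHom_ext
    intro i
    have h1 : eval (0 : Option τ → F) (E i) = aeval (0 : Option τ → F) (E i) := by
      rw [MvPolynomial.aeval_eq_eval]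
    simp only [AlgHom.comp_apply, aeval_X, hev, φ, AlgHom.restrictScalars_apply, map_add,
      map_mul, Polynomial.aeval_C, Polynomial.aeval_X, Algebra.algebraMap_self, RingHom.id_apply,
      hW, h1]
    have h2 : aeval (0 : Option τ → F) (C (z0 i - aeval (0 : Option τ → F) (E i))) =
        z0 i - aeval (0 : Option τ → F) (E i) := by
      rw [← MvPolynomial.algebraMap_eq, AlgHom.commutes]
      rfl
    rw [h2, map_one]
    ring
  have hP1 : aeval ev P ≠ 0 := by
    intro h0
    have h1 := DFunLike.congr_fun hφ P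
    rw [AlgHom.comp_apply, h0, map_zero] at h1
    apply hz0
    rw [← MvPolynomial.aeval_eq_eval]
    exact h1.symm
  -- the constant coefficient
  let ψ : Polynomial (MvPolynomial (Option τ) F) →ₐ[F] MvPolynomial (Option τ) F :=
    (Polynomial.aeval (0 : MvPolynomial (Option τ) F)).restrictScalars F
  have hψ0 : ∀ q, ψ q = q.coeff 0 := by
    intro q
    show Polynomial.aeval (0 : MvPolynomial (Option τ) F) q = q.coeff 0
    rw [Polynomial.coe_aeval_eq_eval, Polynomial.coeff_zero_eq_eval_zero]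
  have hψ : ψ.comp (aeval ev) = aeval E := by
    apply MvPolynomial.algHom_ext
    intro i
    rw [AlgHom.comp_apply, aeval_X, aeval_X, hψ0]
    simp [hev]
  obtain ⟨g, rfl⟩ := hf
  have hfg : aeval ev (f * g) = aeval ev f * aeval ev g := map_mul _ _ _
  have hg1 : aeval ev g ≠ 0 := by
    intro h0
    apply hP1
    rw [hfg, h0, mul_zero]
  have hf0 : (aeval ev f).coeff 0 = C κ * gr Φ := by
    rw [← hψ0, ← hfE, ← hψ]
    rfl
  obtain ⟨G, hG, hG0⟩ := Polynomial.exists_eq_pow_rootMultiplicity_mul_and_not_dvd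
    (aeval ev g) hg1 0
  rw [map_zero, sub_zero] at hG hG0
  rw [Polynomial.X_dvd_iff] at hG0
  have hκ' : (C κ : MvPolynomial (Option τ) F) ≠ 0 := by
    rw [Ne, MvPolynomial.C_eq_zero]
    exact hκ
  have hp0 : C κ * gr Φ * G.coeff 0 ≠ 0 :=
    mul_ne_zero (mul_ne_zero hκ' (gr_prime Φ).ne_zero) hG0
  obtain ⟨a, Q, ha, hQ, hQ0⟩ := factor Φ _ hp0 ⟨C κ * G.coeff 0, by ring⟩
  refine ⟨W, (aeval ev g).rootMultiplicity 0, a, Q,
    (aeval ev f).divX * G + Polynomial.C (C κ * gr Φ) * G.divX, ha, hQ0, ?_⟩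
  show aeval ev (f * g) = _
  have e1 := Polynomial.divX_mul_X_add (aeval ev f)
  have e2 := Polynomial.divX_mul_X_add G
  rw [hf0] at e1
  rw [hfg, ← hQ]
  generalize (aeval ev g).rootMultiplicity 0 = m at hG ⊢
  rw [hG, map_mul Polynomial.C (C κ * gr Φ) (G.coeff 0)]
  generalize hA : Polynomial.C (G.coeff 0) = c at e2 ⊢
  generalize hB : Polynomial.C (C κ * gr Φ) = b at e1 ⊢
  generalize aeval ev f = f1 at *
  linear_combination (-Polynomial.X ^ m * G) * e1 - (Polynomial.X ^ m * b) * e2

end Pool.Agent.MUL
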