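import Pool.Agent.MUL.PA

/-!
# PB (difficulty 4): moving the tangent direction

Let `J_p` be the Hessian matrix of `Φ` at `p ∈ S` (invertible), `h_p` the form of `low_form H hH p`.
The polynomial `h_p (J_p⁻¹ Y)` in `Y` is not `0` (an invertible linear substitution: substitute `Y = J_p X` back).
The product over `p ∈ S` is not `0`, so there is `c : τ → F₁` with `eval (J_p⁻¹ c) h_p ≠ 0` for all `p ∈ S`
(`MvPolynomial.funext`, `F₁` infinite).
Hensel (`hensel`) for `F i = map C (pderiv i Φ) - C (C (b i) + X * C (c i))` at `p`: `q_p : τ → F₁[[X]]`,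
`constantCoeff (q_p i) = p i`. Let `v j = coeff 1 (q_p j)`; `first_order` applied to `F i (q_p) = 0` gives
`∑ j, v j * (∂_j ∂_i Φ) (p) = c i`, i.e. `v = J_p⁻¹ c` (`J_p` is symmetric: `pderiv` commute; or use the matrix in the
orientation in which it occurs in `hensel` and define things with that one). Write `q_p i = C (p i) + X * w i`,
`constantCoeff (w i) = v i`: `low_form` gives `eval q_p (map C H) = X ^ j * (eval w h_p + X B)`, and the constant
coefficient of `eval w (map C h_p)` is `eval v h_p ≠ 0`. So `eval q_p (map C H) ≠ 0`; map to `F₂` (`hinj`).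
`b' i = ι (C (b i) + X * C (c i))`, `T = image of S under p ↦ ι ∘ q_p` (injective on `S` by the constant coefficients).
The Hessian determinant at `ι ∘ q_p` is `ι` of a power series with nonzero constant coefficient.
(The end of `degree_bound` in Pool/Agent/H10/PerSL/Degree.lean has the same kind of computation.)

`lift` (the same with coefficients in `K[[X]]` instead of the direction moved) is a part of the proof of
`degree_bound`: Hensel for `pderiv i Φ - C (C (b i))`.
-/

set_option autoImplicit false

namespace Pool.Agent.MUL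

open MvPolynomial Finset
open Pool.Agent.H53.AC Pool.Agent.H10.PerSL

universe u v w

variable {τ : Type v} [Fintype τ] [DecidableEq τ]

/-- Hensel lifting of the critical points -/
private theorem pb_lift {K : Type u} [Field K] (Φ : MvPolynomial τ (PowerSeries K))
    (β : τ → PowerSeries K) (S : Finset (τ → K))
    (hS : Good (map (PowerSeries.constantCoeff (R := K)) Φ)
      (fun i => PowerSeries.constantCoeff (β i)) S) :
    ∃ q : (τ → K) → τ → PowerSeries K, ∀ p ∈ S, (∀ i, eval (q p) (pderiv i Φ) = β i) ∧
      ∀ i, PowerSeries.constantCoeff (q p i) = p i := by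
  classical
  have hlift : ∀ p : τ → K, ∃ q : τ → PowerSeries K, p ∈ S →
      ((∀ i, eval q (pderiv i Φ) = β i) ∧ (∀ i, PowerSeries.constantCoeff (q i) = p i)) := by
    intro p
    by_cases hp : p ∈ S
    · obtain ⟨h1, h2⟩ := hS p hp
      obtain ⟨q, hq1, hq2⟩ := hensel (fun i => pderiv i Φ - C (β i)) p (fun i => by
        rw [map_sub, map_C, map_sub, eval_C, ← pderiv_map]
        exact sub_eq_zero.2 (h1 i)) (by
        convert h2 using 3
        ext i j
        rw [map_sub, map_C, map_sub, pderiv_C, sub_zero, ← pderiv_map])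
      refine ⟨q, fun _ => ⟨fun i => ?_, hq2⟩⟩
      have := hq1 i
      rw [map_sub, eval_C] at this
      exact sub_eq_zero.1 this
    · exact ⟨0, fun h => absurd h hp⟩
  choose q hq using hlift
  exact ⟨q, hq⟩

private theorem pb_eval {K : Type u} [Field K] {F₁ : Type u} [Field F₁] (ι : PowerSeries K →+* F₁)
    (q : τ → PowerSeries K) (f : MvPolynomial τ (PowerSeries K)) :
    eval (fun i => ι (q i)) (map ι f) = ι (eval q f) := by
  rw [eval_map, eval₂_comp]
  rfl

private theorem pb_good {K : Type u} [Field K] {F₁ : Type u} [Field F₁]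
    (ι : PowerSeries K →+* F₁) (hinj : Function.Injective ι)
    (Φ : MvPolynomial τ (PowerSeries K)) (β : τ → PowerSeries K) (S : Finset (τ → K))
    (hS : Good (map (PowerSeries.constantCoeff (R := K)) Φ)
      (fun i => PowerSeries.constantCoeff (β i)) S)
    (q : (τ → K) → τ → PowerSeries K)
    (hq : ∀ p ∈ S, (∀ i, eval (q p) (pderiv i Φ) = β i) ∧
      ∀ i, PowerSeries.constantCoeff (q p i) = p i) (T : Finset (τ → F₁))
    (hT : ∀ z, z ∈ T ↔ ∃ p ∈ S, (fun i => ι (q p i)) = z) :
    T.card = S.card ∧ Good (map ι Φ) (fun i => ι (β i)) T := by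
  classical
  have hT' : T = S.image fun p => fun i => ι (q p i) := by
    ext z
    rw [hT, Finset.mem_image]
  constructor
  · rw [hT', Finset.card_image_of_injOn]
    intro p hp p' hp' h
    funext i
    rw [← (hq p hp).2 i, ← (hq p' hp').2 i]
    have := hinj (congrFun h i)
    rw [this]
  · intro z hz
    obtain ⟨p, hp, rfl⟩ := (hT z).1 hz
    constructor
    · intro i
      rw [pderiv_map, pb_eval, (hq p hp).1 i]
    · have h1 : (Matrix.of fun i j => eval (fun i => ι (q p i)) (pderiv j (pderiv i (map ι Φ)))) =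
          ι.mapMatrix (Matrix.of fun i j => eval (q p) (pderiv j (pderiv i Φ))) := by
        ext i j
        simp only [Matrix.of_apply, RingHom.mapMatrix_apply, Matrix.map_apply]
        rw [pderiv_map, pderiv_map, pb_eval]
      rw [h1, ← RingHom.map_det, Ne, map_eq_zero_iff ι hinj]
      intro h0
      have h2 := congrArg (PowerSeries.constantCoeff (R := K)) h0
      rw [RingHom.map_det, map_zero] at h2
      apply (hS p hp).2
      convert h2 using 2
      ext i j
      simp only [Matrix.of_apply, RingHom.mapMatrix_apply, Matrix.map_apply]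
      rw [constantCoeff_eval, pderiv_map, pderiv_map]
      congr 1
      congr 1
      funext i'
      exact ((hq p hp).2 i').symm

theorem lift {K : Type u} [Field K] {F₁ : Type u} [Field F₁] [Algebra (PowerSeries K) F₁]
    (hinj : Function.Injective (algebraMap (PowerSeries K) F₁))
    (Φ : MvPolynomial τ (PowerSeries K)) (b : τ → K) (S : Finset (τ → K))
    (hS : Good (map (PowerSeries.constantCoeff (R := K)) Φ) b S) :
    ∃ (b' : τ → F₁) (T : Finset (τ → F₁)), T.card = S.card ∧
      Good (map (algebraMap (PowerSeries K) F₁) Φ) b' T := by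
  classical
  have hS' : Good (map (PowerSeries.constantCoeff (R := K)) Φ)
      (fun i => PowerSeries.constantCoeff (PowerSeries.C (b i))) S := by
    simpa only [PowerSeries.constantCoeff_C] using hS
  obtain ⟨q, hq⟩ := pb_lift Φ (fun i => PowerSeries.C (b i)) S hS'
  obtain ⟨h1, h2⟩ := pb_good (algebraMap (PowerSeries K) F₁) hinj Φ (fun i => PowerSeries.C (b i)) S
    hS' q hq (S.image fun p => fun i => algebraMap (PowerSeries K) F₁ (q p i)) (fun z => by
      rw [Finset.mem_image])
  exact ⟨_, _, h1, h2⟩

theorem perturb {F₁ : Type u} [Field F₁] [Infinite F₁] {F₂ : Type u} [Field F₂]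
    [Algebra (PowerSeries F₁) F₂] (hinj : Function.Injective (algebraMap (PowerSeries F₁) F₂))
    (Φ : MvPolynomial τ F₁) (b : τ → F₁) (S : Finset (τ → F₁)) (hS : Good Φ b S)
    (H : MvPolynomial τ F₁) (hH : H ≠ 0) :
    ∃ (b' : τ → F₂) (T : Finset (τ → F₂)), T.card = S.card ∧
      Good (map (cst F₁ F₂) Φ) b' T ∧ ∀ z ∈ T, eval z (map (cst F₁ F₂) H) ≠ 0 := by
  classical
  -- the forms
  choose jj h hh0 hh using fun p : τ → F₁ => low_form H hH p
  let J : (τ → F₁) → Matrix τ τ F₁ := fun p =>
    Matrix.of fun i j => eval p (pderiv j (pderiv i Φ))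
  let g : (τ → F₁) → MvPolynomial τ F₁ := fun p =>
    aeval (fun j => ∑ k, C ((J p)⁻¹ j k) * X k) (h p)
  have hg : ∀ p c, eval c (g p) = eval ((J p)⁻¹.mulVec c) (h p) := by
    intro p c
    show eval c (aeval (fun j => ∑ k, C ((J p)⁻¹ j k) * X k) (h p)) = _
    rw [← aeval_eq_eval', ← aeval_eq_eval']
    change ((aeval c).comp (aeval (fun j => ∑ k, C ((J p)⁻¹ j k) * X k))) (h p) = _
    rw [comp_aeval]
    congr 2
    funext i
    simp only [map_sum, map_mul, aeval_X, Matrix.mulVec, dotProduct]
    refine Finset.sum_congr rfl fun k _ => ?_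
    rw [aeval_C]
    rfl
  have hg0 : ∀ p ∈ S, g p ≠ 0 := by
    intro p hp h0
    have hdet : IsUnit (J p).det := isUnit_iff_ne_zero.2 (hS p hp).2
    apply hh0 p
    apply MvPolynomial.funext
    intro v
    have h1 := hg p ((J p).mulVec v)
    rw [h0, map_zero, Matrix.mulVec_mulVec, Matrix.nonsing_inv_mul _ hdet, Matrix.one_mulVec] at h1
    rw [← h1, map_zero]
  obtain ⟨c, hc⟩ : ∃ c : τ → F₁, eval c (∏ p ∈ S, g p) ≠ 0 := by
    by_contra hcon
    push Not at hcon
    refine (Finset.prod_ne_zero_iff.2 hg0) (MvPolynomial.funext fun v => ?_)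
    rw [hcon v, map_zero]
  rw [map_prod, Finset.prod_ne_zero_iff] at hc
  -- the lifting
  set Φ' : MvPolynomial τ (PowerSeries F₁) := map (PowerSeries.C (R := F₁)) Φ with hΦ'
  set β : τ → PowerSeries F₁ := fun i => PowerSeries.C (b i) + PowerSeries.X * PowerSeries.C (c i)
    with hβ
  have hcc : map (PowerSeries.constantCoeff (R := F₁)) Φ' = Φ := by
    rw [hΦ', MvPolynomial.map_map]
    have : (PowerSeries.constantCoeff (R := F₁)).comp (PowerSeries.C (R := F₁)) = RingHom.id F₁ := by
      ext x
      simp
    rw [this, map_id]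
  have hβ0 : ∀ i, PowerSeries.constantCoeff (β i) = b i := by
    intro i
    simp [hβ]
  have hβ1 : ∀ i, PowerSeries.coeff 1 (β i) = c i := by
    intro i
    simp [hβ, PowerSeries.coeff_C, PowerSeries.coeff_succ_X_mul 0]
  have hS' : Good (map (PowerSeries.constantCoeff (R := F₁)) Φ')
      (fun i => PowerSeries.constantCoeff (β i)) S := by
    rw [hcc]
    simpa only [hβ0] using hS
  obtain ⟨q, hq⟩ := pb_lift Φ' β S hS'
  set ι := algebraMap (PowerSeries F₁) F₂ with hι
  obtain ⟨h1, h2⟩ := pb_good ι hinj Φ' β S hS' q hq (S.image fun p => fun i => ι (q p i))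
    (fun z => by rw [Finset.mem_image])
  have hmap : ∀ G : MvPolynomial τ F₁, map ι (map (PowerSeries.C (R := F₁)) G) =
      map (cst F₁ F₂) G := by
    intro G
    rw [MvPolynomial.map_map]
    rfl
  refine ⟨fun i => ι (β i), _, h1, ?_, ?_⟩
  · rw [hΦ', hmap] at h2
    exact h2
  · intro z hz
    obtain ⟨p, hp, rfl⟩ := Finset.mem_image.1 hz
    rw [← hmap, pb_eval, Ne, map_eq_zero_iff ι hinj]
    obtain ⟨hq1, hq2⟩ := hq p hp
    let w : τ → PowerSeries F₁ := fun i => PowerSeries.mk fun k => PowerSeries.coeff (k + 1) (q p i)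
    have hqw : q p = fun i => PowerSeries.C (p i) + PowerSeries.X * w i := by
      funext i
      conv_lhs => rw [PowerSeries.eq_X_mul_shift_add_const (q p i)]
      rw [hq2 i, add_comm]
    obtain ⟨B, hB⟩ := hh p w
    rw [← hqw] at hB
    rw [hB]
    refine mul_ne_zero (pow_ne_zero _ PowerSeries.X_ne_zero) fun h0 => ?_
    have h3 := congrArg (PowerSeries.constantCoeff (R := F₁)) h0
    rw [map_add, map_mul, PowerSeries.constantCoeff_X, zero_mul, add_zero, map_zero,
      constantCoeff_eval, MvPolynomial.map_map] at h3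
    have hid : (PowerSeries.constantCoeff (R := F₁)).comp (PowerSeries.C (R := F₁)) =
        RingHom.id F₁ := by
      ext x
      simp
    rw [hid, map_id] at h3
    have hv : (fun i => PowerSeries.constantCoeff (w i)) = (J p)⁻¹.mulVec c := by
      have hdet : IsUnit (J p).det := isUnit_iff_ne_zero.2 (hS p hp).2
      have h4 : (J p).mulVec (fun i => PowerSeries.constantCoeff (w i)) = c := by
        funext i
        have h5 := first_order (pderiv i Φ) (q p)
        have h6 := hq1 i
        rw [hΦ', pderiv_map] at h6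
        rw [h6, hβ1] at h5
        rw [h5]
        simp only [Matrix.mulVec, dotProduct, J, Matrix.of_apply]
        refine Finset.sum_congr rfl fun j _ => ?_
        have e1 : PowerSeries.constantCoeff (w j) = PowerSeries.coeff 1 (q p j) := by
          rw [← PowerSeries.coeff_zero_eq_constantCoeff_apply, PowerSeries.coeff_mk]
        have e2 : (fun i => PowerSeries.constantCoeff (q p i)) = p := funext hq2
        rw [e1, e2, mul_comm]
      rw [← h4, Matrix.mulVec_mulVec, Matrix.nonsing_inv_mul _ hdet, Matrix.one_mulVec]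
    rw [hv, ← hg] at h3
    exact hc p hp h3

end Pool.Agent.MUL
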