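import Pool.Agent.MUL.BR
import Pool.Agent.MUL.LD
import Pool.Agent.MUL.PB
import Pool.Agent.MUL.CC

/-!
# GN (difficulty 4): the general bound for multiples of `f`

`F₁`, `F₂`, `F₃` = algebraic closures of the fraction fields of `K[[t]]`, `F₁[[t]]`, `F₂[[t]]` (`Algebra (PowerSeries F) F'` with
`AlgebraicClosure (FractionRing (PowerSeries F))`: the instance through the scalar tower exists, injective).
1. `lift`: `Φ₁ := map ι₁ Φ` over `F₁`, points `T₁`, `T₁.card = S.card`, `Good Φ₁ b₁ T₁`.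
2. `lead` over `F₁` for `P₁ := map (k → F₁) P`, `f₁`, `E₁ i := map ι₁ (E i)`, `κ = ι₁ u`: `W, m, a, Q, R`.
   (`hfE` mapped by `map ι₁`: `aeval E₁ f₁ = C κ * gr Φ₁`.)
3. `perturb` with `H = sb Φ₁ Q`: `b₂`, `T₂` over `F₂`; `Φ₂ := map (cst F₁ F₂) Φ₁`, `Q₂ := map (cst F₁ F₂) Q`,
   `sb Φ₂ Q₂ = map (cst F₁ F₂) (sb Φ₁ Q)`.
4. `border_subst'` with `K := F₂`, `L := F₃`, `k` (algebra `k → F₂` by composition; give it locally with `RingHom.toAlgebra`),
   `E' i := map (C ∘ cst) (E₁ i) + C (X ^ (a+1) * C (cst (W i)))` (as polynomials over `F₂[[X]]`), `e := (m + 1) * (a + 1)`.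
   `hE`: `E₁ i` has total degree `≤ 1`, use `deg_affine`.
   Apply to the identity of `lead` the ring homomorphism `Polynomial (MvPolynomial (Option τ) F₁) → MvPolynomial (Option τ) (F₂[[X]])`
   that maps `s` to `C (X ^ (a+1))` and coefficients by `map (C ∘ cst)`: `eval₂ .. E' P = X ^ (m (a+1)) * (mc (gr Φ₂ ^ a * Q₂) + X ^ (a+1) * R')`.
   So the element of `V` is `ι₃ (X ^ (m (a+1))) * map ι₃ (pp Φ₂ Q₂ a Z)` with `Z = R' + G`; divide by the scalar.
5. `core_bound`.
-/

set_option autoImplicit false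

namespace Pool.Agent.MUL

open MvPolynomial Finset
open Pool.Agent.H53.AC Pool.Agent.H10.PerSL

universe u v w

/-- an algebraically closed field that contains the power series over a field -/
private theorem GN_closure (F : Type u) [Field F] [CharZero F] :
    ∃ (F' : Type u) (_ : Field F') (_ : Algebra (PowerSeries F) F'),
      Function.Injective (algebraMap (PowerSeries F) F') ∧ IsAlgClosed F' ∧ CharZero F' := by
  let A := AlgebraicClosure (FractionRing (PowerSeries F))
  let φ : PowerSeries F →+* A := (algebraMap (FractionRing (PowerSeries F)) A).comp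
    (algebraMap (PowerSeries F) (FractionRing (PowerSeries F)))
  have hφ : Function.Injective φ :=
    (algebraMap (FractionRing (PowerSeries F)) A).injective.comp (IsFractionRing.injective _ _)
  refine ⟨A, inferInstance, φ.toAlgebra, hφ, inferInstance, ?_⟩
  exact charZero_of_injective_ringHom (f := φ.comp (PowerSeries.C (R := F)))
    (hφ.comp PowerSeries.C_injective)

private theorem GN_deg {R : Type u} {R' : Type w} [CommRing R] [CommRing R'] {τ : Type v}
    (f : R →+* R') (p : MvPolynomial τ R) : (map f p).totalDegree ≤ p.totalDegree :=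
  Finset.sup_mono (support_map_subset f p)

private theorem GN_map_gr {R : Type u} {R' : Type w} [CommRing R] [CommRing R'] {τ : Type v}
    (f : R →+* R') (Φ : MvPolynomial τ R) : map f (gr Φ) = gr (map f Φ) := by
  simp [gr, map_rename]

private theorem GN_map_sb {R : Type u} {R' : Type w} [CommRing R] [CommRing R'] {τ : Type v}
    (f : R →+* R') (Φ : MvPolynomial τ R) (Q : MvPolynomial (Option τ) R) :
    sb (map f Φ) (map f Q) = map f (sb Φ Q) := by
  unfold sb
  rw [aeval_def, eval₂_map, aeval_def, ← coe_eval₂Hom, ← coe_eval₂Hom]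
  change _ = ((map f).comp (eval₂Hom _ _)) Q
  congr 1
  refine MvPolynomial.ringHom_ext (fun r => ?_) fun o => ?_
  · simp
  · rcases o with _ | i <;> simp [pt]

private theorem GN_core {k : Type u} [Field k] {K : Type u} [Field K] [Algebra k K]
    {F₁ : Type u} [Field F₁] [Algebra (PowerSeries K) F₁] [Infinite F₁]
    (h₁ : Function.Injective (algebraMap (PowerSeries K) F₁))
    {F₂ : Type u} [Field F₂] [Algebra (PowerSeries F₁) F₂] [IsAlgClosed F₂] [CharZero F₂]
    (h₂ : Function.Injective (algebraMap (PowerSeries F₁) F₂))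
    {F₃ : Type u} [Field F₃] [Algebra (PowerSeries F₂) F₃]
    (h₃ : Function.Injective (algebraMap (PowerSeries F₂) F₃))
    {σ : Type w} {τ : Type v} [Fintype τ] [DecidableEq τ]
    (P f : MvPolynomial σ k) (hP : P ≠ 0) (hf : f ∣ P)
    (E : σ → MvPolynomial (Option τ) (PowerSeries K)) (hE : ∀ i, (E i).totalDegree ≤ 1)
    (Φ : MvPolynomial τ (PowerSeries K)) (u : PowerSeries K) (hu : u ≠ 0)
    (hfE : eval₂ ((C : PowerSeries K →+* _).comp
      ((PowerSeries.C (R := K)).comp (algebraMap k K))) E f = C u * gr Φ)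
    (b : τ → K) (S : Finset (τ → K))
    (hS : Good (map (PowerSeries.constantCoeff (R := K)) Φ) b S)
    (r : ℕ) (hr : BorderReach P r) : S.card ≤ 2 ^ (3 * r) := by
  classical
  obtain ⟨b₁, T₁, hT₁, hG₁⟩ := lift h₁ Φ b S hS
  let ι₁ := algebraMap (PowerSeries K) F₁
  let j₁ : k →+* F₁ := (cst K F₁).comp (algebraMap k K)
  let Φ₁ : MvPolynomial τ F₁ := map ι₁ Φ
  let E₁ : σ → MvPolynomial (Option τ) F₁ := fun i => map ι₁ (E i)
  have hκ : ι₁ u ≠ 0 := by
    rw [Ne, map_eq_zero_iff _ h₁]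
    exact hu
  have hP₁ : map j₁ P ≠ 0 := by
    rw [Ne, map_eq_zero_iff _ (map_injective _ j₁.injective)]
    exact hP
  have hf₁ : map j₁ f ∣ map j₁ P := map_dvd _ hf
  have hfE₁ : aeval E₁ (map j₁ f) = C (ι₁ u) * gr Φ₁ := by
    have h := congrArg (map ι₁) hfE
    rw [map_mul, map_C, GN_map_gr, hom_eval₂] at h
    rw [← h, aeval_def, eval₂_map]
    congr 1
    refine RingHom.ext fun c => ?_
    simp only [RingHom.comp_apply, map_C]
    rfl
  obtain ⟨W, m, a, Q, R, ha, hQ, hlead⟩ := lead (map j₁ P) (map j₁ f) hP₁ hf₁ E₁ Φ₁ hκ hfE₁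
  obtain ⟨b₂, T₂, hT₂, hG₂, hz⟩ := perturb h₂ Φ₁ b₁ T₁ hG₁ (sb Φ₁ Q) hQ
  let c₂ := cst F₁ F₂
  let Φ₂ : MvPolynomial τ F₂ := map c₂ Φ₁
  let Q₂ : MvPolynomial (Option τ) F₂ := map c₂ Q
  let alg : Algebra k F₂ := (c₂.comp j₁).toAlgebra
  have halg : algebraMap k F₂ = c₂.comp j₁ := rfl
  let cc₂ : F₁ →+* PowerSeries F₂ := (PowerSeries.C (R := F₂)).comp c₂
  let E' : σ → MvPolynomial (Option τ) (PowerSeries F₂) := fun i =>
    map cc₂ (E₁ i) + C (PowerSeries.X ^ (a + 1) * PowerSeries.C (c₂ (W i)))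
  have hE' : ∀ i, map (algebraMap (PowerSeries F₂) F₃) (E' i) ∈ affine F₃ (Option τ) := by
    intro i
    refine deg_affine _ ?_
    refine (GN_deg _ _).trans ?_
    refine (totalDegree_add _ _).trans (max_le ?_
      ((totalDegree_C _).trans_le (Nat.zero_le _)))
    exact (GN_deg _ _).trans ((GN_deg _ _).trans (hE i))
  obtain ⟨r', V, G, hr', hV, hmem⟩ := border_subst' (k := k) (K := F₂) (L := F₃) h₃ hr
    (e := (m + 1) * (a + 1)) (by positivity) E' hE'
  -- the ring homomorphism that maps the variable to `X ^ (a + 1)`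
  let θ : Polynomial (MvPolynomial (Option τ) F₁) →+* MvPolynomial (Option τ) (PowerSeries F₂) :=
    Polynomial.eval₂RingHom (map cc₂) (C (PowerSeries.X ^ (a + 1)))
  have hθX : θ Polynomial.X = C (PowerSeries.X ^ (a + 1)) := by
    simp only [θ, Polynomial.coe_eval₂RingHom, Polynomial.eval₂_X]
  have hθC : ∀ p, θ (Polynomial.C p) = map cc₂ p := by
    intro p
    simp only [θ, Polynomial.coe_eval₂RingHom, Polynomial.eval₂_C]
  have h1 : eval₂ ((C : PowerSeries F₂ →+* _).comp
      ((PowerSeries.C (R := F₂)).comp (algebraMap k F₂))) E' P =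
      C (PowerSeries.X ^ (a + 1)) ^ m *
        (mc (Option τ) F₂ (gr Φ₂ ^ a * Q₂) + C (PowerSeries.X ^ (a + 1)) * θ R) := by
    have h := congrArg θ hlead
    rw [map_mul θ (Polynomial.X ^ m), map_pow, map_add, map_mul θ Polynomial.X, hθX, hθC,
      aeval_def, eval₂_map, hom_eval₂] at h
    have e1 : map cc₂ (gr Φ₁ ^ a * Q) = mc (Option τ) F₂ (gr Φ₂ ^ a * Q₂) := by
      simp only [mc, map_mul, map_pow, Φ₂, Q₂, GN_map_gr, MvPolynomial.map_map, cc₂]
    rw [e1] at h
    rw [← h]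
    have e2 : (C : PowerSeries F₂ →+* MvPolynomial (Option τ) (PowerSeries F₂)).comp
        ((PowerSeries.C (R := F₂)).comp (algebraMap k F₂)) =
        θ.comp ((algebraMap F₁ (Polynomial (MvPolynomial (Option τ) F₁))).comp j₁) := by
      refine RingHom.ext fun c => ?_
      have e3 : algebraMap F₁ (Polynomial (MvPolynomial (Option τ) F₁)) (j₁ c) =
        Polynomial.C (C (j₁ c)) := rfl
      rw [RingHom.comp_apply, RingHom.comp_apply, RingHom.comp_apply, RingHom.comp_apply, e3,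
        hθC, map_C, halg]
      rfl
    rw [e2]
    congr 1
    funext i
    rw [map_add, map_mul, hθX, hθC, hθC, map_C, ← C_mul]
    rfl
  have h2 : map (algebraMap (PowerSeries F₂) F₃) (pp Φ₂ Q₂ a (θ R + G)) ∈ V := by
    have h3 : eval₂ ((C : PowerSeries F₂ →+* _).comp
        ((PowerSeries.C (R := F₂)).comp (algebraMap k F₂))) E' P +
        C (PowerSeries.X ^ ((m + 1) * (a + 1))) * G =
        C ((PowerSeries.X ^ (a + 1)) ^ m) * pp Φ₂ Q₂ a (θ R + G) := by
      rw [h1]
      unfold pp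
      have e5 : (C (PowerSeries.X ^ ((m + 1) * (a + 1))) :
          MvPolynomial (Option τ) (PowerSeries F₂)) =
          C (PowerSeries.X ^ (a + 1)) ^ m * C (PowerSeries.X ^ (a + 1)) := by
        rw [show (m + 1) * (a + 1) = (a + 1) * m + (a + 1) by ring,
          pow_add _ ((a + 1) * m) (a + 1), pow_mul _ (a + 1) m, C_mul]
        congr 1
        exact map_pow C _ m
      have e6 : (C ((PowerSeries.X ^ (a + 1)) ^ m) : MvPolynomial (Option τ) (PowerSeries F₂)) =
          C (PowerSeries.X ^ (a + 1)) ^ m := map_pow C _ m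
      rw [e5, e6]
      ring
    rw [h3, map_mul, map_C, ← MvPolynomial.smul_eq_C_mul] at hmem
    refine (Submodule.smul_mem_iff V ?_).1 hmem
    rw [Ne, map_eq_zero_iff _ h₃]
    exact pow_ne_zero _ (pow_ne_zero _ PowerSeries.X_ne_zero)
  have h4 := core_bound h₃ hV Φ₂ Q₂ a ha (θ R + G) h2 b₂ T₂ hG₂ (fun p hp => by
    rw [GN_map_sb]
    exact hz p hp)
  rw [hT₂, hT₁] at h4
  exact h4.trans (Nat.pow_le_pow_right (by norm_num) (by omega))

theorem general {k : Type u} [Field k] {K : Type u} [Field K] [CharZero K] [Algebra k K]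
    {σ : Type w} {τ : Type v} [Fintype τ] [DecidableEq τ]
    (P f : MvPolynomial σ k) (hP : P ≠ 0) (hf : f ∣ P)
    (E : σ → MvPolynomial (Option τ) (PowerSeries K)) (hE : ∀ i, (E i).totalDegree ≤ 1)
    (Φ : MvPolynomial τ (PowerSeries K)) (u : PowerSeries K) (hu : u ≠ 0)
    (hfE : eval₂ ((C : PowerSeries K →+* _).comp
      ((PowerSeries.C (R := K)).comp (algebraMap k K))) E f = C u * gr Φ)
    (b : τ → K) (S : Finset (τ → K))
    (hS : Good (map (PowerSeries.constantCoeff (R := K)) Φ) b S)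
    (r : ℕ) (hr : BorderReach P r) : S.card ≤ 2 ^ (3 * r) := by
  obtain ⟨F₁, _, _, h₁, _, _⟩ := GN_closure K
  obtain ⟨F₂, _, _, h₂, _, _⟩ := GN_closure F₁
  obtain ⟨F₃, _, _, h₃, _, _⟩ := GN_closure F₂
  exact GN_core h₁ h₂ h₃ P f hP hf E hE Φ u hu hfE b S hS r hr

end Pool.Agent.MUL
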