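import Pool.Agent.MUL.Defs

/-!
# PA (difficulty 3): expansions along a curve `p + X w`

`low_form`: let `T` be `H` translated: `T = aeval (fun i => X i + C (p i)) H`, `T ≠ 0` (translate back).
`T = ∑ j, homogeneousComponent j T`; let `j` be the least index with `h_j := homogeneousComponent j T ≠ 0`.
For `w : τ → F[[X]]`: `eval (p + X w) H = eval (X w) T = ∑ j', eval (X w) h_j' = ∑ X^j' * eval w h_j'`
(`IsHomogeneous.eval₂`/`MvPolynomial.IsHomogeneous` scaling: prove it for monomials if no lemma fits), and all
`j' ≥ j`, so this is `X ^ j * (eval w h_j + X * B)`.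

`first_order`: apply the ring homomorphism `f ↦ inl (coeff 0 f) + inr (coeff 1 f)` from `F[[X]]` to the dual
numbers, and `aeval_dual` (Pool/Agent/H10/PerSL/Dual.lean); or directly by induction on `G`
(`PowerSeries.coeff_mul`, antidiagonal of 1).
-/

set_option autoImplicit false

namespace Pool.Agent.MUL

open MvPolynomial Finset
open Pool.Agent.H53.AC Pool.Agent.H10.PerSL

universe u v w

variable {F : Type u} [Field F] {τ : Type v} [Fintype τ] [DecidableEq τ]

omit [Fintype τ] [DecidableEq τ] in
private theorem PA_subst (p : τ → F) (w : τ → PowerSeries F) (G : MvPolynomial τ F) :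
    eval₂ (PowerSeries.C (R := F)) (fun i => PowerSeries.C (p i) + PowerSeries.X * w i) G =
      eval₂ (PowerSeries.C (R := F)) (fun i => PowerSeries.X * w i)
        (bind₁ (fun i => X i + C (p i)) G) := by
  induction G using MvPolynomial.induction_on with
  | C a => simp
  | add f g hf hg => simp only [eval₂_add, map_add, hf, hg]
  | mul_X f n hf =>
    simp only [eval₂_mul, eval₂_X, map_mul, bind₁_X_right, eval₂_add, eval₂_C, hf]
    ring

omit [Fintype τ] [DecidableEq τ] in
private theorem PA_inv (p : τ → F) (G : MvPolynomial τ F) :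
    bind₁ (fun i => X i - C (p i)) (bind₁ (fun i => X i + C (p i)) G) = G := by
  induction G using MvPolynomial.induction_on with
  | C a => simp
  | add f g hf hg => simp only [map_add, hf, hg]
  | mul_X f n hf =>
    simp only [map_mul, bind₁_X_right, map_add, hf]
    simp

omit [DecidableEq τ] in
private theorem PA_hom {n : ℕ} {φ : MvPolynomial τ F} (hφ : φ.IsHomogeneous n)
    (w : τ → PowerSeries F) :
    eval₂ (PowerSeries.C (R := F)) (fun i => PowerSeries.X * w i) φ =
      PowerSeries.X ^ n * eval₂ (PowerSeries.C (R := F)) w φ := by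
  rw [eval₂_eq', eval₂_eq', Finset.mul_sum]
  refine Finset.sum_congr rfl (fun d hd => ?_)
  have h1 : ∑ i, d i = n := by
    have := hφ (mem_support_iff.mp hd)
    rw [← this, Finsupp.weight_apply, Finsupp.sum_fintype]
    · simp
    · simp
  have h2 : ∏ i, (PowerSeries.X * w i) ^ d i = PowerSeries.X ^ n * ∏ i, w i ^ d i := by
    simp only [mul_pow, Finset.prod_mul_distrib]
    rw [Finset.prod_pow_eq_pow_sum, h1]
  rw [h2]
  ring

theorem low_form (H : MvPolynomial τ F) (hH : H ≠ 0) (p : τ → F) :
    ∃ (j : ℕ) (h : MvPolynomial τ F), h ≠ 0 ∧ ∀ w : τ → PowerSeries F, ∃ B : PowerSeries F,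
      eval (fun i => PowerSeries.C (p i) + PowerSeries.X * w i)
        (map (PowerSeries.C (R := F)) H) =
      PowerSeries.X ^ j * (eval w (map (PowerSeries.C (R := F)) h) + PowerSeries.X * B) := by
  classical
  set T : MvPolynomial τ F := bind₁ (fun i => X i + C (p i)) H with hT
  have hT0 : T ≠ 0 := by
    intro h0
    apply hH
    rw [← PA_inv p H, ← hT, h0, map_zero]
  have hex : ∃ j, homogeneousComponent j T ≠ 0 := by
    by_contra hcon
    push Not at hcon
    apply hT0
    rw [← sum_homogeneousComponent T]
    exact Finset.sum_eq_zero (fun i _ => hcon i)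
  set j := Nat.find hex with hj
  have hj0 : homogeneousComponent j T ≠ 0 := Nat.find_spec hex
  have hjmin : ∀ i < j, homogeneousComponent i T = 0 := fun i hi => by
    by_contra h
    exact Nat.find_min hex hi h
  refine ⟨j, homogeneousComponent j T, hj0, fun w => ?_⟩
  refine ⟨∑ i ∈ range (T.totalDegree + 1) with j < i, PowerSeries.X ^ (i - j - 1) *
    eval₂ (PowerSeries.C (R := F)) w (homogeneousComponent i T), ?_⟩
  rw [eval_map, eval_map, PA_subst, ← hT]
  have h1 : eval₂ (PowerSeries.C (R := F)) (fun i => PowerSeries.X * w i) T =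
      ∑ i ∈ range (T.totalDegree + 1), PowerSeries.X ^ i *
        eval₂ (PowerSeries.C (R := F)) w (homogeneousComponent i T) := by
    conv_lhs => rw [← sum_homogeneousComponent T]
    rw [eval₂_sum]
    exact Finset.sum_congr rfl (fun i _ => PA_hom (homogeneousComponent_isHomogeneous i T) w)
  rw [h1, mul_add, Finset.mul_sum, Finset.mul_sum]
  have hjle : j ∈ range (T.totalDegree + 1) := by
    rw [Finset.mem_range]
    by_contra h
    exact hj0 (homogeneousComponent_eq_zero _ _ (by omega))
  rw [← Finset.sum_filter_add_sum_filter_not (range (T.totalDegree + 1)) (fun i => j < i),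
    add_comm]
  congr 1
  · rw [Finset.sum_eq_single j]
    · intro i hi hij
      rw [Finset.mem_filter] at hi
      rw [hjmin i (by omega)]
      simp
    · intro h
      exact absurd (Finset.mem_filter.mpr ⟨hjle, lt_irrefl j⟩) h
  · refine Finset.sum_congr rfl (fun i hi => ?_)
    rw [Finset.mem_filter] at hi
    have h2 : i = j + (1 + (i - j - 1)) := by omega
    conv_lhs => rw [h2]
    rw [pow_add, pow_add, pow_one, ← h2]
    ring

theorem first_order (G : MvPolynomial τ F) (q : τ → PowerSeries F) :
    PowerSeries.coeff 1 (eval q (map (PowerSeries.C (R := F)) G)) =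
      ∑ j, PowerSeries.coeff 1 (q j) *
        eval (fun i => PowerSeries.constantCoeff (q i)) (pderiv j G) := by
  have h0 : ∀ G : MvPolynomial τ F, PowerSeries.coeff 0 (eval q (map (PowerSeries.C (R := F)) G)) =
      eval (fun i => PowerSeries.constantCoeff (q i)) G := by
    intro G
    induction G using MvPolynomial.induction_on with
    | C a => simp
    | add f g hf hg => simp only [map_add, hf, hg]
    | mul_X f n hf =>
      simp only [map_mul, map_X, eval_X]
      rw [← hf]
      simp
  induction G using MvPolynomial.induction_on with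
  | C a => simp
  | add f g hf hg =>
    simp only [map_add, hf, hg, mul_add, Finset.sum_add_distrib]
  | mul_X f n hf =>
    simp only [map_mul, map_X, eval_X]
    rw [PowerSeries.coeff_mul]
    have hanti : Finset.HasAntidiagonal.antidiagonal 1 = {((0 : ℕ), (1 : ℕ)), (1, 0)} := rfl
    rw [hanti, Finset.sum_pair (by simp), h0, hf]
    have h1 : ∀ i, PowerSeries.coeff 1 (q i) * eval (fun i => PowerSeries.constantCoeff (q i))
        (pderiv i (f * X n)) = (PowerSeries.coeff 1 (q i) *
          eval (fun i => PowerSeries.constantCoeff (q i)) (pderiv i f)) *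
            PowerSeries.constantCoeff (q n) +
          eval (fun i => PowerSeries.constantCoeff (q i)) f *
            (if i = n then PowerSeries.coeff 1 (q n) else 0) := by
      intro i
      rw [Derivation.leibniz]
      by_cases h : i = n
      · subst h
        simp
        ring
      · rw [pderiv_X_of_ne (Ne.symm h)]
        simp [h]
        ring
    simp_rw [h1]
    rw [Finset.sum_add_distrib, ← Finset.sum_mul, ← Finset.mul_sum]
    simp
    ring

end Pool.Agent.MUL
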