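import Pool.Agent.MUL.TDefs

/-!
# TA (difficulty 4): a shallow tree is locally constant near a generic zero of `f`

* `val_opd`: `List.getD` of a `map`.
* `run_const`: induction on `t` (all of `r V ℓ` general), cases (`(pa, qa)`, `(pb, qb)` = `opf ℓ a`, `opf ℓ b`; they have the
  properties of the members of `ℓ`: `X i`, `C c`, `1 ∈ V` by `Reach.affine_le`, `X_mem_affine`, `C_mem_affine`, `Reach.C_mem`;
  `¬ f ∣ 1` as `f` is prime):
  - `leaf`: `h = 1`.
  - `comp add`: new fraction `(pa qb + qa pb, qa qb)`; three steps give `Reach (r + 3) V'` (`V ≤ V'`). `comp sub` the same;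
    `comp mul`: `(pa pb, qa qb)`, `Reach (r + 2) V'`; `comp div`: if `pb = 0`: `(0, 1)`; otherwise `¬ f ∣ pb` (as `ReachLE pb r`)
    and `(pa qb, qa pb)`. For every `q` at which the old denominators do not vanish
    `o.val (a.val q (vals q ℓ)) (b.val q (vals q ℓ)) = eval q new.1 / eval q new.2` (`div_add_div`, `div_sub_div`, `div_mul_div_comm`,
    `div_div_div_eq`), and these `q` form a neighbourhood of `z` (`MvPolynomial.continuous_eval`).
    Induction hypothesis for `t` with `new :: ℓ` gives `h₁`; `h = h₁ * new.2`.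
  - `test a`: `u = pa`. If `u = 0` the value is `0` for all `q`: always `t₂`. Otherwise `¬ f ∣ u`, and `h = u * h₁ * h₃`: the sign of
    `u / v` is constant near `z`.
-/

set_option autoImplicit false

namespace Pool.Agent.MUL

open MvPolynomial Finset
open Pool.Agent.H53.AC Pool.Agent.H10.PerSL

variable {σ : Type}

/-- The fraction of an operand. -/
noncomputable def opf (ℓ : List (MvPolynomial σ ℝ × MvPolynomial σ ℝ)) :
    Opd σ → MvPolynomial σ ℝ × MvPolynomial σ ℝ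
  | .inp i => (X i, 1)
  | .con c => (C c, 1)
  | .res j => ℓ.getD j (0, 1)

theorem val_opd (z : σ → ℝ) (ℓ : List (MvPolynomial σ ℝ × MvPolynomial σ ℝ)) (a : Opd σ) :
    a.val z (vals z ℓ) = eval z (opf ℓ a).1 / eval z (opf ℓ a).2 := by
  cases a with
  | inp i => simp [Opd.val, opf]
  | con c => simp [Opd.val, opf]
  | res j =>
      simp only [Opd.val, opf, vals]
      rw [List.getD_eq_getElem?_getD, List.getD_eq_getElem?_getD, List.getElem?_map]
      cases h : ℓ[j]? with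
      | none => simp
      | some x => simp

private theorem TA_opf_mem (f : MvPolynomial σ ℝ) (hf : Prime f) {r : ℕ}
    {V : Submodule ℝ (MvPolynomial σ ℝ)} (hV : Reach r V)
    {ℓ : List (MvPolynomial σ ℝ × MvPolynomial σ ℝ)}
    (hℓ : ∀ x ∈ ℓ, x.1 ∈ V ∧ x.2 ∈ V ∧ ¬ f ∣ x.2) (a : Opd σ) :
    (opf ℓ a).1 ∈ V ∧ (opf ℓ a).2 ∈ V ∧ ¬ f ∣ (opf ℓ a).2 := by
  have h1 : (1 : MvPolynomial σ ℝ) ∈ V := hV.affine_le one_mem_affine
  have h1f : ¬ f ∣ (1 : MvPolynomial σ ℝ) := fun h => hf.not_isUnit (isUnit_of_dvd_one h)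
  cases a with
  | inp i => exact ⟨hV.affine_le (X_mem_affine i), h1, h1f⟩
  | con c => exact ⟨hV.C_mem c, h1, h1f⟩
  | res j =>
      simp only [opf]
      rw [List.getD_eq_getElem?_getD]
      cases h : ℓ[j]? with
      | none => simpa using ⟨h1, h1f⟩
      | some x =>
          have hx : x ∈ ℓ := List.mem_of_getElem? h
          simpa using hℓ x hx

private theorem TA_opf_ne (q : σ → ℝ) {ℓ : List (MvPolynomial σ ℝ × MvPolynomial σ ℝ)}
    (hq : ∀ x ∈ ℓ, eval q x.2 ≠ 0) (a : Opd σ) : eval q (opf ℓ a).2 ≠ 0 := by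
  cases a with
  | inp i => simp [opf]
  | con c => simp [opf]
  | res j =>
      simp only [opf]
      rw [List.getD_eq_getElem?_getD]
      cases h : ℓ[j]? with
      | none => simp
      | some x =>
          have hx : x ∈ ℓ := List.mem_of_getElem? h
          simpa using hq x hx

private theorem TA_mono {u : MvPolynomial σ ℝ} {a b : ℕ} (h : ReachLE u a) (hab : a ≤ b) :
    ReachLE u b := by
  obtain ⟨r', hr', V, hV, hu⟩ := h
  exact ⟨r', hr'.trans hab, V, hV, hu⟩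

private theorem TA_mul {r : ℕ} {V : Submodule ℝ (MvPolynomial σ ℝ)} (hV : Reach r V)
    {a b : MvPolynomial σ ℝ} (ha : a ∈ V) (hb : b ∈ V) :
    ∃ V' : Submodule ℝ (MvPolynomial σ ℝ), Reach (r + 1) V' ∧ V ≤ V' ∧ a * b ∈ V' :=
  ⟨_, Reach.step hV ha hb, le_sup_left,
    le_sup_right (a := V) (Submodule.mem_span_singleton_self (a * b))⟩

private theorem TA_frac (f : MvPolynomial σ ℝ) (hf : Prime f) {r : ℕ}
    {V : Submodule ℝ (MvPolynomial σ ℝ)} (hV : Reach r V)
    {ℓ : List (MvPolynomial σ ℝ × MvPolynomial σ ℝ)}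
    (hℓ : ∀ x ∈ ℓ, x.1 ∈ V ∧ x.2 ∈ V ∧ ¬ f ∣ x.2)
    (hn : ∀ u : MvPolynomial σ ℝ, u ≠ 0 → f ∣ u → ¬ ReachLE u r) (o : Op) (a b : Opd σ) :
    ∃ nw : MvPolynomial σ ℝ × MvPolynomial σ ℝ, ∃ r' ≤ r + 3,
      ∃ V' : Submodule ℝ (MvPolynomial σ ℝ), Reach r' V' ∧ V ≤ V' ∧ nw.1 ∈ V' ∧ nw.2 ∈ V' ∧
        ¬ f ∣ nw.2 ∧ ∀ q : σ → ℝ, (∀ x ∈ ℓ, eval q x.2 ≠ 0) →
          o.val (a.val q (vals q ℓ)) (b.val q (vals q ℓ)) = eval q nw.1 / eval q nw.2 := by
  obtain ⟨ha1, ha2, ha3⟩ := TA_opf_mem f hf hV hℓ a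
  obtain ⟨hb1, hb2, hb3⟩ := TA_opf_mem f hf hV hℓ b
  have h1 : (1 : MvPolynomial σ ℝ) ∈ V := hV.affine_le one_mem_affine
  have h1f : ¬ f ∣ (1 : MvPolynomial σ ℝ) := fun h => hf.not_isUnit (isUnit_of_dvd_one h)
  have hab : ¬ f ∣ (opf ℓ a).2 * (opf ℓ b).2 := fun h => (hf.dvd_or_dvd h).elim ha3 hb3
  cases o with
  | add =>
      obtain ⟨V₁, hV₁, hle₁, hm₁⟩ := TA_mul hV ha1 hb2
      obtain ⟨V₂, hV₂, hle₂, hm₂⟩ := TA_mul hV₁ (hle₁ ha2) (hle₁ hb1)
      obtain ⟨V₃, hV₃, hle₃, hm₃⟩ := TA_mul hV₂ (hle₂ (hle₁ ha2)) (hle₂ (hle₁ hb2))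
      refine ⟨((opf ℓ a).1 * (opf ℓ b).2 + (opf ℓ a).2 * (opf ℓ b).1, (opf ℓ a).2 * (opf ℓ b).2),
        r + 1 + 1 + 1, le_rfl, V₃, hV₃, (hle₁.trans hle₂).trans hle₃,
        V₃.add_mem (hle₃ (hle₂ hm₁)) (hle₃ hm₂), hm₃, hab, ?_⟩
      intro q hq
      have hqa := TA_opf_ne q hq a
      have hqb := TA_opf_ne q hq b
      rw [val_opd, val_opd]
      simp only [Op.val, map_add, map_mul]
      rw [div_add_div _ _ hqa hqb]
  | sub =>
      obtain ⟨V₁, hV₁, hle₁, hm₁⟩ := TA_mul hV ha1 hb2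
      obtain ⟨V₂, hV₂, hle₂, hm₂⟩ := TA_mul hV₁ (hle₁ ha2) (hle₁ hb1)
      obtain ⟨V₃, hV₃, hle₃, hm₃⟩ := TA_mul hV₂ (hle₂ (hle₁ ha2)) (hle₂ (hle₁ hb2))
      refine ⟨((opf ℓ a).1 * (opf ℓ b).2 - (opf ℓ a).2 * (opf ℓ b).1, (opf ℓ a).2 * (opf ℓ b).2),
        r + 1 + 1 + 1, le_rfl, V₃, hV₃, (hle₁.trans hle₂).trans hle₃,
        V₃.sub_mem (hle₃ (hle₂ hm₁)) (hle₃ hm₂), hm₃, hab, ?_⟩
      intro q hq
      have hqa := TA_opf_ne q hq a
      have hqb := TA_opf_ne q hq b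
      rw [val_opd, val_opd]
      simp only [Op.val, map_sub, map_mul]
      rw [div_sub_div _ _ hqa hqb]
  | mul =>
      obtain ⟨V₁, hV₁, hle₁, hm₁⟩ := TA_mul hV ha1 hb1
      obtain ⟨V₂, hV₂, hle₂, hm₂⟩ := TA_mul hV₁ (hle₁ ha2) (hle₁ hb2)
      refine ⟨((opf ℓ a).1 * (opf ℓ b).1, (opf ℓ a).2 * (opf ℓ b).2),
        r + 1 + 1, by omega, V₂, hV₂, hle₁.trans hle₂, hle₂ hm₁, hm₂, hab, ?_⟩
      intro q hq
      rw [val_opd, val_opd]
      simp only [Op.val, map_mul]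
      rw [div_mul_div_comm]
  | div =>
      by_cases hp : (opf ℓ b).1 = 0
      · refine ⟨(0, 1), r, by omega, V, hV, le_rfl, V.zero_mem, h1, h1f, ?_⟩
        intro q hq
        rw [val_opd, val_opd, hp]
        simp [Op.val]
      · have hpf : ¬ f ∣ (opf ℓ b).1 := fun h => hn _ hp h ⟨r, le_rfl, V, hV, hb1⟩
        obtain ⟨V₁, hV₁, hle₁, hm₁⟩ := TA_mul hV ha1 hb2
        obtain ⟨V₂, hV₂, hle₂, hm₂⟩ := TA_mul hV₁ (hle₁ ha2) (hle₁ hb1)
        refine ⟨((opf ℓ a).1 * (opf ℓ b).2, (opf ℓ a).2 * (opf ℓ b).1),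
          r + 1 + 1, by omega, V₂, hV₂, hle₁.trans hle₂, hle₂ hm₁, hm₂,
          fun h => (hf.dvd_or_dvd h).elim ha3 hpf, ?_⟩
        intro q hq
        rw [val_opd, val_opd]
        simp only [Op.val, map_mul]
        rw [div_div_div_eq]

private theorem TA_ev_ne (p : MvPolynomial σ ℝ) (z : σ → ℝ) (h : eval z p ≠ 0) :
    ∀ᶠ q in nhds z, eval q p ≠ 0 :=
  (MvPolynomial.continuous_eval p).continuousAt.eventually_ne h

private theorem TA_ev_list (ℓ : List (MvPolynomial σ ℝ × MvPolynomial σ ℝ)) (z : σ → ℝ)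
    (h : ∀ x ∈ ℓ, eval z x.2 ≠ 0) : ∀ᶠ q in nhds z, ∀ x ∈ ℓ, eval q x.2 ≠ 0 := by
  induction ℓ with
  | nil => simp
  | cons y ℓ ih =>
      have h1 := TA_ev_ne y.2 z (h y (by simp))
      have h2 := ih (fun x hx => h x (by simp [hx]))
      filter_upwards [h1, h2] with q hq1 hq2 x hx
      rcases List.mem_cons.1 hx with rfl | hx
      · exact hq1
      · exact hq2 x hx

theorem run_const [Fintype σ] (f : MvPolynomial σ ℝ) (hf : Prime f) (t : CTree σ) :
    ∀ (r : ℕ) (V : Submodule ℝ (MvPolynomial σ ℝ))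
      (ℓ : List (MvPolynomial σ ℝ × MvPolynomial σ ℝ)), Reach r V →
      (∀ x ∈ ℓ, x.1 ∈ V ∧ x.2 ∈ V ∧ ¬ f ∣ x.2) →
      (∀ u : MvPolynomial σ ℝ, u ≠ 0 → f ∣ u → ¬ ReachLE u (r + 3 * t.depth)) →
      ∃ h : MvPolynomial σ ℝ, ¬ f ∣ h ∧
        ∀ z, eval z h ≠ 0 → (∀ x ∈ ℓ, eval z x.2 ≠ 0) →
          ∀ᶠ q in nhds z, CTree.run q (vals q ℓ) t = CTree.run z (vals z ℓ) t := by
  have h1f : ¬ f ∣ (1 : MvPolynomial σ ℝ) := fun h => hf.not_isUnit (isUnit_of_dvd_one h)
  induction t with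
  | leaf b =>
      intro r V ℓ _ _ _
      refine ⟨1, h1f, fun z _ _ => ?_⟩
      simp [CTree.run]
  | comp o a b t ih =>
      intro r V ℓ hV hℓ hn
      simp only [CTree.depth] at hn
      obtain ⟨nw, r', hr', V', hV', hle, hn1, hn2, hn3, hval⟩ := TA_frac f hf hV hℓ
        (fun u hu hfu hR => hn u hu hfu (TA_mono hR (by omega))) o a b
      obtain ⟨h₁, hh₁, hrun⟩ := ih r' V' (nw :: ℓ) hV' (by
        intro x hx
        rcases List.mem_cons.1 hx with rfl | hx
        · exact ⟨hn1, hn2, hn3⟩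
        · obtain ⟨k1, k2, k3⟩ := hℓ x hx
          exact ⟨hle k1, hle k2, k3⟩)
        (fun u hu hfu hR => hn u hu hfu (TA_mono hR (by omega)))
      refine ⟨h₁ * nw.2, fun h => (hf.dvd_or_dvd h).elim hh₁ hn3, ?_⟩
      intro z hz hzℓ
      rw [map_mul] at hz
      have hz1 := left_ne_zero_of_mul hz
      have hz2 := right_ne_zero_of_mul hz
      have hev := hrun z hz1 (by
        intro x hx
        rcases List.mem_cons.1 hx with rfl | hx
        · exact hz2
        · exact hzℓ x hx)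
      have key : ∀ q : σ → ℝ, (∀ x ∈ ℓ, eval q x.2 ≠ 0) →
          CTree.run q (vals q ℓ) (CTree.comp o a b t) = CTree.run q (vals q (nw :: ℓ)) t := by
        intro q hq
        simp only [CTree.run]
        rw [hval q hq]
        rfl
      filter_upwards [hev, TA_ev_list ℓ z hzℓ] with q hq1 hq2
      rw [key q hq2, key z hzℓ, hq1]
  | test a t₁ t₂ t₃ ih₁ ih₂ ih₃ =>
      intro r V ℓ hV hℓ hn
      simp only [CTree.depth] at hn
      obtain ⟨ha1, ha2, ha3⟩ := TA_opf_mem f hf hV hℓ a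
      by_cases hu : (opf ℓ a).1 = 0
      · obtain ⟨h₂, hh₂, hrun⟩ := ih₂ r V ℓ hV hℓ
          (fun u hu hfu hR => hn u hu hfu (TA_mono hR (by omega)))
        refine ⟨h₂, hh₂, ?_⟩
        intro z hz hzℓ
        have key : ∀ q : σ → ℝ,
            CTree.run q (vals q ℓ) (CTree.test a t₁ t₂ t₃) = CTree.run q (vals q ℓ) t₂ := by
          intro q
          have h0 : a.val q (vals q ℓ) = 0 := by rw [val_opd, hu]; simp
          simp [CTree.run, h0]
        filter_upwards [hrun z hz hzℓ] with q hq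
        rw [key q, key z, hq]
      · have huf : ¬ f ∣ (opf ℓ a).1 := fun h =>
          hn _ hu h (TA_mono ⟨r, le_rfl, V, hV, ha1⟩ (by omega))
        obtain ⟨h₁, hh₁, hrun₁⟩ := ih₁ r V ℓ hV hℓ
          (fun u hu hfu hR => hn u hu hfu (TA_mono hR (by omega)))
        obtain ⟨h₃, hh₃, hrun₃⟩ := ih₃ r V ℓ hV hℓ
          (fun u hu hfu hR => hn u hu hfu (TA_mono hR (by omega)))
        refine ⟨(opf ℓ a).1 * h₁ * h₃, fun h => ?_, ?_⟩
        · rcases hf.dvd_or_dvd h with h | h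
          · exact (hf.dvd_or_dvd h).elim huf hh₁
          · exact hh₃ h
        intro z hz hzℓ
        rw [map_mul, map_mul] at hz
        have hz3 := right_ne_zero_of_mul hz
        have hz12 := left_ne_zero_of_mul hz
        have hzu := left_ne_zero_of_mul hz12
        have hz1 := right_ne_zero_of_mul hz12
        have hqa := TA_opf_ne z hzℓ a
        have hcont : ContinuousAt (fun q : σ → ℝ => a.val q (vals q ℓ)) z := by
          have : (fun q : σ → ℝ => a.val q (vals q ℓ)) =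
              fun q => eval q (opf ℓ a).1 / eval q (opf ℓ a).2 := by
            funext q
            exact val_opd q ℓ a
          rw [this]
          exact (MvPolynomial.continuous_eval _).continuousAt.div
            (MvPolynomial.continuous_eval _).continuousAt hqa
        have hne : a.val z (vals z ℓ) ≠ 0 := by
          rw [val_opd]
          exact div_ne_zero hzu hqa
        rcases lt_or_gt_of_ne hne with hlt | hgt
        · have hev : ∀ᶠ q in nhds z, a.val q (vals q ℓ) < 0 :=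
            hcont.eventually_lt continuousAt_const hlt
          have key : ∀ q : σ → ℝ, a.val q (vals q ℓ) < 0 →
              CTree.run q (vals q ℓ) (CTree.test a t₁ t₂ t₃) = CTree.run q (vals q ℓ) t₁ := by
            intro q hq
            simp [CTree.run, hq]
          filter_upwards [hev, hrun₁ z hz1 hzℓ] with q hq1 hq2
          rw [key q hq1, key z hlt, hq2]
        · have hev : ∀ᶠ q in nhds z, 0 < a.val q (vals q ℓ) :=
            continuousAt_const.eventually_lt hcont hgt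
          have key : ∀ q : σ → ℝ, 0 < a.val q (vals q ℓ) →
              CTree.run q (vals q ℓ) (CTree.test a t₁ t₂ t₃) = CTree.run q (vals q ℓ) t₃ := by
            intro q hq
            simp [CTree.run, not_lt.2 hq.le, hq.ne']
          filter_upwards [hev, hrun₃ z hz3 hzℓ] with q hq1 hq2
          rw [key q hq1, key z hgt, hq2]

end Pool.Agent.MUL
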