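import Pool.Agent.MUL.Defs

/-!
# MP_9ce8c8_lc: real computation trees with divisions and sign tests

Definitions.
-/

set_option autoImplicit false

namespace Pool.Agent.MUL

open MvPolynomial Finset

/-! ### computation trees -/

/-- Operands of an instruction: an input, a real constant, or an earlier result (`res 0` is the
latest result). -/
inductive Opd (σ : Type) : Type
  | inp (i : σ) : Opd σ
  | con (c : ℝ) : Opd σ
  | res (j : ℕ) : Opd σ

/-- The arithmetic operations. -/
inductive Op : Type
  | add | sub | mul | div

/-- Algebraic computation trees over the reals with inputs indexed by `σ` and leaves labelled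
with answers: a node `comp o a b t` performs the operation `o` on the operands `a`, `b`, a node
`test a t₁ t₂ t₃` continues with `t₁`, `t₂`, `t₃` according as the operand `a` is negative,
zero, positive. -/
inductive CTree (σ : Type) : Type
  | leaf (b : Bool) : CTree σ
  | comp (o : Op) (a b : Opd σ) (t : CTree σ) : CTree σ
  | test (a : Opd σ) (t₁ t₂ t₃ : CTree σ) : CTree σ

/-- The value of an operand, when the input is `z` and the results so far are `l`. -/
def Opd.val {σ : Type} (z : σ → ℝ) (l : List ℝ) : Opd σ → ℝ
  | .inp i => z i
  | .con c => c
  | .res j => l.getD j 0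

/-- The result of an operation. A division by zero gives `0`. -/
noncomputable def Op.val : Op → ℝ → ℝ → ℝ
  | .add, x, y => x + y
  | .sub, x, y => x - y
  | .mul, x, y => x * y
  | .div, x, y => x / y

open Classical in
/-- The answer of the tree on the input `z`, when the results so far are `l`. -/
noncomputable def CTree.run {σ : Type} (z : σ → ℝ) : List ℝ → CTree σ → Bool
  | _, .leaf b => b
  | l, .comp o a b t => CTree.run z (o.val (a.val z l) (b.val z l) :: l) t
  | l, .test a t₁ t₂ t₃ =>
      if a.val z l < 0 then CTree.run z l t₁
      else if a.val z l = 0 then CTree.run z l t₂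
      else CTree.run z l t₃

/-- The depth of a tree: the largest number of operations and tests on a path. -/
def CTree.depth {σ : Type} : CTree σ → ℕ
  | .leaf _ => 0
  | .comp _ _ _ t => t.depth + 1
  | .test _ t₁ t₂ t₃ => max t₁.depth (max t₂.depth t₃.depth) + 1

open Classical in
/-- The randomised tree that runs `T ω` with probability `w ω` decides membership in `A` for the
inputs in `U`: for every input in `U` the answer is correct with a probability larger than
`1 / 2`. -/
def DecidesOn {σ : Type} {Ω : Type} [Fintype Ω] (w : Ω → ℝ) (T : Ω → CTree σ)
    (A U : Set (σ → ℝ)) : Prop :=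
  (∀ ω, 0 ≤ w ω) ∧ ∑ ω, w ω = 1 ∧
    ∀ z ∈ U, 1 / 2 < ∑ ω ∈ univ.filter (fun ω => ((T ω).run z [] = true ↔ z ∈ A)), w ω

/-- The values of a list of fractions. -/
noncomputable def vals {σ : Type} (z : σ → ℝ) (l : List (MvPolynomial σ ℝ × MvPolynomial σ ℝ)) :
    List ℝ := l.map fun x => eval z x.1 / eval z x.2

end Pool.Agent.MUL
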